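import Pool.Agent.K4H51.SB.FF

/-!
# Finite flatness at 2: the theorem
-/

set_option autoImplicit false
set_option linter.unusedSectionVars false
set_option linter.unusedSimpArgs false

open NumberField IsDedekindDomain Matrix

namespace Pool.Agent.K4H51.SB

open Pool.Agent.Y682

variable {v : HeightOneSpectrum (𝓞 K11)}

/-- The Galois module of points of the group scheme. -/
theorem scheme_v (h2 : (2 : 𝓞 K11) ∈ v.asIdeal) {Uf Ug : v.adicCompletion K11}
    (vUf : vv v Uf = 1) (vUg : vv v Ug = 1) {Z rf rg : AlgebraicClosure (v.adicCompletion K11)}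
    (hZ : Z ^ 2 + Z + 1 = 0)
    (hf : rf ^ 3 = 2 * algebraMap _ _ Uf) (hg : rg ^ 3 = 2 * algebraMap _ _ Ug) :
    ∃ (A : Type) (_ : CommRing A) (_ : HopfAlgebra (v.adicCompletionIntegers K11) A),
      Module.Finite (v.adicCompletionIntegers K11) A ∧
      Module.Flat (v.adicCompletionIntegers K11) A ∧
      Coalgebra.IsCocomm (v.adicCompletionIntegers K11) A ∧
      ∃ e : (A →ₐ[v.adicCompletionIntegers K11] AlgebraicClosure (v.adicCompletion K11)) ≃
          (Fin 2 → F4),
        (∀ f g, e (pointMul f g) = e f + e g) ∧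
        ∀ (s : GalAbs (v.adicCompletion K11)) (k l : Fin 3), s Z = Z →
          Z ^ k.val * s rf = rf → Z ^ l.val * s rg = rg → ∀ f,
          e ((s.toAlgHom.restrictScalars (v.adicCompletionIntegers K11)).comp f) =
            ![z4 ^ (l + k).val * e f 0, z4 ^ (l - k).val * e f 1] := by
  have hchar : CharZero (AlgebraicClosure (v.adicCompletion K11)) := charZero_ext _
  have hchar' : CharZero (v.adicCompletion K11) := charZero_ext _
  have hZ3 := zeta_cube hZ
  have hZ0 : Z ≠ 0 := by rintro rfl; simp at hZ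
  have nUf : Uf ≠ 0 := by rintro rfl; rw [map_zero] at vUf; exact zero_ne_one vUf
  have nUg : Ug ≠ 0 := by rintro rfl; rw [map_zero] at vUg; exact zero_ne_one vUg
  have h2le : vv v (2 : v.adicCompletion K11) ≤ 1 := by
    have := vv_iv_le v (2 : 𝓞 K11)
    rwa [map_ofNat] at this
  have h3 : vv v (3 : v.adicCompletion K11) = 1 := by
    have := vv_iv_eq v (x := (3 : 𝓞 K11)) (by
      intro h
      apply v.isPrime.ne_top
      rw [Ideal.eq_top_iff_one, show (1 : 𝓞 K11) = 3 - 2 by norm_num]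
      exact v.asIdeal.sub_mem h h2)
    rwa [map_ofNat] at this
  let c₁ : v.adicCompletionIntegers K11 := ⟨2 * (Uf * Ug)⁻¹, by
    rw [HeightOneSpectrum.mem_adicCompletionIntegers, map_mul, map_inv₀, map_mul]
    show vv v 2 * (vv v Uf * vv v Ug)⁻¹ ≤ 1
    rw [vUf, vUg]; simpa using h2le⟩
  let d₁ : v.adicCompletionIntegers K11 := ⟨Uf * Ug, by
    rw [HeightOneSpectrum.mem_adicCompletionIntegers, map_mul]
    show vv v Uf * vv v Ug ≤ 1
    rw [vUf, vUg]; simp⟩
  let c₂ : v.adicCompletionIntegers K11 := ⟨Uf * Ug⁻¹, by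
    rw [HeightOneSpectrum.mem_adicCompletionIntegers, map_mul, map_inv₀]
    show vv v Uf * (vv v Ug)⁻¹ ≤ 1
    rw [vUf, vUg]; simp⟩
  let d₂ : v.adicCompletionIntegers K11 := ⟨2 * (Ug * Uf⁻¹), by
    rw [HeightOneSpectrum.mem_adicCompletionIntegers, map_mul, map_mul, map_inv₀]
    show vv v 2 * (vv v Ug * (vv v Uf)⁻¹) ≤ 1
    rw [vUf, vUg]; simpa using h2le⟩
  let t : v.adicCompletionIntegers K11 := ⟨3⁻¹, by
    rw [HeightOneSpectrum.mem_adicCompletionIntegers, map_inv₀]
    show (vv v 3)⁻¹ ≤ 1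
    rw [h3]; simp⟩
  have hc₁ : c₁ * d₁ = 2 := by
    apply Subtype.ext
    show 2 * (Uf * Ug)⁻¹ * (Uf * Ug) = 2
    field_simp
  have hc₂ : c₂ * d₂ = 2 := by
    apply Subtype.ext
    show Uf * Ug⁻¹ * (2 * (Ug * Uf⁻¹)) = 2
    field_simp
  have ht : 3 * t = 1 := by
    apply Subtype.ext
    show (3 : v.adicCompletion K11) * 3⁻¹ = 1
    norm_num
  have mUf : algebraMap (v.adicCompletion K11) (AlgebraicClosure (v.adicCompletion K11)) Uf ≠ 0 := by
    simpa using nUf
  have mUg : algebraMap (v.adicCompletion K11) (AlgebraicClosure (v.adicCompletion K11)) Ug ≠ 0 := by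
    simpa using nUg
  have nf : rf ≠ 0 := by
    rintro rfl
    rw [zero_pow three_ne_zero] at hf
    exact mul_ne_zero two_ne_zero mUf hf.symm
  have ng : rg ≠ 0 := by
    rintro rfl
    rw [zero_pow three_ne_zero] at hg
    exact mul_ne_zero two_ne_zero mUg hg.symm
  have hz₁ : (2 / (rf * rg)) ^ 3 = algebraMap (v.adicCompletionIntegers K11)
      (AlgebraicClosure (v.adicCompletion K11)) c₁ := by
    show _ = algebraMap (v.adicCompletion K11) (AlgebraicClosure (v.adicCompletion K11))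
      (2 * (Uf * Ug)⁻¹)
    rw [div_pow, mul_pow, hf, hg, map_mul, map_inv₀, map_mul, map_ofNat]
    field_simp
  have hz₂ : (rf / rg) ^ 3 = algebraMap (v.adicCompletionIntegers K11)
      (AlgebraicClosure (v.adicCompletion K11)) c₂ := by
    show _ = algebraMap (v.adicCompletion K11) (AlgebraicClosure (v.adicCompletion K11))
      (Uf * Ug⁻¹)
    rw [div_pow, hf, hg, map_mul, map_inv₀]
    field_simp
  obtain ⟨A, i1, i2, i3, i4, i5, e, he, hs⟩ := exists_scheme hc₁ hc₂ ht hZ hz₁ hz₂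
    (div_ne_zero two_ne_zero (mul_ne_zero nf ng)) (div_ne_zero nf ng)
  refine ⟨A, i1, i2, i3, i4, i5, e, he, ?_⟩
  intro s k l hsZ hsf hsg f
  have nsf : s rf ≠ 0 := by simpa using nf
  have nsg : s rg ≠ 0 := by simpa using ng
  apply hs (s.toAlgHom.restrictScalars (v.adicCompletionIntegers K11)) _ _ hsZ
  · show s (2 / (rf * rg)) = 2 / (rf * rg) * tm Z (z4 ^ (l + k).val)
    rw [tm_z4_pow, pow_add_fin hZ3, map_div₀, map_mul, map_ofNat]
    conv_rhs => rw [← hsf, ← hsg]
    have := pow_ne_zero k.val hZ0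
    have := pow_ne_zero l.val hZ0
    field_simp
  · show s (rf / rg) = rf / rg * tm Z (z4 ^ (l - k).val)
    rw [tm_z4_pow, sub_eq_add_neg, pow_add_fin hZ3, map_div₀]
    conv_rhs => rw [← hsf, ← hsg]
    have h5 := pow_neg_fin hZ3 k
    have := pow_ne_zero l.val hZ0
    field_simp
    linear_combination (-1 : AlgebraicClosure (v.adicCompletion K11)) * h5

/-- The representation is finite flat at `v`. -/
theorem finite_flat (h2 : (2 : 𝓞 K11) ∈ v.asIdeal)
    (ι : AlgebraicClosure K11 →ₐ[K11] AlgebraicClosure (v.adicCompletion K11)) (R : Lab LL)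
    {ζ u Uf Ug : v.adicCompletion K11} (hζ : ζ ^ 2 + ζ + 1 = 0)
    (hUg : -7 * (2 * iv v w - 1) + 3 * (2 * ζ + 1) = 2 * Ug)
    (hUf : 3 - 7 * iv v w - 3 * (2 * ζ + 1) * u = 2 * Uf)
    (vUf : vv v Uf = 1) (vUg : vv v Ug = 1)
    (hβ : dd R.β = -2)
    (hα : (ι.comp LL.val) (dd R.α) = 2 * algebraMap (v.adicCompletion K11)
      (AlgebraicClosure (v.adicCompletion K11)) u) : IsFiniteFlatAt R.rho v := by
  obtain ⟨j, hj⟩ : ∃ j : LL →ₐ[K11] AlgebraicClosure (v.adicCompletion K11),
    j = ι.comp LL.val := ⟨_, rfl⟩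
  rw [← hj] at hα
  have hji : Function.Injective j := j.toRingHom.injective
  obtain ⟨res, hres⟩ := exists_res_hom (F := K11) j
  obtain ⟨rs, hrs⟩ : ∃ rs : GalAbs (v.adicCompletion K11) →* (LL ≃ₐ[K11] LL),
      ∀ σ x, j (rs σ x) = σ (j x) :=
    ⟨res.comp (AlgEquiv.restrictScalarsHom K11), fun σ x => hres _ x⟩
  have hFs : ∀ σ, Equiv.Perm.sign (R.permF (rs σ)) = 1 := by
    intro σ
    apply R.permF_sign_of_fix
    apply hji
    rw [hrs, hα, map_mul, map_ofNat, σ.commutes]
  have hFi : ∀ σ i, R.permF (rs σ) i = i + R.permF (rs σ) 0 := fun σ => perm3_even (hFs σ)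
  have hFm : ∀ σ τ, R.permF (rs (σ * τ)) 0 = R.permF (rs σ) 0 + R.permF (rs τ) 0 := by
    intro σ τ
    rw [map_mul, map_mul, Equiv.Perm.mul_apply, hFi σ (R.permF (rs τ) 0), add_comm]
  have hGm : ∀ σ τ, R.permG (rs (σ * τ)) 0 = R.permG (rs σ) 0 + R.permG (rs τ) 0 := by
    intro σ τ
    rw [map_mul, R.permG_mul_zero]
  let rM : GalAbs (v.adicCompletion K11) →* Matrix (Fin 2) (Fin 2) F4 :=
    { toFun := fun σ => Matrix.diagonal
        ![z4 ^ (R.permG (rs σ) 0 + R.permF (rs σ) 0).val,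
          z4 ^ (R.permG (rs σ) 0 - R.permF (rs σ) 0).val]
      map_one' := by
        rw [map_one, map_one, map_one, ← Matrix.diagonal_one]
        congr 1
        funext i
        fin_cases i <;> rfl
      map_mul' := fun σ τ => by
        rw [hFm, hGm, Matrix.diagonal_mul_diagonal]
        congr 1
        funext i
        fin_cases i
        · show z4 ^ _ = z4 ^ _ * z4 ^ _
          rw [← pow_add_fin z4_cube]
          congr 2
          abel
        · show z4 ^ _ = z4 ^ _ * z4 ^ _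
          rw [← pow_add_fin z4_cube]
          congr 2
          abel }
  let r : GalAbs (v.adicCompletion K11) →* GL (Fin 2) F4 := rM.toHomUnits
  have hr : ∀ σ, (r σ : Matrix (Fin 2) (Fin 2) F4) = Matrix.diagonal
        ![z4 ^ (R.permG (rs σ) 0 + R.permF (rs σ) 0).val,
          z4 ^ (R.permG (rs σ) 0 - R.permF (rs σ) 0).val] := fun σ => rfl
  have hZ : (algebraMap (v.adicCompletion K11) (AlgebraicClosure (v.adicCompletion K11)) ζ) ^ 2 +
      algebraMap (v.adicCompletion K11) (AlgebraicClosure (v.adicCompletion K11)) ζ + 1 = 0 := by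
    rw [← map_pow, ← map_add, ← map_one (algebraMap (v.adicCompletion K11)
      (AlgebraicClosure (v.adicCompletion K11))), ← map_add, hζ, map_zero]
  obtain ⟨hrf, hrg⟩ := resolvents R j hζ hUg hUf hβ hα
  obtain ⟨A, i1, i2, i3, i4, i5, e, he, hs⟩ := scheme_v h2 vUf vUg hZ hrf hrg
  refine ⟨ι, F4, inferInstance, inferInstance, jF, r, MM, ?_, A, i1, i2, i3, i4, i5, e, he, ?_⟩
  · intro σ τ hστ
    have hτ : AlgEquiv.restrictNormalHom LL τ = rs σ := by
      ext x
      apply congrArg Subtype.val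
      apply hji
      rw [hrs, hj]
      show ι (algebraMap LL (AlgebraicClosure K11) (AlgEquiv.restrictNormal τ LL x)) = σ (ι (x : AlgebraicClosure K11))
      rw [AlgEquiv.restrictNormal_commutes, ← hστ]
      rfl
    rw [mul_inv_eq_iff_eq_mul, R.rho_apply, hτ]
    apply Units.ext
    show (MM : Matrix (Fin 2) (Fin 2) (Fbar 2)) * _ = jF.mapMatrix (r σ).1 * MM
    rw [R.repL_coe, Matrix.mul_smul, MM_conj _ (hFs σ), ← Matrix.smul_mul, hr]
    congr 1
    ext a b
    fin_cases a <;> fin_cases b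
    · simp [jF_z4, pow_add_fin zb_cube]
    · simp
    · simp
    · simp [jF_z4, sub_eq_add_neg, pow_add_fin zb_cube]
  · intro σ f
    rw [hs σ (R.permF (rs σ) 0) (R.permG (rs σ) 0) (σ.commutes ζ) ?_ ?_ f, hr]
    · funext i
      fin_cases i <;> simp [Matrix.mulVec_diagonal]
    · have h3 := resolvent_shift (zeta_cube hZ) (fun i => j (R.α i)) (R.permF (rs σ) 0)
      have e4 : ∀ i, σ (j (R.α i)) = j (R.α (i + R.permF (rs σ) 0)) := fun i => by
        rw [← hrs, R.permF_spec, hFi]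
      refine Eq.trans ?_ h3
      simp only [map_add, map_mul, map_pow, σ.commutes, e4]
    · have h3 := resolvent_shift (zeta_cube hZ) (fun i => j (R.β i)) (R.permG (rs σ) 0)
      have e4 : ∀ i, σ (j (R.β i)) = j (R.β (i + R.permG (rs σ) 0)) := fun i => by
        rw [← hrs, R.permG_spec, R.permG_apply]
      refine Eq.trans ?_ h3
      simp only [map_add, map_mul, map_pow, σ.commutes, e4]

end Pool.Agent.K4H51.SB
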