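import Pool.Agent.K4H51.SB.Hecke

/-!
# Serre's modularity conjecture over imaginary quadratic fields of class number one: the statement
-/

set_option autoImplicit false

open NumberField IsDedekindDomain Matrix
open scoped TensorProduct

namespace Pool.Agent.K4H51.SB

variable {K : Type} [Field K] [NumberField K]

/-- An algebraic closure of `𝔽_p`. -/
abbrev Fbar (p : ℕ) [Fact p.Prime] : Type := AlgebraicClosure (ZMod p)

/-- The absolute Galois group `G_k` of a field `k`. -/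
abbrev GalAbs (k : Type) [Field k] : Type := AlgebraicClosure k ≃ₐ[k] AlgebraicClosure k

/-! ### Mod `p` eigenforms -/

/-- The Hecke algebra `𝕋_{𝔽_p}(Y₀(𝔑))`: the `𝔽_p`-algebra of endomorphisms of `H¹(Y₀(𝔑), 𝔽̄_p)`
generated by the `T_π`, `(π)` prime not dividing `p𝔑`.  A mod `p` eigenform of level `𝔑` is a ring
homomorphism `heckeAlg φ 𝔑 p →+* 𝔽̄_p`. -/
noncomputable def heckeAlg (φ : K →+* ℂ) (𝔑 : Ideal (𝓞 K)) (p : ℕ) [Fact p.Prime] :
    Subalgebra (ZMod p) (Module.End (Fbar p) (H1 φ 𝔑 (Fbar p))) :=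
  Algebra.adjoin (ZMod p)
    {T | ∃ (π : 𝓞 K) (hπ : Prime π) (hN : IsCoprime (Ideal.span {π}) 𝔑),
      ¬ π ∣ (p : 𝓞 K) ∧ T = heckeT φ 𝔑 (Fbar p) hπ hN}

/-- `T_π` as an element of the Hecke algebra. -/
noncomputable def heckeElt (φ : K →+* ℂ) (𝔑 : Ideal (𝓞 K)) (p : ℕ) [Fact p.Prime] {π : 𝓞 K}
    (hπ : Prime π) (hN : IsCoprime (Ideal.span {π}) 𝔑) (hp : ¬ π ∣ (p : 𝓞 K)) :
    heckeAlg φ 𝔑 p :=
  ⟨heckeT φ 𝔑 (Fbar p) hπ hN, Algebra.subset_adjoin ⟨π, hπ, hN, hp, rfl⟩⟩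

/-! ### Mod `p` representations of `G_K` -/

section rep

variable {p : ℕ} [Fact p.Prime]

/-- `ρ : G_K → GL₂(𝔽̄_p)` is continuous (discrete topology on `GL₂(𝔽̄_p)`). -/
def IsContinuousRep (ρ : GalAbs K →* GL (Fin 2) (Fbar p)) : Prop :=
  @Continuous _ _ (inferInstance : TopologicalSpace (GalAbs K)) ⊥ ρ

/-- `ρ` is irreducible: no line of `𝔽̄_p²` is stable. -/
def IsIrreducibleRep (ρ : GalAbs K →* GL (Fin 2) (Fbar p)) : Prop :=
  ∀ v : Fin 2 → Fbar p, v ≠ 0 → ∃ σ : GalAbs K, ∀ c : Fbar p,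
    (ρ σ : Matrix (Fin 2) (Fin 2) (Fbar p)) *ᵥ v ≠ c • v

/-- The `i`-th ramification group (lower numbering) of a Galois extension `L/K` at a prime `P` of
`𝓞 L`: the `σ ∈ Gal(L/K)` with `σ x ≡ x mod P^(i+1)` for all `x ∈ 𝓞 L`. -/
noncomputable def ramGroup (L : IntermediateField K (AlgebraicClosure K)) (P : Ideal (𝓞 L)) (i : ℕ) :
    Subgroup (L ≃ₐ[K] L) :=
  (P ^ (i + 1)).inertia (L ≃ₐ[K] L)

/-- The vectors of `𝔽̄_p²` fixed by (the preimage in `G_K` of) a subgroup `H` of `Gal(L/K)`. -/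
noncomputable def fixedVectors (ρ : GalAbs K →* GL (Fin 2) (Fbar p))
    (L : IntermediateField K (AlgebraicClosure K)) [Normal K L] (H : Subgroup (L ≃ₐ[K] L)) :
    Submodule (Fbar p) (Fin 2 → Fbar p) where
  carrier := {v | ∀ σ : GalAbs K, AlgEquiv.restrictNormalHom L σ ∈ H →
    (ρ σ : Matrix (Fin 2) (Fin 2) (Fbar p)) *ᵥ v = v}
  add_mem' := by
    intro v w hv hw σ hσ
    rw [Matrix.mulVec_add, hv σ hσ, hw σ hσ]
  zero_mem' := by
    intro σ _
    rw [Matrix.mulVec_zero]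
  smul_mem' := by
    intro c v hv σ hσ
    rw [Matrix.mulVec_smul, hv σ hσ]

/-- `|G_0|` times the exponent at `P ∩ 𝓞 K` of the Artin conductor of `ρ`, i.e.
`∑_i |G_i| codim V^{G_i}`. -/
noncomputable def artinSum (ρ : GalAbs K →* GL (Fin 2) (Fbar p))
    (L : IntermediateField K (AlgebraicClosure K)) [Normal K L] (P : Ideal (𝓞 L)) : ℕ :=
  ∑ᶠ i : ℕ, Nat.card (ramGroup L P i) *
    (2 - Module.finrank (Fbar p) (fixedVectors ρ L (ramGroup L P i)))

/-- `𝔑` is the Serre conductor of `ρ`: the prime-to-`p` part of the Artin conductor.  It is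
computed in some finite Galois extension `L/K` through which `ρ` factors: the exponent of `𝔑` at a
prime `v` of `K` is `0` if `v ∣ p`, and `∑_i (|G_i| / |G_0|) codim V^{G_i}` if `v ∤ p`, where
`G_i` are the ramification groups at a prime `P` of `L` above `v`. -/
def HasSerreConductor (ρ : GalAbs K →* GL (Fin 2) (Fbar p)) (𝔑 : Ideal (𝓞 K)) : Prop :=
  𝔑 ≠ ⊥ ∧ ∃ (L : IntermediateField K (AlgebraicClosure K)) (_ : FiniteDimensional K L)
    (_ : IsGalois K L), L.fixingSubgroup ≤ ρ.ker ∧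
    ∀ v : HeightOneSpectrum (𝓞 K),
      ((p : 𝓞 K) ∈ v.asIdeal → multiplicity v.asIdeal 𝔑 = 0) ∧
      ((p : 𝓞 K) ∉ v.asIdeal → ∀ P : Ideal (𝓞 L), P.IsPrime →
        P.comap (algebraMap (𝓞 K) (𝓞 L)) = v.asIdeal →
        multiplicity v.asIdeal 𝔑 * Nat.card (ramGroup L P 0) = artinSum ρ L P)

/-- `ρ` has trivial character: the prime-to-`p` part of `det ρ` is trivial, i.e. (as `K` has class
number one) `det ρ` is unramified at all primes not above `p`. -/
def HasTrivialCharacter (ρ : GalAbs K →* GL (Fin 2) (Fbar p)) : Prop :=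
  ∃ (L : IntermediateField K (AlgebraicClosure K)) (_ : FiniteDimensional K L)
    (_ : IsGalois K L), L.fixingSubgroup ≤ ρ.ker ∧
    ∀ P : Ideal (𝓞 L), P.IsPrime → (p : 𝓞 L) ∉ P →
      ∀ σ : GalAbs K, AlgEquiv.restrictNormalHom L σ ∈ ramGroup L P 0 →
        (ρ σ : Matrix (Fin 2) (Fin 2) (Fbar p)).det = 1

/-- The product of two points `f, g : A → B` of the affine group scheme with Hopf algebra `A`. -/
noncomputable def pointMul {R A B : Type} [CommRing R] [CommRing A] [HopfAlgebra R A] [CommRing B]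
    [Algebra R B] (f g : A →ₐ[R] B) : A →ₐ[R] B :=
  (Algebra.TensorProduct.lift f g (fun _ _ => Commute.all _ _)).comp (Bialgebra.comulAlgHom R A)

/-- `ρ` is finite flat at the prime `v` (above `p`): the restriction of `ρ` to the decomposition
group `G_{K_v}` (through some embedding `ι` of algebraic closures) is, after a change of basis `M`,
defined over a finite field `k`, by `r : G_{K_v} → GL₂(k)`, and the Galois module `k²` is the group
of points `G(K̄_v)` of a finite flat commutative group scheme `G = Spec A` over the ring of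
integers of `K_v`. -/
def IsFiniteFlatAt (ρ : GalAbs K →* GL (Fin 2) (Fbar p)) (v : HeightOneSpectrum (𝓞 K)) : Prop :=
  ∃ (ι : AlgebraicClosure K →ₐ[K] AlgebraicClosure (v.adicCompletion K))
    (k : Type) (_ : Field k) (_ : Finite k) (j : k →+* Fbar p)
    (r : GalAbs (v.adicCompletion K) →* GL (Fin 2) k) (M : GL (Fin 2) (Fbar p)),
    (∀ (σ : GalAbs (v.adicCompletion K)) (τ : GalAbs K), (∀ x, ι (τ x) = σ (ι x)) →
      M * ρ τ * M⁻¹ = Matrix.GeneralLinearGroup.map j (r σ)) ∧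
    ∃ (A : Type) (_ : CommRing A) (_ : HopfAlgebra (v.adicCompletionIntegers K) A),
      Module.Finite (v.adicCompletionIntegers K) A ∧ Module.Flat (v.adicCompletionIntegers K) A ∧
      Coalgebra.IsCocomm (v.adicCompletionIntegers K) A ∧
      ∃ e : (A →ₐ[v.adicCompletionIntegers K] AlgebraicClosure (v.adicCompletion K)) ≃
          (Fin 2 → k),
        (∀ f g, e (pointMul f g) = e f + e g) ∧
        ∀ (σ : GalAbs (v.adicCompletion K)) f,
          e ((σ.toAlgHom.restrictScalars (v.adicCompletionIntegers K)).comp f) =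
            (r σ : Matrix (Fin 2) (Fin 2) k) *ᵥ (e f)

end rep

/-- `p` is unramified in `K`. -/
def IsUnramifiedIn (K : Type) [Field K] [NumberField K] (p : ℕ) : Prop :=
  ∀ P : Ideal (𝓞 K), P.IsPrime → (p : 𝓞 K) ∉ P ^ 2

/-- The trace identity: `Tr ρ(Frob_(π)) = Φ(T_π)` for every prime `(π)` not dividing `p𝔑` (and
every choice of a Frobenius element at `(π)`: `σ ∈ G_K` acts on a finite Galois extension `L/K`
through which `ρ` factors as an arithmetic Frobenius of a prime `P` of `L` above `(π)`: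
`σ x ≡ x ^ N(π) mod P` for all `x ∈ 𝓞 L`). -/
def TraceIdentity {p : ℕ} [Fact p.Prime] (φ : K →+* ℂ) (𝔑 : Ideal (𝓞 K))
    (ρ : GalAbs K →* GL (Fin 2) (Fbar p)) (Φ : heckeAlg φ 𝔑 p →+* Fbar p) : Prop :=
  ∀ (π : 𝓞 K) (hπ : Prime π) (hN : IsCoprime (Ideal.span {π}) 𝔑) (hp : ¬ π ∣ (p : 𝓞 K)),
    ∀ (L : IntermediateField K (AlgebraicClosure K)) (_ : FiniteDimensional K L)
      (_ : IsGalois K L), L.fixingSubgroup ≤ ρ.ker →
      ∀ P : Ideal (𝓞 L), P.IsPrime → P.comap (algebraMap (𝓞 K) (𝓞 L)) = Ideal.span {π} →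
        ∀ σ : GalAbs K, (∀ x : 𝓞 L, AlgEquiv.restrictNormalHom L σ • x -
            x ^ Nat.card (𝓞 K ⧸ Ideal.span {π}) ∈ P) →
          (ρ σ : Matrix (Fin 2) (Fin 2) (Fbar p)).trace = Φ (heckeElt φ 𝔑 p hπ hN hp)

/-- Serre's modularity conjecture over imaginary quadratic fields of class number one, with trivial
character and for representations that are finite flat at the primes above `p`. -/
def SerreModularity : Prop :=
  ∀ (K : Type) [Field K] [NumberField K], Module.finrank ℚ K = 2 → IsTotallyComplex K →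
    classNumber K = 1 → ∀ (φ : K →+* ℂ) (p : ℕ) [Fact p.Prime], IsUnramifiedIn K p →
    ∀ (𝔑 : Ideal (𝓞 K)), IsCoprime (Ideal.span {(p : 𝓞 K)}) 𝔑 →
    ∀ ρ : GalAbs K →* GL (Fin 2) (Fbar p), IsContinuousRep ρ → IsIrreducibleRep ρ →
      HasSerreConductor ρ 𝔑 → HasTrivialCharacter ρ →
      (∀ v : HeightOneSpectrum (𝓞 K), (p : 𝓞 K) ∈ v.asIdeal → IsFiniteFlatAt ρ v) →
      ∃ Φ : heckeAlg φ 𝔑 p →+* Fbar p, TraceIdentity φ 𝔑 ρ Φ

end Pool.Agent.K4H51.SB
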