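import Pool.Agent.K4H51.SB.Eis
import Pool.Agent.K4H51.SB.Conj

/-!
# All mod 2 Hecke eigenvalues of level `(2 + 5ω)` lie in `𝔽₂`
-/

set_option autoImplicit false
set_option linter.unusedSimpArgs false
set_option linter.unusedSectionVars false

open NumberField Matrix

namespace Pool.Agent.K4H51.SB

instance : CharP (Fbar 2) 2 := inferInstance

theorem natCast_two (F : Type) [Field F] [CharP F 2] (n : ℕ) : (n : F) = 0 ∨ (n : F) = 1 := by
  rcases Nat.even_or_odd' n with ⟨k, rfl | rfl⟩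
  · left
    push_cast
    rw [CharTwo.two_eq_zero, zero_mul]
  · right
    push_cast
    rw [CharTwo.two_eq_zero, zero_mul, zero_add]

section

variable {F : Type} [Field F] [CharP F 2] (φ : K11 →+* ℂ)

/-- Frobenius on coefficients. -/
noncomputable def frobH (f : H1 φ lev F) : H1 φ lev F :=
  ⟨fun γ => f.1 γ ^ 2, by
    constructor
    · intro a b
      show f.1 (a * b) ^ 2 = f.1 a ^ 2 + f.1 b ^ 2
      rw [f.2.1, CharTwo.add_sq]
    · intro γ hγ
      show f.1 γ ^ 2 = 0
      rw [f.2.2 γ hγ]; simp⟩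

theorem heckeT_frob {π : 𝓞 K11} (hπ : Prime π) (hN : IsCoprime (Ideal.span {π}) lev)
    (f : H1 φ lev F) :
    heckeT φ lev F hπ hN (frobH φ f) = frobH φ (heckeT φ lev F hπ hN f) := by
  have := finite_idx hπ
  have := Fintype.ofFinite (Option (𝓞 K11 ⧸ Ideal.span {π}))
  apply Subtype.ext
  funext γ
  show (∑ᶠ j, (frobH φ f).1 (heckeStep hπ hN γ j).1) =
    (∑ᶠ j, f.1 (heckeStep hπ hN γ j).1) ^ 2
  rw [finsum_eq_sum_of_fintype, finsum_eq_sum_of_fintype, CharTwo.sum_sq]
  rfl

/-- The Eisenstein class as an element of `H¹`. -/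
noncomputable def E0 (F : Type) [Field F] [CharP F 2] : H1 φ lev F := ⟨eis F, eis_mem φ F⟩

theorem H1_ext_two {f g : H1 φ lev F} (h1 : f.1 (gamE 106) = g.1 (gamE 106))
    (h2 : f.1 (gamE 298) = g.1 (gamE 298)) : f = g := by
  have h : (f - g).1 = 0 := two_detect (f - g).2 (by
    show f.1 _ - g.1 _ = 0
    rw [h1, sub_self]) (by
    show f.1 _ - g.1 _ = 0
    rw [h2, sub_self])
  have h3 : f - g = 0 := Subtype.ext h
  exact sub_eq_zero.1 h3

theorem span_two {f0 : H1 φ lev F} (h0 : ∀ y : F, f0 ≠ y • E0 φ F) (f : H1 φ lev F) :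
    ∃ x y : F, f = x • f0 + y • E0 φ F := by
  set a := f0.1 (gamE 106) with ha
  set b := f0.1 (gamE 298) with hb
  set c := (E0 φ F).1 (gamE 106) with hc
  set d := (E0 φ F).1 (gamE 298) with hd
  have hD : a * d - b * c ≠ 0 := by
    intro hD
    by_cases hc0 : c = 0
    · by_cases hd0 : d = 0
      · apply eis_ne F
        have : E0 φ F = 0 := H1_ext_two φ (by rw [← hc, hc0]; rfl) (by rw [← hd, hd0]; rfl)
        exact congrArg Subtype.val this
      · apply h0 (b / d)
        apply H1_ext_two φ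
        · show a = (b / d) * c
          field_simp
          linear_combination hD
        · show b = (b / d) * d
          field_simp
    · apply h0 (a / c)
      apply H1_ext_two φ
      · show a = (a / c) * c
        field_simp
      · show b = (a / c) * d
        field_simp
        linear_combination -hD
  refine ⟨(f.1 (gamE 106) * d - f.1 (gamE 298) * c) / (a * d - b * c),
    (a * f.1 (gamE 298) - b * f.1 (gamE 106)) / (a * d - b * c), ?_⟩
  apply H1_ext_two φ
  · show f.1 (gamE 106) = _ * a + _ * c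
    rw [div_mul_eq_mul_div, div_mul_eq_mul_div, ← add_div, eq_div_iff hD]
    ring
  · show f.1 (gamE 298) = _ * b + _ * d
    rw [div_mul_eq_mul_div, div_mul_eq_mul_div, ← add_div, eq_div_iff hD]
    ring

/-- The quadratic equation of `T_π`. -/
theorem heckeT_quad [IsAlgClosed F] {π : 𝓞 K11} (hπ : Prime π)
    (hN : IsCoprime (Ideal.span {π}) lev) :
    ∃ n m : ℕ, ∀ f : H1 φ lev F, heckeT φ lev F hπ hN (heckeT φ lev F hπ hN f) +
      ((n : F) + m) • heckeT φ lev F hπ hN f + ((n : F) * m) • f = 0 := by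
  set T := heckeT φ lev F hπ hN with hT
  obtain ⟨n, hn⟩ := heckeT_eis φ F hπ hN
  change T (E0 φ F) = (n : F) • E0 φ F at hn
  have h2 : ∀ x : F, x + x = 0 := fun x => CharTwo.add_self_eq_zero x
  by_cases hcase : ∀ f : H1 φ lev F, ∃ y : F, f = y • E0 φ F
  · refine ⟨n, 0, fun f => ?_⟩
    obtain ⟨y, rfl⟩ := hcase f
    simp only [map_smul, hn, smul_smul, Nat.cast_zero, add_zero, mul_zero, zero_smul, zero_mul]
    rw [← add_smul]
    have : y * (n : F) * n + n * (y * n) = 0 := by
      have := h2 (y * ((n : F) * n)); linear_combination this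
    rw [this, zero_smul]
  · push Not at hcase
    obtain ⟨f0, hf0⟩ := hcase
    obtain ⟨c, e, hce⟩ := span_two φ hf0 (T f0)
    obtain ⟨x, y, hxy⟩ := span_two φ hf0 (frobH φ f0)
    have hEsq : ∀ γ, (E0 φ F).1 γ ^ 2 = (E0 φ F).1 γ := by
      intro γ
      rcases eis_cases F γ with h | h
      · show eis F γ ^ 2 = eis F γ
        rw [h]; simp
      · show eis F γ ^ 2 = eis F γ
        rw [h]; simp
    have hx : x ≠ 0 := by
      intro hx
      rw [hx, zero_smul, zero_add] at hxy
      obtain ⟨z, hz⟩ := IsAlgClosed.exists_pow_nat_eq y (n := 2) (by norm_num)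
      apply hf0 z
      apply Subtype.ext
      funext γ
      have h3 := congrFun (congrArg Subtype.val hxy) γ
      change f0.1 γ ^ 2 = y * (E0 φ F).1 γ at h3
      show f0.1 γ = z * (E0 φ F).1 γ
      have h4 : (f0.1 γ + z * (E0 φ F).1 γ) ^ 2 = 0 := by
        rw [CharTwo.add_sq, mul_pow, hEsq, h3, hz]; exact h2 _
      have h5 := pow_eq_zero_iff (two_ne_zero) |>.1 h4
      exact CharTwo.add_eq_zero.1 h5
    -- compare `T (f0 ^ 2)` and `(T f0) ^ 2`
    have h6 : x • (c • f0 + e • E0 φ F) + (y * n) • E0 φ F =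
        (c ^ 2) • (x • f0 + y • E0 φ F) + (e ^ 2) • E0 φ F := by
      have h7 : T (frobH φ f0) = x • (c • f0 + e • E0 φ F) + (y * n) • E0 φ F := by
        rw [hxy, map_add, map_smul, map_smul, hce, hn, smul_smul y]
      have h8 : T (frobH φ f0) = (c ^ 2) • (x • f0 + y • E0 φ F) + (e ^ 2) • E0 φ F := by
        rw [hT, heckeT_frob, ← hT, ← hxy, hce]
        apply Subtype.ext
        funext γ
        show (c * f0.1 γ + e * (E0 φ F).1 γ) ^ 2 = c ^ 2 * f0.1 γ ^ 2 + e ^ 2 * (E0 φ F).1 γ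
        rw [CharTwo.add_sq, mul_pow, mul_pow, hEsq]
      rw [← h7, h8]
    have hc : c = 0 ∨ c = 1 := by
      by_contra hcc
      push Not at hcc
      have h9 : x * c - c ^ 2 * x ≠ 0 := by
        have : x * c - c ^ 2 * x = x * c * (1 - c) := by ring
        rw [this]
        exact mul_ne_zero (mul_ne_zero hx hcc.1) (sub_ne_zero.2 (Ne.symm hcc.2))
      apply hf0 ((c ^ 2 * y + e ^ 2 - x * e - y * n) / (x * c - c ^ 2 * x))
      apply Subtype.ext
      funext γ
      have h10 := congrFun (congrArg Subtype.val h6) γ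
      change x * (c * f0.1 γ + e * (E0 φ F).1 γ) + (y * n) * (E0 φ F).1 γ =
        (c ^ 2) * (x * f0.1 γ + y * (E0 φ F).1 γ) + (e ^ 2) * (E0 φ F).1 γ at h10
      show f0.1 γ = _ * (E0 φ F).1 γ
      rw [div_mul_eq_mul_div, eq_div_iff h9]
      linear_combination h10
    obtain ⟨m, hm⟩ : ∃ m : ℕ, c = m := by
      rcases hc with h | h
      · exact ⟨0, by rw [h]; simp⟩
      · exact ⟨1, by rw [h]; simp⟩
    refine ⟨n, m, fun f => ?_⟩
    rw [← hm]
    obtain ⟨u, v, rfl⟩ := span_two φ hf0 f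
    simp only [map_add, map_smul, hce, hn]
    apply Subtype.ext
    funext γ
    show u * (c * (c * f0.1 γ + e * (E0 φ F).1 γ) + e * (n * (E0 φ F).1 γ)) +
      v * (n * (n * (E0 φ F).1 γ)) +
      (n + c) * (u * (c * f0.1 γ + e * (E0 φ F).1 γ) + v * (n * (E0 φ F).1 γ)) +
      (n * c) * (u * f0.1 γ + v * (E0 φ F).1 γ) = 0
    have k1 := h2 (u * c * c * f0.1 γ)
    have k2 := h2 (u * c * e * (E0 φ F).1 γ)
    have k3 := h2 (u * e * n * (E0 φ F).1 γ)
    have k4 := h2 (v * n * n * (E0 φ F).1 γ)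
    have k5 := h2 (n * c * u * f0.1 γ)
    have k6 := h2 (n * c * v * (E0 φ F).1 γ)
    linear_combination k1 + k2 + k3 + k4 + k5 + k6

end

/-- All Hecke eigenvalues of mod 2 eigenforms of level `(2 + 5ω)` lie in `𝔽₂`. -/
theorem eigen_in_F2 (φ : K11 →+* ℂ) (Φ : heckeAlg φ lev 2 →+* Fbar 2) {π : 𝓞 K11}
    (hπ : Prime π) (hN : IsCoprime (Ideal.span {π}) lev) (hp : ¬ π ∣ ((2 : ℕ) : 𝓞 K11)) :
    Φ (heckeElt φ lev 2 hπ hN hp) = 0 ∨ Φ (heckeElt φ lev 2 hπ hN hp) = 1 := by
  obtain ⟨n, m, h⟩ := heckeT_quad (F := Fbar 2) φ hπ hN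
  set t := heckeElt φ lev 2 hπ hN hp with ht
  have h0 : heckeT φ lev (Fbar 2) hπ hN * heckeT φ lev (Fbar 2) hπ hN +
      ((n : Module.End (Fbar 2) (H1 φ lev (Fbar 2))) + m) * heckeT φ lev (Fbar 2) hπ hN +
      (n : Module.End (Fbar 2) (H1 φ lev (Fbar 2))) * m = 0 := by
    apply LinearMap.ext
    intro f
    have := h f
    rw [add_smul, mul_smul, Nat.cast_smul_eq_nsmul, Nat.cast_smul_eq_nsmul,
      Nat.cast_smul_eq_nsmul, Nat.cast_smul_eq_nsmul] at this
    have hnm : m • n • f = n • m • f := smul_comm _ _ _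
    simpa [Module.End.natCast_apply, add_mul, hnm] using this
  have h1 : t * t + ((n : heckeAlg φ lev 2) + m) * t + (n : heckeAlg φ lev 2) * m = 0 := by
    have hinj : Function.Injective (heckeAlg φ lev 2).val := Subtype.val_injective
    apply hinj
    simp only [map_add, map_mul, map_natCast, map_zero]
    exact h0
  have h2 := congrArg Φ h1
  simp only [map_add, map_mul, map_natCast, map_zero] at h2
  have h3 : (Φ t + n) * (Φ t + m) = 0 := by linear_combination h2
  rcases mul_eq_zero.1 h3 with h4 | h4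
  · have h5 : Φ t = n := CharTwo.add_eq_zero.1 h4
    rw [h5]; exact natCast_two _ n
  · have h5 : Φ t = m := CharTwo.add_eq_zero.1 h4
    rw [h5]; exact natCast_two _ m

end Pool.Agent.K4H51.SB
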