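import Pool.Agent.K4H51.SB.Cond
import Pool.Agent.K4H51.SB.Eigen

/-!
# Frobenius at `ω`, the trace identity fails, irreducibility
-/

set_option autoImplicit false
set_option linter.unusedSectionVars false
set_option linter.unusedSimpArgs false

open NumberField IsDedekindDomain Matrix

namespace Pool.Agent.K4H51.SB

theorem exists_frob : ∃ (P : Ideal (𝓞 LL)) (σ : GalAbs K11), P.IsPrime ∧
    P.comap (algebraMap (𝓞 K11) (𝓞 LL)) = Ideal.span {w} ∧
    ∀ x : 𝓞 LL, AlgEquiv.restrictNormalHom LL σ • x - x ^ 3 ∈ P := by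
  have h1 := span_w_prime
  obtain ⟨⟨P, hP, hPw⟩⟩ := (inferInstance : Nonempty (Ideal.primesOver (Ideal.span {w}) (𝓞 LL)))
  have hP0 : P ≠ ⊥ := by
    rintro rfl
    have h2 := hPw.over
    have h3 : w ∈ (Ideal.span {w} : Ideal (𝓞 K11)) := Ideal.mem_span_singleton_self w
    rw [h2, Ideal.under_def, Ideal.mem_comap, Ideal.mem_bot] at h3
    exact w_ne (FaithfulSMul.algebraMap_injective (𝓞 K11) (𝓞 LL) (by rw [h3, map_zero]))
  have hf : Finite (𝓞 LL ⧸ P) := Ideal.finiteQuotientOfFreeOfNeBot _ hP0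
  obtain ⟨τ, hτ⟩ := IsArithFrobAt.exists_of_isInvariant (𝓞 K11) (LL ≃ₐ[K11] LL) P
  obtain ⟨σ, hσ⟩ := exists_res τ
  have hu : P.under (𝓞 K11) = Ideal.span {w} := hPw.over.symm
  refine ⟨P, σ, hP, hu, ?_⟩
  intro x
  have h4 := hτ x
  rw [hu, card_w] at h4
  rw [hσ]
  exact h4

theorem WW_mem {P : Ideal (𝓞 LL)} (h : P.comap (algebraMap (𝓞 K11) (𝓞 LL)) = Ideal.span {w}) :
    WW LL ∈ P := by
  have h3 : w ∈ (Ideal.span {w} : Ideal (𝓞 K11)) := Ideal.mem_span_singleton_self w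
  rw [← h] at h3
  exact h3

theorem no_trace_identity (R : Lab LL) (φ : K11 →+* ℂ) (Φ : heckeAlg φ lev 2 →+* Fbar 2) :
    ¬ TraceIdentity φ lev R.rho Φ := by
  intro h
  obtain ⟨P, σ, hP, hPw, hσ⟩ := exists_frob
  have h1 := h w prime_w coprime_w w_not_dvd LL instFD instGalois (fix_le R) P hP hPw σ (by
    intro x
    rw [card_w]
    exact hσ x)
  have hW := WW_mem hPw
  rw [R.rho_apply, R.repL_trace _ (R.permF_frob hP hW hσ)] at h1
  have h2 := R.permG_frob hP hW hσ 0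
  have h3 := eigen_in_F2 φ Φ prime_w coprime_w w_not_dvd
  rw [← h1] at h3
  generalize R.permG (AlgEquiv.restrictNormalHom LL σ) 0 = k at h2 h3
  fin_cases k
  · exact h2 rfl
  · rcases h3 with h3 | h3
    · exact zb_ne_zero (by simpa using h3)
    · exact zb_ne_one (by simpa using h3)
  · rcases h3 with h3 | h3
    · exact zb_sq_ne_zero (by simpa using h3)
    · exact zb_sq_ne_one (by simpa using h3)

theorem not_sq_1424 (q : ℚ) : q * q ≠ 1424 := by
  intro h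
  have h1 : IsSquare ((1424 : ℕ) : ℚ) := ⟨q, by push_cast; exact h.symm⟩
  rw [Rat.isSquare_natCast_iff] at h1
  obtain ⟨k, hk⟩ := h1
  have h2 : k < 38 := by nlinarith
  have h3 : 37 < k := by nlinarith
  omega

theorem not_sq_K (y : K11) : y ^ 2 ≠ -(4 * (2 + 5 * wK)) := by
  intro h
  obtain ⟨a, b, rfl⟩ := repr_K y
  have h1 : ((a ^ 2 - 3 * b ^ 2 + 8 : ℚ) : K11) + ((2 * a * b + b ^ 2 + 20 : ℚ) : K11) * wK = 0 := by
    push_cast
    linear_combination h - (b : K11) ^ 2 * wK_sq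
  obtain ⟨h2, h3⟩ := unique_K h1
  apply not_sq_1424 (a ^ 2 + a * b + 3 * b ^ 2)
  have e1 : a ^ 2 - 3 * b ^ 2 = -8 := by linarith
  have e2 : 2 * a * b + b ^ 2 = -20 := by linarith
  have e3 : (a ^ 2 + a * b + 3 * b ^ 2) * (a ^ 2 + a * b + 3 * b ^ 2) =
      (a ^ 2 - 3 * b ^ 2) ^ 2 + (a ^ 2 - 3 * b ^ 2) * (2 * a * b + b ^ 2) +
        3 * (2 * a * b + b ^ 2) ^ 2 := by ring
  rw [e3, e1, e2]; norm_num

theorem exists_odd (R : Lab LL) : ∃ τ : LL ≃ₐ[K11] LL, Equiv.Perm.sign (R.permF τ) = -1 := by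
  by_contra hc
  push Not at hc
  have h1 : ∀ τ : LL ≃ₐ[K11] LL, τ (dd R.α) = dd R.α := by
    intro τ
    rcases Int.units_eq_one_or (Equiv.Perm.sign (R.permF τ)) with h | h
    · rw [R.map_dd_α, h]; simp
    · exact absurd h (hc τ)
  have h2 : dd R.α ∈ (⊥ : IntermediateField K11 LL) := (IsGalois.mem_bot_iff_fixed _).2 h1
  obtain ⟨y, hy⟩ := IntermediateField.mem_bot.1 h2
  apply not_sq_K y
  apply (algebraMap K11 LL).injective
  rw [map_pow, hy, R.dd_α_sq]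

theorem irreducible (R : Lab LL) : IsIrreducibleRep R.rho := by
  intro v hv
  by_contra hc
  push Not at hc
  obtain ⟨P, σ, hP, hPw, hσ⟩ := exists_frob
  obtain ⟨τ, hτ⟩ := exists_odd R
  obtain ⟨σ', hσ'⟩ := exists_res τ
  have key : ∀ s : GalAbs K11, ∃ c : Fbar 2,
      Mb (R.permF (AlgEquiv.restrictNormalHom LL s)) *ᵥ v = c • v := by
    intro s
    obtain ⟨c, hcs⟩ := hc s
    rw [R.rho_apply, R.repL_coe, smul_mulVec] at hcs
    refine ⟨(zb ^ (R.permG (AlgEquiv.restrictNormalHom LL s) 0).val)⁻¹ * c, ?_⟩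
    rw [mul_smul, ← hcs, smul_smul, inv_mul_cancel₀ (pow_ne_zero _ zb_ne_zero), one_smul]
  obtain ⟨c, hc1⟩ := key σ'
  obtain ⟨d, hd1⟩ := key σ
  rw [hσ'] at hc1
  exact no_eigen _ _ hτ (R.permF_frob hP (WW_mem hPw) hσ) hv hc1 hd1

end Pool.Agent.K4H51.SB
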