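import Pool.Agent.K4H51.SB.Stmt
import Pool.Agent.K4H51.SB.Frob
import Pool.Agent.K4H51.SB.FFb

/-!
# The counterexample satisfies the final form of the statement
-/

set_option autoImplicit false
set_option linter.unusedSectionVars false

open NumberField IsDedekindDomain Matrix

namespace Pool.Agent.K4H51.SB

theorem restr_eq {σ : GalAbs K11} {τ : LL ≃ₐ[K11] LL} (h : Restricts LL.val σ τ) :
    AlgEquiv.restrictNormalHom LL σ = τ := by
  ext x
  have h1 : algebraMap LL (AlgebraicClosure K11) (AlgEquiv.restrictNormal σ LL x) =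
    σ (algebraMap LL (AlgebraicClosure K11) x) := AlgEquiv.restrictNormal_commutes σ LL x
  exact h1.trans (h x).symm

theorem restr_self (σ : GalAbs K11) :
    Restricts LL.val σ (AlgEquiv.restrictNormalHom LL σ) :=
  fun x => AlgEquiv.restrictNormal_commutes σ LL x

theorem mem_ramSet {P : Ideal (𝓞 LL)} {i : ℕ} {τ : LL ≃ₐ[K11] LL} :
    τ ∈ ramSet K11 P i ↔ τ ∈ ramGroup LL P i := by
  rw [mem_ramGroup]
  constructor
  · intro h x
    exact h x (τ • x) rfl
  · intro h x y hy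
    have : y = τ • x := RingOfIntegers.ext hy
    rw [this]; exact h x

theorem ramSet_eq (P : Ideal (𝓞 LL)) (i : ℕ) :
    ramSet K11 P i = (ramGroup LL P i : Set (LL ≃ₐ[K11] LL)) := by
  ext τ; exact mem_ramSet

theorem fixedDim_eq (R : Lab LL) (P : Ideal (𝓞 LL)) (i : ℕ) :
    fixedDim R.rho LL.val (ramSet K11 P i) =
      Module.finrank (Fbar 2) (fixedVectors R.rho LL (ramGroup LL P i)) := by
  have h : Submodule.span (Fbar 2) {v : Fin 2 → Fbar 2 | ∀ σ τ, Restricts LL.val σ τ →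
      τ ∈ ramSet K11 P i → (R.rho σ).1 *ᵥ v = v} =
      fixedVectors R.rho LL (ramGroup LL P i) := by
    have h1 : {v : Fin 2 → Fbar 2 | ∀ σ τ, Restricts LL.val σ τ →
        τ ∈ ramSet K11 P i → (R.rho σ).1 *ᵥ v = v} =
        (fixedVectors R.rho LL (ramGroup LL P i) : Set (Fin 2 → Fbar 2)) := by
      ext v
      constructor
      · intro hv σ hσ
        exact hv σ _ (restr_self σ) (mem_ramSet.2 hσ)
      · intro hv σ τ hστ hτ
        exact hv σ (by rw [restr_eq hστ]; exact mem_ramSet.1 hτ)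
    rw [h1, Submodule.span_eq]
  unfold fixedDim
  rw [h]

theorem artinTotal_eq (R : Lab LL) (P : Ideal (𝓞 LL)) :
    artinTotal R.rho LL.val P = artinSum R.rho LL P := by
  unfold artinTotal artinSum
  congr 1
  funext i
  rw [fixedDim_eq, ramSet_eq]
  rfl

theorem factors (R : Lab LL) : FactorsThrough R.rho LL.val := by
  intro σ hσ
  rw [R.rho_apply, restr_eq hσ, map_one]

theorem hasLevel (R : Lab LL) : HasLevel 2 R.rho lev := by
  refine ⟨lev_ne_bot, LL, inferInstance, inferInstance, LL.val, instFD, instGalois, factors R,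
    ?_, ?_⟩
  · intro v
    have key := serre_conductor_LL R v
    refine ⟨key.1, fun h P hP hPv => ?_⟩
    rw [artinTotal_eq, ramSet_eq]
    exact key.2 h P hP hPv
  · intro P hP h2 σ τ hστ hτ
    have h2' : (2 : 𝓞 LL) ∉ P := by exact_mod_cast h2
    have hτ' := mem_ramSet.1 hτ
    show (R.rho σ : Matrix (Fin 2) (Fin 2) (Fbar 2)).det = 1
    rw [R.rho_apply, restr_eq hστ]
    apply R.repL_det
    rw [R.permG_inertia hP h2' (mem_P_of_ram hτ')]
    rfl

theorem isFlatAt {v : HeightOneSpectrum (𝓞 K11)} {ρ : GalAbs K11 →* GL (Fin 2) (Fbar 2)}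
    (h : IsFiniteFlatAt ρ v) : IsFlatAt ρ v := by
  obtain ⟨ι, κ, i1, i2, j, r, M, h1, A, i3, i4, i5, i6, i7, e, he, hs⟩ := h
  refine ⟨ι.toRingHom, ?_, κ, i1, j, r, M, i2, h1, A, i3, i4, i5, i6, i7, e, he, hs⟩
  intro x
  have h2 := ι.commutes x
  rw [IsScalarTower.algebraMap_apply K11 (v.adicCompletion K11)
    (AlgebraicClosure (v.adicCompletion K11))] at h2
  exact h2

theorem eigenSystem_in_F2 (φ : K11 →+* ℂ) {a : GoodPrime lev 2 → Fbar 2}
    (h : IsEigenSystem (H1Y φ lev (Fbar 2)) (fun π => heckeFun π.2.1 π.2.2.1) a)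
    (π : GoodPrime lev 2) : a π = 0 ∨ a π = 1 := by
  obtain ⟨Φ, hΦ⟩ := h
  let t : Module.End (Fbar 2) (H1Y φ lev (Fbar 2)) :=
    { toFun := fun f => ⟨heckeFun π.2.1 π.2.2.1 f.1, heckeFun_mem π.2.1 π.2.2.1 f.2⟩
      map_add' := fun f g => by
        have h := congrArg Subtype.val ((heckeT φ lev (Fbar 2) π.2.1 π.2.2.1).map_add
          ⟨f.1, mem_H1Y.1 f.2⟩ ⟨g.1, mem_H1Y.1 g.2⟩)
        exact Subtype.ext h
      map_smul' := fun c f => by
        have h := congrArg Subtype.val ((heckeT φ lev (Fbar 2) π.2.1 π.2.2.1).map_smul c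
          ⟨f.1, mem_H1Y.1 f.2⟩)
        exact Subtype.ext h }
  have ht : ∀ v : H1Y φ lev (Fbar 2), (t v : Gamma0 lev → Fbar 2) =
    heckeFun π.2.1 π.2.2.1 v.1 := fun v => rfl
  let t' : Subring.closure {t : Module.End (Fbar 2) (H1Y φ lev (Fbar 2)) | ∃ i : GoodPrime lev 2,
    ∀ v : H1Y φ lev (Fbar 2), (t v : Gamma0 lev → Fbar 2) = heckeFun i.2.1 i.2.2.1 v.1} :=
    ⟨t, Subring.subset_closure ⟨π, ht⟩⟩
  have hat : Φ t' = a π := hΦ t' π ht
  obtain ⟨n, m, hq⟩ := heckeT_quad (F := Fbar 2) φ π.2.1 π.2.2.1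
  have h0 : t * t + ((n : Module.End (Fbar 2) (H1Y φ lev (Fbar 2))) + m) * t +
      (n : Module.End (Fbar 2) (H1Y φ lev (Fbar 2))) * m = 0 := by
    apply LinearMap.ext
    intro f
    have h1 := hq ⟨f.1, mem_H1Y.1 f.2⟩
    rw [add_smul, mul_smul, Nat.cast_smul_eq_nsmul, Nat.cast_smul_eq_nsmul,
      Nat.cast_smul_eq_nsmul, Nat.cast_smul_eq_nsmul] at h1
    have h2 := congrArg Subtype.val h1
    apply Subtype.ext
    have hnm : m • n • f = n • m • f := smul_comm _ _ _
    have h3 : (t * t + ((n : Module.End (Fbar 2) (H1Y φ lev (Fbar 2))) + m) * t +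
      (n : Module.End (Fbar 2) (H1Y φ lev (Fbar 2))) * m) f =
        t (t f) + (n • t f + m • t f) + n • m • f := by
      simp [Module.End.natCast_apply, add_mul, hnm]
    rw [h3]
    exact h2
  have h1 : t' * t' + ((n : Subring.closure {t : Module.End (Fbar 2) (H1Y φ lev (Fbar 2)) |
      ∃ i : GoodPrime lev 2, ∀ v : H1Y φ lev (Fbar 2), (t v : Gamma0 lev → Fbar 2) =
        heckeFun i.2.1 i.2.2.1 v.1}) + m) * t' + n * m = 0 := by
    apply Subtype.ext
    push_cast
    exact h0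
  have h2 := congrArg Φ h1
  simp only [map_add, map_mul, map_natCast, map_zero] at h2
  rw [hat] at h2
  have h3 : (a π + n) * (a π + m) = 0 := by linear_combination h2
  rcases mul_eq_zero.1 h3 with h4 | h4
  · have h5 : a π = n := CharTwo.add_eq_zero.1 h4
    rw [h5]; exact natCast_two _ n
  · have h5 : a π = m := CharTwo.add_eq_zero.1 h4
    rw [h5]; exact natCast_two _ m

theorem not_modular (R : Lab LL) (φ : K11 →+* ℂ) : ¬ IsModular φ 2 R.rho lev := by
  rintro ⟨a, ha, htr⟩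
  obtain ⟨P, σ, hP, hPw, hσ⟩ := exists_frob
  have h1 := htr ⟨w, prime_w, coprime_w, w_not_dvd⟩ LL LL.val (factors R) σ
    ⟨P, AlgEquiv.restrictNormalHom LL σ, hP, hPw, restr_self σ, fun x y hy => by
      have : y = AlgEquiv.restrictNormalHom LL σ • x := RingOfIntegers.ext hy
      rw [this, card_w]
      exact hσ x⟩
  have hW := WW_mem hPw
  have h1' : (R.rho σ : Matrix (Fin 2) (Fin 2) (Fbar 2)).trace =
    a ⟨w, prime_w, coprime_w, w_not_dvd⟩ := h1
  rw [R.rho_apply, R.repL_trace _ (R.permF_frob hP hW hσ)] at h1'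
  have h2 := R.permG_frob hP hW hσ 0
  have h3 := eigenSystem_in_F2 φ ha ⟨w, prime_w, coprime_w, w_not_dvd⟩
  rw [← h1'] at h3
  generalize R.permG (AlgEquiv.restrictNormalHom LL σ) 0 = k at h2 h3
  fin_cases k
  · exact h2 rfl
  · rcases h3 with h3 | h3
    · exact zb_ne_zero (by simpa using h3)
    · exact zb_ne_one (by simpa using h3)
  · rcases h3 with h3 | h3
    · exact zb_sq_ne_zero (by simpa using h3)
    · exact zb_sq_ne_one (by simpa using h3)

end Pool.Agent.K4H51.SB
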