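import Pool.Agent.K4H51.SB.Level

/-!
# `H¹(Y₀(𝔑), F)` has dimension at most two (`char F = 2`)
-/

set_option autoImplicit false
set_option linter.unusedSimpArgs false
set_option linter.unusedSectionVars false

open NumberField Matrix
open scoped ComplexOrder

namespace Pool.Agent.K4H51.SB

/-! ### Generators and words -/

/-- `(1 x; 0 1)`. -/
noncomputable def Tm (x : 𝓞 K11) : GL (Fin 2) (𝓞 K11) :=
  ⟨!![1, x; 0, 1], !![1, -x; 0, 1],
    by apply Matrix.ext; intro i j; fin_cases i <;> fin_cases j <;>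
        simp [Matrix.mul_apply, Fin.sum_univ_two],
    by apply Matrix.ext; intro i j; fin_cases i <;> fin_cases j <;>
        simp [Matrix.mul_apply, Fin.sum_univ_two]⟩

/-- `(0 -1; 1 0)`. -/
noncomputable def Sm : GL (Fin 2) (𝓞 K11) :=
  ⟨!![0, -1; 1, 0], !![0, 1; -1, 0],
    by apply Matrix.ext; intro i j; fin_cases i <;> fin_cases j <;>
        simp [Matrix.mul_apply, Fin.sum_univ_two],
    by apply Matrix.ext; intro i j; fin_cases i <;> fin_cases j <;>
        simp [Matrix.mul_apply, Fin.sum_univ_two]⟩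

/-- `(-1 0; 0 1)`. -/
noncomputable def Dm : GL (Fin 2) (𝓞 K11) :=
  ⟨!![-1, 0; 0, 1], !![-1, 0; 0, 1],
    by apply Matrix.ext; intro i j; fin_cases i <;> fin_cases j <;>
        simp [Matrix.mul_apply, Fin.sum_univ_two],
    by apply Matrix.ext; intro i j; fin_cases i <;> fin_cases j <;>
        simp [Matrix.mul_apply, Fin.sum_univ_two]⟩

/-- The letters. -/
noncomputable def genM (l : ℕ) : GL (Fin 2) (𝓞 K11) :=
  if l = 0 then Tm 1 else if l = 1 then Tm w else if l = 2 then Sm else if l = 3 then Dm else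
  if l = 4 then (Tm 1)⁻¹ else (Tm w)⁻¹

/-- The action of the letters on `{0, …, 89}`, `89 = ∞`. -/
def actL (x l : ℕ) : ℕ :=
  if l = 0 then (if x = 89 then 89 else (x + 1) % 89) else
  if l = 1 then (if x = 89 then 89 else (x + 53) % 89) else
  if l = 2 then (if x = 89 then 0 else if x = 0 then 89 else (89 - x ^ 87 % 89) % 89) else
  if l = 3 then (if x = 89 then 89 else (89 - x) % 89) else
  if l = 4 then (if x = 89 then 89 else (x + 88) % 89) else
  (if x = 89 then 89 else (x + 36) % 89)

theorem actL_lt {x l : ℕ} (hl : l < 6) (hx : x < 90) : actL x l < 90 := by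
  have h : ∀ l < 6, ∀ x < 90, actL x l < 90 := by decide +kernel
  exact h l hl x hx

theorem actL_S {x : ℕ} (hx : x < 89) (h0 : x ≠ 0) : (x * actL x 2 + 1) % 89 = 0 ∧ actL x 2 < 89 := by
  have h : ∀ x < 89, x ≠ 0 → (x * actL x 2 + 1) % 89 = 0 ∧ actL x 2 < 89 := by decide +kernel
  exact h x hx h0

theorem actL_inv1 {x : ℕ} (hx : x < 90) : actL (actL x 4) 0 = x := by
  have h : ∀ x < 90, actL (actL x 4) 0 = x := by decide +kernel
  exact h x hx

theorem actL_invw {x : ℕ} (hx : x < 90) : actL (actL x 5) 1 = x := by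
  have h : ∀ x < 90, actL (actL x 5) 1 = x := by decide +kernel
  exact h x hx

theorem act_T {x : ℕ} (hx : x < 90) (t : ℕ) (a : 𝓞 K11) (ha : f89 a = (t : ZMod 89)) :
    act x (Tm a) = if x = 89 then 89 else (x + t) % 89 := by
  split_ifs with h
  · subst h
    apply idx_eq_89
    rw [rep_89, one_mul]; simp [Tm]
  · have hr := rep_lt h
    have e0 : ((rep x * Tm a).1 1 0) = 1 := by
      rw [Units.val_mul, hr]; simp [stM, Tm, Matrix.mul_apply, Fin.sum_univ_two]
    have e1 : ((rep x * Tm a).1 1 1) = a + x := by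
      rw [Units.val_mul, hr]; simp [stM, Tm, Matrix.mul_apply, Fin.sum_univ_two]
    apply idx_eq (Nat.mod_lt _ (by norm_num))
    · rw [e0]; simp
    · rw [e0, e1, map_one, one_mul, map_add, ha, map_natCast, ZMod.natCast_mod]; push_cast; ring

theorem act_S {x : ℕ} (hx : x < 90) : act x Sm = actL x 2 := by
  by_cases h : x = 89
  · subst h
    have : actL 89 2 = 0 := by decide
    rw [this]
    apply idx_eq (by norm_num)
    · rw [rep_89, one_mul]; simp [Sm]
    · rw [rep_89, one_mul]; simp [Sm]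
  · have hr := rep_lt h
    have e0 : ((rep x * Sm).1 1 0) = x := by
      rw [Units.val_mul, hr]; simp [stM, Sm, Matrix.mul_apply, Fin.sum_univ_two]
    have e1 : ((rep x * Sm).1 1 1) = -1 := by
      rw [Units.val_mul, hr]; simp [stM, Sm, Matrix.mul_apply, Fin.sum_univ_two]
    by_cases h0 : x = 0
    · subst h0
      have : actL 0 2 = 89 := by decide
      rw [this]
      apply idx_eq_89
      rw [e0]; simp
    · obtain ⟨h1, h2⟩ := actL_S (by omega) h0
      apply idx_eq h2
      · rw [e0, map_natCast, Ne, ZMod.natCast_eq_zero_iff]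
        intro h3
        have := Nat.le_of_dvd (Nat.pos_of_ne_zero h0) h3
        omega
      · rw [e0, e1, map_natCast, map_neg, map_one]
        have h3 : (((x * actL x 2 + 1 : ℕ)) : ZMod 89) = 0 := by
          rw [ZMod.natCast_eq_zero_iff]; exact Nat.dvd_of_mod_eq_zero h1
        push_cast at h3
        linear_combination h3

theorem act_D {x : ℕ} (hx : x < 90) : act x Dm = actL x 3 := by
  by_cases h : x = 89
  · subst h
    have : actL 89 3 = 89 := by decide
    rw [this]
    apply idx_eq_89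
    rw [rep_89, one_mul]; simp [Dm]
  · have hr := rep_lt h
    have e0 : ((rep x * Dm).1 1 0) = -1 := by
      rw [Units.val_mul, hr]; simp [stM, Dm, Matrix.mul_apply, Fin.sum_univ_two]
    have e1 : ((rep x * Dm).1 1 1) = x := by
      rw [Units.val_mul, hr]; simp [stM, Dm, Matrix.mul_apply, Fin.sum_univ_two]
    have e2 : actL x 3 = (89 - x) % 89 := by simp [actL, h]
    rw [e2]
    apply idx_eq (Nat.mod_lt _ (by norm_num))
    · rw [e0]; simp
    · rw [e0, e1, map_neg, map_one, map_natCast, ZMod.natCast_mod, Nat.cast_sub (by omega)]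
      have : ((89 : ℕ) : ZMod 89) = 0 := by decide
      rw [this]; ring

theorem act_inv {x y : ℕ} (hy : y < 90) {g : GL (Fin 2) (𝓞 K11)} (h : act y g = x) :
    act x g⁻¹ = y := by
  rw [← h, ← act_mul, mul_inv_cancel, act_one hy]

theorem f89_w' : f89 w = ((53 : ℕ) : ZMod 89) := by rw [f89_w]; rfl

theorem act_gen {x l : ℕ} (hl : l < 6) (hx : x < 90) : act x (genM l) = actL x l := by
  have h0 : ∀ x < 90, act x (Tm 1) = actL x 0 := fun x hx => by
    rw [act_T hx 1 1 (by simp)]; rfl
  have h1 : ∀ x < 90, act x (Tm w) = actL x 1 := fun x hx => by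
    rw [act_T hx 53 w f89_w']; rfl
  interval_cases l
  · exact h0 x hx
  · exact h1 x hx
  · exact act_S hx
  · exact act_D hx
  · refine act_inv (actL_lt (by norm_num) hx) ?_
    rw [h0 _ (actL_lt (by norm_num) hx)]
    exact actL_inv1 hx
  · refine act_inv (actL_lt (by norm_num) hx) ?_
    rw [h1 _ (actL_lt (by norm_num) hx)]
    exact actL_invw hx

/-- The unknown attached to a coset and a letter. -/
def bitL (x l : ℕ) : ℕ := if l < 4 then 4 * x + l else 4 * actL x l + (l - 4)

/-- The vector (bit mask) of a word. -/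
def maskW : ℕ → List ℕ → ℕ
  | _, [] => 0
  | x, l :: ws => (1 <<< bitL x l) ^^^ maskW (actL x l) ws

/-- The action of a word. -/
def actW : ℕ → List ℕ → ℕ
  | x, [] => x
  | x, l :: ws => actW (actL x l) ws

/-- The matrix of a word. -/
noncomputable def matW (ws : List ℕ) : GL (Fin 2) (𝓞 K11) := (ws.map genM).prod

theorem matW_cons (l : ℕ) (ws : List ℕ) : matW (l :: ws) = genM l * matW ws := by
  simp [matW]

theorem matW_append (a b : List ℕ) : matW (a ++ b) = matW a * matW b := by
  simp [matW]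

theorem act_W (ws : List ℕ) (h : ∀ l ∈ ws, l < 6) {x : ℕ} (hx : x < 90) :
    act x (matW ws) = actW x ws := by
  induction ws generalizing x with
  | nil => simp [matW, actW, act_one hx]
  | cons l ws ih =>
    have hl : l < 6 := h l (by simp)
    rw [matW_cons, act_mul, act_gen hl hx, ih (fun a ha => h a (by simp [ha])) (actL_lt hl hx)]
    rfl

theorem actW_lt (ws : List ℕ) (h : ∀ l ∈ ws, l < 6) {x : ℕ} (hx : x < 90) : actW x ws < 90 := by
  rw [← act_W ws h hx]; exact act_lt _ _

section val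

variable {F : Type} [Field F] [CharP F 2] {φ : K11 →+* ℂ} {f : Gamma0 lev → F}

/-- The unknowns. -/
noncomputable def cc (f : Gamma0 lev → F) (i : ℕ) : F := coc f (i / 4) (genM (i % 4))

/-- The linear form of a bit mask. -/
noncomputable def VV (f : Gamma0 lev → F) (m : ℕ) : F :=
  ∑ i ∈ Finset.range 360, if m.testBit i then cc f i else 0

theorem VV_xor (a b : ℕ) : VV f (a ^^^ b) = VV f a + VV f b := by
  rw [VV, VV, VV, ← Finset.sum_add_distrib]
  apply Finset.sum_congr rfl
  intro i _
  rw [Nat.testBit_xor]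
  cases a.testBit i <;> cases b.testBit i <;> simp [CharTwo.add_self_eq_zero]

theorem VV_single {i : ℕ} (hi : i < 360) : VV f (1 <<< i) = cc f i := by
  rw [VV, Finset.sum_eq_single i]
  · simp [Nat.one_shiftLeft, Nat.testBit_two_pow_self]
  · intro j _ hj
    rw [Nat.one_shiftLeft, Nat.testBit_two_pow_of_ne (Ne.symm hj)]; simp
  · intro h; exact absurd (Finset.mem_range.2 hi) h

theorem VV_zero : VV f 0 = 0 := by simp [VV]

theorem VV_letter (hf : f ∈ H1 φ lev F) {x l : ℕ} (hl : l < 6) (hx : x < 90) :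
    VV f (1 <<< bitL x l) = coc f x (genM l) := by
  have hlt := actL_lt hl hx
  by_cases h4 : l < 4
  · have e : bitL x l = 4 * x + l := by simp [bitL, h4]
    rw [e, VV_single (by omega), cc]
    congr 1
    · omega
    · congr 1; omega
  · have e : bitL x l = 4 * actL x l + (l - 4) := by simp [bitL, h4]
    rw [e, VV_single (by omega), cc]
    have e1 : (4 * actL x l + (l - 4)) / 4 = actL x l := by omega
    have e2 : (4 * actL x l + (l - 4)) % 4 = l - 4 := by omega
    rw [e1, e2]
    have hg : genM l = (genM (l - 4))⁻¹ := by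
      have : l = 4 ∨ l = 5 := by omega
      rcases this with rfl | rfl
      · simp [genM]
      · simp [genM]
    have h1 := coc_mul hf x (genM l) (genM (l - 4))
    rw [hg, inv_mul_cancel, coc_one hf hx, ← hg, act_gen hl hx] at h1
    have h2 := CharTwo.add_eq_zero.1 h1.symm
    exact h2.symm

theorem VV_word (hf : f ∈ H1 φ lev F) (ws : List ℕ) (h : ∀ l ∈ ws, l < 6) {x : ℕ} (hx : x < 90) :
    VV f (maskW x ws) = coc f x (matW ws) := by
  induction ws generalizing x with
  | nil => simp [matW, maskW, VV_zero, coc_one hf hx]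
  | cons l ws ih =>
    have hl : l < 6 := h l (by simp)
    rw [maskW, VV_xor, VV_letter hf hl hx, ih (fun a ha => h a (by simp [ha])) (actL_lt hl hx),
      matW_cons, coc_mul hf, act_gen hl hx]

/-- The loop of an element of order two. -/
def loop2 (x : ℕ) (ws : List ℕ) : ℕ := if actW x ws = x then maskW x ws else maskW x (ws ++ ws)

/-- The loop of an element of order three. -/
def loop3 (x : ℕ) (ws : List ℕ) : ℕ :=
  if actW x ws = x then maskW x ws else maskW x (ws ++ ws ++ ws)

theorem VV_loop2 (hf : f ∈ H1 φ lev F) (ws : List ℕ) (h : ∀ l ∈ ws, l < 6)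
    (ho : (matW (ws ++ ws)) ^ 2 = 1) {x : ℕ} (hx : x < 90) (h1 : actW x (ws ++ ws) = x) :
    VV f (loop2 x ws) = 0 := by
  have h2 : ∀ l ∈ ws ++ ws, l < 6 := by
    intro l hl
    rcases List.mem_append.1 hl with h3 | h3 <;> exact h l h3
  rw [loop2]
  split_ifs with hc
  · rw [VV_word hf ws h hx]
    refine coc_elliptic hf x (fixesPoint_of_pow φ _ (n := 4) (by norm_num) ?_) ?_
    · rw [show (4 : ℕ) = 2 * 2 by norm_num, pow_mul, pow_two (matW ws), ← matW_append, ho]
    · rw [act_W ws h hx, hc]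
  · rw [VV_word hf _ h2 hx]
    refine coc_elliptic hf x (fixesPoint_of_pow φ _ (n := 2) (by norm_num) ho) ?_
    rw [act_W _ h2 hx, h1]

theorem VV_loop3 (hf : f ∈ H1 φ lev F) (ws : List ℕ) (h : ∀ l ∈ ws, l < 6)
    (ho : (matW (ws ++ ws ++ ws)) ^ 2 = 1) {x : ℕ} (hx : x < 90)
    (h1 : actW x (ws ++ ws ++ ws) = x) :
    VV f (loop3 x ws) = 0 := by
  have h2 : ∀ l ∈ ws ++ ws ++ ws, l < 6 := by
    intro l hl
    rcases List.mem_append.1 hl with h3 | h3
    · rcases List.mem_append.1 h3 with h4 | h4 <;> exact h l h4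
    · exact h l h3
  rw [loop3]
  split_ifs with hc
  · rw [VV_word hf ws h hx]
    refine coc_elliptic hf x (fixesPoint_of_pow φ _ (n := 6) (by norm_num) ?_) ?_
    · have : matW ws ^ 3 = matW (ws ++ ws ++ ws) := by
        rw [matW_append, matW_append, pow_succ, pow_two]
      rw [show (6 : ℕ) = 3 * 2 by norm_num, pow_mul, this, ho]
    · rw [act_W ws h hx, hc]
  · rw [VV_word hf _ h2 hx]
    refine coc_elliptic hf x (fixesPoint_of_pow φ _ (n := 2) (by norm_num) ho) ?_
    rw [act_W _ h2 hx, h1]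

/-- The relations. -/
def relM (t x : ℕ) : ℕ :=
  if t = 0 then maskW x [0, 1, 4, 5] else
  if t = 1 then loop2 x [2] else
  if t = 2 then loop2 x [3] else
  if t = 3 then loop2 x [2, 3] else
  if t = 4 then loop2 x [3, 4, 5] else
  if t = 5 then loop2 x [3, 4] else
  if t = 6 then loop3 x [2, 4] else
  loop3 x [4, 1, 2, 5, 2]

theorem Tm_inv (x : 𝓞 K11) : (Tm x)⁻¹ = Tm (-x) := by
  apply inv_eq_of_mul_eq_one_right
  apply Units.ext
  apply Matrix.ext; intro i j
  fin_cases i <;> fin_cases j <;> simp [Tm, Matrix.mul_apply, Fin.sum_univ_two]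

theorem VV_rel (hf : f ∈ H1 φ lev F) {t x : ℕ} (hx : x < 90) : VV f (relM t x) = 0 := by
  rw [relM]
  split_ifs with h0 h1 h2 h3 h4 h5 h6
  · rw [VV_word hf _ (by decide) hx]
    have : matW [0, 1, 4, 5] = 1 := by
      simp only [matW, List.map_cons, List.map_nil, List.prod_cons, List.prod_nil, mul_one, genM,
        Tm_inv]
      apply Units.ext
      apply Matrix.ext; intro i j
      fin_cases i <;> fin_cases j <;> simp [Tm, Matrix.mul_apply, Fin.sum_univ_two]
    rw [this, coc_one hf hx]
  · refine VV_loop2 hf _ (by decide) ?_ hx ?_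
    · simp only [matW, List.cons_append, List.nil_append, List.map_cons, List.map_nil,
        List.prod_cons, List.prod_nil, mul_one, genM]
      apply Units.ext
      apply Matrix.ext; intro i j
      fin_cases i <;> fin_cases j <;> simp [Sm, pow_two, Matrix.mul_apply, Fin.sum_univ_two]
    · have h : ∀ x < 90, actW x ([2] ++ [2]) = x := by decide +kernel
      exact h x hx
  · refine VV_loop2 hf _ (by decide) ?_ hx ?_
    · simp only [matW, List.cons_append, List.nil_append, List.map_cons, List.map_nil,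
        List.prod_cons, List.prod_nil, mul_one, genM]
      apply Units.ext
      apply Matrix.ext; intro i j
      fin_cases i <;> fin_cases j <;> simp [Dm, pow_two, Matrix.mul_apply, Fin.sum_univ_two]
    · have h : ∀ x < 90, actW x ([3] ++ [3]) = x := by decide +kernel
      exact h x hx
  · refine VV_loop2 hf _ (by decide) ?_ hx ?_
    · simp only [matW, List.cons_append, List.nil_append, List.map_cons, List.map_nil,
        List.prod_cons, List.prod_nil, mul_one, genM]
      apply Units.ext
      apply Matrix.ext; intro i j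
      fin_cases i <;> fin_cases j <;> simp [Sm, Dm, pow_two, Matrix.mul_apply, Fin.sum_univ_two]
    · have h : ∀ x < 90, actW x ([2, 3] ++ [2, 3]) = x := by decide +kernel
      exact h x hx
  · refine VV_loop2 hf _ (by decide) ?_ hx ?_
    · simp only [matW, List.cons_append, List.nil_append, List.map_cons, List.map_nil,
        List.prod_cons, List.prod_nil, mul_one, genM, Tm_inv]
      apply Units.ext
      apply Matrix.ext; intro i j
      fin_cases i <;> fin_cases j <;>
        simp [Tm, Dm, pow_two, Matrix.mul_apply, Fin.sum_univ_two]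
    · have h : ∀ x < 90, actW x ([3, 4, 5] ++ [3, 4, 5]) = x := by decide +kernel
      exact h x hx
  · refine VV_loop2 hf _ (by decide) ?_ hx ?_
    · simp only [matW, List.cons_append, List.nil_append, List.map_cons, List.map_nil,
        List.prod_cons, List.prod_nil, mul_one, genM, Tm_inv]
      apply Units.ext
      apply Matrix.ext; intro i j
      fin_cases i <;> fin_cases j <;>
        simp [Tm, Dm, pow_two, Matrix.mul_apply, Fin.sum_univ_two]
    · have h : ∀ x < 90, actW x ([3, 4] ++ [3, 4]) = x := by decide +kernel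
      exact h x hx
  · refine VV_loop3 hf _ (by decide) ?_ hx ?_
    · simp only [matW, List.cons_append, List.nil_append, List.map_cons, List.map_nil,
        List.prod_cons, List.prod_nil, mul_one, genM, Tm_inv]
      apply Units.ext
      apply Matrix.ext; intro i j
      fin_cases i <;> fin_cases j <;>
        simp [Tm, Sm, pow_two, Matrix.mul_apply, Fin.sum_univ_two]
    · have h : ∀ x < 90, actW x ([2, 4] ++ [2, 4] ++ [2, 4]) = x := by decide +kernel
      exact h x hx
  · refine VV_loop3 hf _ (by decide) ?_ hx ?_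
    · have e1 : matW [4, 1, 2, 5, 2] = Tm (w - 1) * Sm * Tm (-w) * Sm := by
        have e2 : (Tm 1)⁻¹ * Tm w = Tm (w - 1) := by
          rw [Tm_inv]
          apply Units.ext
          apply Matrix.ext; intro i j
          fin_cases i <;> fin_cases j <;>
            simp [Tm, Matrix.mul_apply, Fin.sum_univ_two, sub_eq_add_neg, add_comm]
        rw [← e2, ← Tm_inv]
        simp only [matW, List.map_cons, List.map_nil, List.prod_cons, List.prod_nil, mul_one, genM]
        simp [mul_assoc]
      have e3 : (matW [4, 1, 2, 5, 2]).1 = !![2, 1 - w; -w, -1] := by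
        rw [e1]
        apply Matrix.ext; intro i j
        fin_cases i <;> fin_cases j
        · simp [Tm, Sm, Matrix.mul_apply, Fin.sum_univ_two]
          linear_combination (-1 : 𝓞 K11) * w_sq
        · simp [Tm, Sm, Matrix.mul_apply, Fin.sum_univ_two]
        · simp [Tm, Sm, Matrix.mul_apply, Fin.sum_univ_two]
        · simp [Tm, Sm, Matrix.mul_apply, Fin.sum_univ_two]
      rw [matW_append, matW_append]
      set g := matW [4, 1, 2, 5, 2] with hg
      have e4 : (g * g).1 = !![1, 1 - w; -w, -2] := by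
        rw [Units.val_mul, e3]
        apply Matrix.ext; intro i j
        fin_cases i <;> fin_cases j <;> simp [Matrix.mul_apply, Fin.sum_univ_two] <;>
          first | linear_combination w_sq | linear_combination (-1 : 𝓞 K11) * w_sq | ring
      have e5 : (g * g * g).1 = -1 := by
        rw [Units.val_mul, e4, e3]
        apply Matrix.ext; intro i j
        fin_cases i <;> fin_cases j <;> simp [Matrix.mul_apply, Fin.sum_univ_two] <;>
          first | linear_combination w_sq | linear_combination (-1 : 𝓞 K11) * w_sq | ring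
      apply Units.ext
      rw [pow_two, Units.val_mul, e5]
      simp
    · have h : ∀ x < 90, actW x ([4, 1, 2, 5, 2] ++ [4, 1, 2, 5, 2] ++ [4, 1, 2, 5, 2]) = x := by
        decide +kernel
      exact h x hx

/-! ### The certificate -/

/-- Sum of relations. -/
def xorL : List (ℕ × ℕ) → ℕ
  | [] => 0
  | q :: r => relM q.1 q.2 ^^^ xorL r

/-- Elimination: `U` is the set of unknowns not yet known to vanish. -/
def runC : List (List (ℕ × ℕ)) → ℕ → ℕ
  | [], U => U
  | s :: ss, U =>
    if xorL s &&& U = 2 ^ (Nat.log2 (xorL s &&& U)) then runC ss (U ^^^ (xorL s &&& U)) else U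

theorem VV_xorL (hf : f ∈ H1 φ lev F) (s : List (ℕ × ℕ)) (hs : ∀ q ∈ s, q.2 < 90) :
    VV f (xorL s) = 0 := by
  induction s with
  | nil => simp [xorL, VV_zero]
  | cons q r ih =>
    rw [xorL, VV_xor, VV_rel hf (hs q (by simp)), ih (fun a ha => hs a (by simp [ha])), add_zero]

theorem runC_sound (hf : f ∈ H1 φ lev F) (ss : List (List (ℕ × ℕ)))
    (hs : ∀ s ∈ ss, ∀ q ∈ s, q.2 < 90) (U : ℕ)
    (hU : ∀ i < 360, U.testBit i = false → cc f i = 0) :
    ∀ i < 360, (runC ss U).testBit i = false → cc f i = 0 := by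
  induction ss generalizing U with
  | nil => exact hU
  | cons s ss ih =>
    rw [runC]
    split_ifs with hm
    · apply ih (fun a ha => hs a (by simp [ha]))
      set t := Nat.log2 (xorL s &&& U) with ht
      intro i hi hb
      rw [Nat.testBit_xor, hm] at hb
      by_cases h1 : U.testBit i = false
      · exact hU i hi h1
      · rw [Bool.not_eq_false] at h1
        have h2 : (2 ^ t).testBit i = true := by
          rw [h1] at hb
          simpa using hb
        have hti : t = i := by
          by_contra hne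
          rw [Nat.testBit_two_pow_of_ne hne] at h2
          exact absurd h2 (by simp)
        have hV := VV_xorL hf s (hs s (by simp))
        rw [VV, Finset.sum_eq_single i] at hV
        · have h3 : (xorL s &&& U).testBit i = true := by rw [hm]; exact h2
          rw [Nat.testBit_and, h1, Bool.and_true] at h3
          rw [if_pos h3] at hV
          exact hV
        · intro j hj hji
          split_ifs with h4
          · apply hU j (Finset.mem_range.1 hj)
            by_contra h5
            rw [Bool.not_eq_false] at h5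
            have h6 : (xorL s &&& U).testBit j = true := by
              rw [Nat.testBit_and, h4, h5]; rfl
            rw [hm, Nat.testBit_two_pow_of_ne (by omega)] at h6
            exact absurd h6 (by simp)
          · rfl
        · intro h; exact absurd (Finset.mem_range.2 hi) h
    · exact hU

/-- The elimination steps. -/
def steps : List (List (ℕ × ℕ)) :=
  [[(1, 0)], [(1, 6)], [(1, 26)], [(1, 34)], [(1, 55)], [(2, 0)], [(2, 89)], [(5, 44)], 
   [(5, 89)], [(2, 44)], [(4, 89)], [(5, 43)], [(2, 43)], [(5, 42)], [(2, 42)], [(5, 41)], 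
   [(2, 41)], [(5, 40)], [(2, 40)], [(5, 39)], [(2, 39)], [(5, 38)], [(2, 38)], [(5, 37)], 
   [(2, 37)], [(5, 36)], [(2, 36)], [(5, 35)], [(2, 35)], [(5, 34)], [(2, 34)], [(5, 33)], 
   [(2, 33)], [(5, 32)], [(2, 32)], [(5, 31)], [(2, 31)], [(5, 30)], [(2, 30)], [(5, 29)], 
   [(2, 29)], [(5, 28)], [(2, 28)], [(5, 27)], [(2, 27)], [(4, 62)], [(5, 26)], [(0, 61)], 
   [(0, 62)], [(0, 63)], [(0, 64)], [(0, 65)], [(0, 66)], [(0, 67)], [(0, 68)], [(0, 69)], 
   [(0, 70)], [(0, 71)], [(0, 72)], [(0, 73)], [(0, 74)], [(0, 75)], [(0, 76)], [(0, 77)], 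
   [(0, 78)], [(0, 79)], [(0, 80)], [(0, 81)], [(0, 82)], [(0, 83)], [(0, 84)], [(0, 85)], 
   [(0, 86)], [(0, 87)], [(2, 26)], [(5, 25)], [(0, 60)], [(2, 25)], [(5, 24)], [(0, 59)], 
   [(2, 24)], [(3, 24)], [(3, 63)], [(5, 23)], [(0, 58)], [(2, 23)], [(5, 22)], [(0, 57)], 
   [(2, 22)], [(5, 21)], [(0, 56)], [(2, 21)], [(5, 20)], [(0, 55)], [(2, 20)], [(5, 19)], 
   [(0, 54)], [(2, 19)], [(5, 18)], [(0, 53)], [(2, 18)], [(5, 17)], [(0, 52)], [(2, 17)], 
   [(5, 16)], [(0, 51)], [(2, 16)], [(5, 15)], [(0, 50)], [(2, 15)], [(5, 14)], [(0, 49)], 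
   [(2, 14)], [(5, 13)], [(0, 48)], [(2, 13)], [(5, 12)], [(0, 47)], [(2, 12)], [(5, 11)], 
   [(0, 46)], [(2, 11)], [(5, 10)], [(0, 45)], [(2, 10)], [(5, 9)], [(0, 44)], [(2, 9)], 
   [(5, 8)], [(0, 43)], [(2, 8)], [(5, 7)], [(0, 42)], [(2, 7)], [(5, 6)], [(0, 41)], [(2, 6)], 
   [(3, 6)], [(3, 74)], [(5, 5)], [(0, 40)], [(2, 5)], [(5, 4)], [(0, 39)], [(2, 4)], [(5, 3)], 
   [(0, 38)], [(2, 3)], [(5, 2)], [(0, 37)], [(2, 2)], [(5, 1)], [(0, 36)], [(2, 1)], [(3, 1)], 
   [(3, 88)], [(5, 0)], [(0, 35)], [(0, 88)], [(0, 0)], [(0, 1)], [(0, 2)], [(0, 3)], [(0, 4)], 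
   [(0, 5)], [(0, 6)], [(0, 7)], [(0, 8)], [(0, 9)], [(0, 10)], [(0, 11)], [(0, 12)], [(0, 13)], 
   [(0, 14)], [(0, 15)], [(0, 16)], [(0, 17)], [(0, 18)], [(0, 19)], [(0, 20)], [(0, 21)], 
   [(0, 22)], [(0, 23)], [(0, 24)], [(0, 25)], [(0, 26)], [(0, 27)], [(0, 28)], [(0, 29)], 
   [(0, 30)], [(0, 31)], [(0, 32)], [(0, 33)], [(1, 9), (3, 9), (6, 8)], [(1, 8)], [(3, 8)], 
   [(3, 11)], 
   [(1, 2), (1, 29), (1, 39), (1, 47), (3, 29), (3, 36), (6, 2), (6, 6), (6, 28), (7, 7)], 
   [(1, 28)], [(3, 28)], [(3, 54)], [(6, 27)], [(6, 33)], [(1, 27)], [(1, 33)], [(6, 24)], 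
   [(6, 26)], [(1, 25)], [(1, 57)], [(6, 23)], [(6, 25)], [(1, 23)], [(1, 31)], 
   [(6, 2), (7, 3), (7, 38)], [(1, 10)], [(3, 9)], [(3, 79)], [(6, 4), (7, 5), (7, 11)], 
   [(1, 4)], [(3, 4)], [(3, 22)], [(6, 3)], [(6, 30)], [(1, 3)], [(1, 30)], 
   [(1, 20), (6, 20), (7, 20)], [(1, 39)], [(3, 16)], [(3, 50)], [(6, 6)], [(6, 15)], [(1, 7)], 
   [(1, 51)], [(6, 7)], [(6, 51)], [(7, 1)], [(7, 3)], [(7, 12)], [(7, 31)], [(7, 38)], 
   [(7, 46)], [(1, 2)], [(1, 12)], [(1, 29)], [(1, 36)], [(1, 43)], [(1, 45)], [(1, 47)], 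
   [(1, 52)], [(6, 12)], [(6, 47)], [(7, 2)], [(7, 5)], [(7, 10)], [(7, 11)], [(7, 13)], 
   [(7, 17)], [(7, 26)], [(7, 27)], [(7, 28)], [(7, 35)], [(7, 40)], [(7, 47)], [(7, 50)], 
   [(7, 51)], [(7, 59)], [(7, 68)], [(7, 84)], [(1, 70)]]

/-- All unknowns except those of the spanning tree and two free ones. -/
def U0 : ℕ :=
  1760795337449444234671421901269634025780438072248450487801271106542169526743216494671945645551883861539876590

theorem steps_lt : ∀ s ∈ steps, ∀ q ∈ s, q.2 < 90 := by decide +kernel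

theorem run_steps : runC steps U0 = 0 := by decide +kernel

theorem U0_bits : ∀ i < 360, U0.testBit i = false →
    i = 106 ∨ i = 298 ∨ i = 358 ∨ (i % 4 = 0 ∧ i < 352) := by decide +kernel

end val

end Pool.Agent.K4H51.SB
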