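import Pool.Agent.K4H51.SB.Field
import Pool.Agent.Y682.Lcl

/-!
# The completion of `ℚ(√-11)` at 2
-/

set_option autoImplicit false
set_option linter.unusedSectionVars false

open NumberField IsDedekindDomain

namespace Pool.Agent.K4H51.SB

open Pool.Agent.Y682

section hensel

variable {K : Type} [Field K] [NumberField K] (v : HeightOneSpectrum (𝓞 K))

/-- Hensel's lemma for `y² + y = c`, `|c| < 1`. -/
theorem exists_as (c : v.adicCompletion K) (hc1 : vv v c < 1) :
    ∃ y : v.adicCompletion K, vv v y ≤ vv v c ∧ y ^ 2 + y = c := by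
  let s : Set (v.adicCompletion K) := {y | ‖y‖ ≤ ‖c‖}
  have hs : IsComplete s := (isClosed_le continuous_norm continuous_const).isComplete
  let T : v.adicCompletion K → v.adicCompletion K := fun y => c - y ^ 2
  have hmaps : Set.MapsTo T s s := by
    intro y hy
    have h1 : vv v y ≤ vv v c := (norm_le_iff v _ _).1 hy
    change ‖T y‖ ≤ ‖c‖
    rw [norm_le_iff]
    refine (Valuation.map_sub _ _ _).trans (max_le le_rfl ?_)
    rw [map_pow, sq]
    exact (mul_le_of_le_one_right' (h1.trans hc1.le)).trans h1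
  have hcn : ‖c‖ < 1 := by
    rw [← norm_one (α := v.adicCompletion K), ← not_le, norm_le_iff, not_le, map_one]
    exact hc1
  have hcon : ContractingWith ⟨‖c‖, norm_nonneg _⟩ (hmaps.restrict T s s) := by
    refine ⟨by exact_mod_cast hcn, ?_⟩
    apply LipschitzWith.of_dist_le_mul
    rintro ⟨y, hy⟩ ⟨z, hz⟩
    change dist (T y) (T z) ≤ ‖c‖ * dist y z
    have h1 : vv v y ≤ vv v c := (norm_le_iff v _ _).1 hy
    have h2 : vv v z ≤ vv v c := (norm_le_iff v _ _).1 hz
    rw [dist_eq_norm, dist_eq_norm, ← norm_mul, norm_le_iff, map_mul]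
    have h3 : T y - T z = (z + y) * (z - y) := by simp only [T]; ring
    rw [h3, map_mul, Valuation.map_sub_swap]
    exact mul_le_mul_left ((Valuation.map_add _ _ _).trans (max_le h2 h1)) _
  have hcs : c ∈ s := le_refl ‖c‖
  obtain ⟨y, hys, hy, -⟩ := hcon.exists_fixedPoint' hs hmaps hcs (edist_ne_top _ _)
  have h2 : c - y ^ 2 = y := hy
  exact ⟨y, (norm_le_iff v _ _).1 hys, by linear_combination -h2⟩

/-- The map to the completion. -/
noncomputable def iv : 𝓞 K →+* v.adicCompletion K :=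
  (algebraMap K (v.adicCompletion K)).comp (algebraMap (𝓞 K) K)

theorem vv_iv_le (x : 𝓞 K) : vv v (iv v x) ≤ 1 := by
  show vv v (algebraMap K _ (x : K)) ≤ 1
  rw [vv_coe]
  exact v.valuation_le_one x

theorem vv_iv_eq {x : 𝓞 K} (hx : x ∉ v.asIdeal) : vv v (iv v x) = 1 := by
  show vv v (algebraMap K _ (x : K)) = 1
  rw [vv_coe]
  exact (HeightOneSpectrum.valuation_eq_one_iff_notMem v).2 hx

theorem vv_iv_lt {x : 𝓞 K} (hx : x ∈ v.asIdeal) : vv v (iv v x) < 1 := by
  show vv v (algebraMap K _ (x : K)) < 1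
  rw [vv_coe]
  exact (HeightOneSpectrum.valuation_lt_one_iff_mem v x).2 hx

theorem vv_add_one {x y : v.adicCompletion K} (hx : vv v x = 1) (hy : vv v y < 1) :
    vv v (x + y) = 1 := by
  rw [Valuation.map_add_eq_of_lt_left, hx]
  rw [hx]; exact hy

end hensel

/-- An integer of odd norm does not lie in a prime above two. -/
theorem notMem_of_odd {v : HeightOneSpectrum (𝓞 K11)} (h2 : (2 : 𝓞 K11) ∈ v.asIdeal) (a b : ℤ)
    (h : ¬ (2 : ℤ) ∣ a ^ 2 + a * b + 3 * b ^ 2) :
    (a : 𝓞 K11) + (b : 𝓞 K11) * w ∉ v.asIdeal := by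
  intro hm
  apply (Ideal.ne_top_iff_one v.asIdeal).1 v.isPrime.ne_top
  have h3 : ((a ^ 2 + a * b + 3 * b ^ 2 : ℤ) : 𝓞 K11) ∈ v.asIdeal := by
    have : ((a ^ 2 + a * b + 3 * b ^ 2 : ℤ) : 𝓞 K11) =
        ((a : 𝓞 K11) + (b : 𝓞 K11) * w) * ((a : 𝓞 K11) + b - b * w) := by
      push_cast
      linear_combination (b : 𝓞 K11) ^ 2 * w_sq
    rw [this]
    exact v.asIdeal.mul_mem_right _ hm
  obtain ⟨k, hk⟩ : ∃ k, a ^ 2 + a * b + 3 * b ^ 2 = 2 * k + 1 := by
    rcases Int.even_or_odd' (a ^ 2 + a * b + 3 * b ^ 2) with ⟨k, hk | hk⟩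
    · exact absurd ⟨k, hk⟩ h
    · exact ⟨k, hk⟩
  have h4 : (1 : 𝓞 K11) = ((a ^ 2 + a * b + 3 * b ^ 2 : ℤ) : 𝓞 K11) - 2 * (k : 𝓞 K11) := by
    rw [hk]; push_cast; ring
  rw [h4]
  exact v.asIdeal.sub_mem h3 (v.asIdeal.mul_mem_right _ h2)

section loc

variable {v : HeightOneSpectrum (𝓞 K11)}

theorem local_data (h2 : (2 : 𝓞 K11) ∈ v.asIdeal) :
    ∃ ζ u Uf Ug : v.adicCompletion K11, ζ ^ 2 + ζ + 1 = 0 ∧
      u ^ 2 = -(2 + 5 * iv v w) ∧
      -7 * (2 * iv v w - 1) + 3 * (2 * ζ + 1) = 2 * Ug ∧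
      3 - 7 * iv v w - 3 * (2 * ζ + 1) * u = 2 * Uf ∧ vv v Uf = 1 ∧ vv v Ug = 1 := by
  obtain ⟨W, hW⟩ : ∃ W, W = iv v w := ⟨_, rfl⟩
  have hWsq : W ^ 2 = W - 3 := by
    rw [hW, ← map_pow, w_sq, map_sub, map_ofNat]
  have hiv : ∀ a b : ℤ, iv v ((a : 𝓞 K11) + (b : 𝓞 K11) * w) = a + b * W := by
    intro a b
    rw [map_add, map_mul, map_intCast, map_intCast, hW]
  have hunit : ∀ a b : ℤ, ¬ (2 : ℤ) ∣ a ^ 2 + a * b + 3 * b ^ 2 →
      vv v ((a : v.adicCompletion K11) + b * W) = 1 := by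
    intro a b h
    rw [← hiv]
    exact vv_iv_eq v (notMem_of_odd h2 a b h)
  have hint : ∀ a b : ℤ, vv v ((a : v.adicCompletion K11) + b * W) ≤ 1 := by
    intro a b
    rw [← hiv]
    exact vv_iv_le v _
  have h2lt : vv v (2 : v.adicCompletion K11) < 1 := by
    have := vv_iv_lt v h2
    rwa [map_ofNat] at this
  rw [← hW]
  have u1 : vv v (2 * W + 1) = 1 := by
    have := hunit 1 2 (by norm_num)
    rw [show (2 * W + 1) = ((1 : ℤ) : v.adicCompletion K11) + ((2 : ℤ) : _) * W by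
      push_cast; ring]
    exact this
  have u2 : vv v (1 + W) = 1 := by
    have := hunit 1 1 (by norm_num)
    rw [show (1 + W) = ((1 : ℤ) : v.adicCompletion K11) + ((1 : ℤ) : _) * W by
      push_cast; ring]
    exact this
  have n1 : (2 * W + 1) ≠ 0 := by
    intro h0; rw [h0, map_zero] at u1; exact zero_ne_one u1
  have n2 : (1 + W) ≠ 0 := by
    intro h0; rw [h0, map_zero] at u2; exact zero_ne_one u2
  have b1 : vv v (W - 1) ≤ 1 := by
    have := hint (-1) 1
    rw [show (W - 1) = ((-1 : ℤ) : v.adicCompletion K11) + ((1 : ℤ) : _) * W by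
      push_cast; ring]
    exact this
  have b2 : vv v W ≤ 1 := by
    have := hint 0 1
    rw [show W = ((0 : ℤ) : v.adicCompletion K11) + ((1 : ℤ) : _) * W by
      push_cast; ring]
    exact this
  obtain ⟨y, hy, hye⟩ := exists_as v (-2 * (W - 1) / (2 * W + 1) ^ 2) (by
    rw [map_div₀, map_pow, u1, one_pow, div_one, map_mul, Valuation.map_neg]
    exact mul_lt_one_of_lt_of_le h2lt b1)
  obtain ⟨s, hs, hse⟩ := exists_as v (-2 * W / (1 + W) ^ 2) (by
    rw [map_div₀, map_pow, u2, one_pow, div_one, map_mul, Valuation.map_neg]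
    exact mul_lt_one_of_lt_of_le h2lt b2)
  have hylt : vv v y < 1 := lt_of_le_of_lt hy (by
    rw [map_div₀, map_pow, u1, one_pow, div_one, map_mul, Valuation.map_neg]
    exact mul_lt_one_of_lt_of_le h2lt b1)
  have hslt : vv v s < 1 := lt_of_le_of_lt hs (by
    rw [map_div₀, map_pow, u2, one_pow, div_one, map_mul, Valuation.map_neg]
    exact mul_lt_one_of_lt_of_le h2lt b2)
  have hye' : (2 * W + 1) ^ 2 * (y ^ 2 + y) = -2 * (W - 1) := by
    rw [hye]; field_simp
  have hse' : (1 + W) ^ 2 * (s ^ 2 + s) = -2 * W := by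
    rw [hse]; field_simp
  have helt : vv v (y + s + 2 * (y * s)) < 1 := by
    refine lt_of_le_of_lt (Valuation.map_add _ _ _) (max_lt
      (lt_of_le_of_lt (Valuation.map_add _ _ _) (max_lt hylt hslt)) ?_)
    rw [map_mul, map_mul]
    exact mul_lt_one_of_lt_of_le h2lt (mul_le_one' hylt.le hslt.le)
  refine ⟨W + (2 * W + 1) * y, (1 + W) * (1 + 2 * s),
    9 - 11 * W + (-15) * (W - 1) * (y + s + 2 * (y * s)), 5 - 4 * W + 3 * (2 * W + 1) * y,
    ?_, ?_, ?_, ?_, ?_, ?_⟩
  · linear_combination hye' + hWsq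
  · linear_combination 4 * hse' + hWsq
  · ring
  · linear_combination (-6 * (1 + 2 * y) * (1 + 2 * s)) * hWsq
  · apply vv_add_one
    · have := hunit 9 (-11) (by norm_num)
      rw [show (9 - 11 * W) = ((9 : ℤ) : v.adicCompletion K11) + ((-11 : ℤ) : _) * W by
        push_cast; ring]
      exact this
    · rw [map_mul, mul_comm]
      refine mul_lt_one_of_lt_of_le helt ?_
      have := hint 15 (-15)
      rw [show (-15 * (W - 1)) = ((15 : ℤ) : v.adicCompletion K11) + ((-15 : ℤ) : _) * W by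
        push_cast; ring]
      exact this
  · apply vv_add_one
    · have := hunit 5 (-4) (by norm_num)
      rw [show (5 - 4 * W) = ((5 : ℤ) : v.adicCompletion K11) + ((-4 : ℤ) : _) * W by
        push_cast; ring]
      exact this
    · rw [map_mul, mul_comm]
      refine mul_lt_one_of_lt_of_le hylt ?_
      have := hint 3 6
      rw [show (3 * (2 * W + 1)) = ((3 : ℤ) : v.adicCompletion K11) + ((6 : ℤ) : _) * W by
        push_cast; ring]
      exact this

end loc

end Pool.Agent.K4H51.SB
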