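import Pool.Agent.K4H51.SB.Level
import Pool.Agent.K4H51.SB.Loc2
import Pool.Agent.K4H51.SB.Conj

/-!
# The primes above 2 and 3
-/

set_option autoImplicit false
set_option linter.unusedSectionVars false
set_option linter.unusedSimpArgs false

open NumberField IsDedekindDomain

namespace Pool.Agent.K4H51.SB

/-! ### The prime `ω` of norm 3 -/

/-- `ℤ[ω] → 𝔽₃`, `ω ↦ 0`. -/
def r3 : R11 →+* ZMod 3 where
  toFun z := (z.re : ZMod 3)
  map_one' := by simp [QuadraticAlgebra.re_one]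
  map_zero' := by simp
  map_add' x y := by simp
  map_mul' x y := by
    simp only [QuadraticAlgebra.re_mul]
    push_cast
    have h : (3 : ZMod 3) = 0 := by decide
    linear_combination (-(x.im : ZMod 3) * (y.im : ZMod 3)) * h

/-- Reduction modulo `ω`. -/
noncomputable def f3 : 𝓞 K11 →+* ZMod 3 := r3.comp eO.symm.toRingHom

theorem f3_apply (a b : ℤ) : f3 ((a : 𝓞 K11) + (b : 𝓞 K11) * w) = (a : ZMod 3) := by
  have : (a : 𝓞 K11) + (b : 𝓞 K11) * w = eO ⟨a, b⟩ := rfl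
  show r3 (eO.symm _) = _
  rw [this, RingEquiv.symm_apply_apply]
  rfl

theorem f3_w : f3 w = 0 := by
  have := f3_apply 0 1
  simpa using this

theorem ker_f3 : RingHom.ker f3 = Ideal.span {w} := by
  ext x
  rw [RingHom.mem_ker, Ideal.mem_span_singleton]
  constructor
  · intro h
    obtain ⟨a, b, rfl⟩ := repr_O x
    rw [f3_apply] at h
    obtain ⟨c, rfl⟩ := (ZMod.intCast_zmod_eq_zero_iff_dvd a 3).1 h
    refine ⟨(c : 𝓞 K11) * (1 - w) + b, ?_⟩
    push_cast
    linear_combination (c : 𝓞 K11) * w_sq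
  · rintro ⟨y, rfl⟩
    rw [map_mul, f3_w, zero_mul]

theorem span_w_prime : (Ideal.span {w} : Ideal (𝓞 K11)).IsPrime := by
  rw [← ker_f3]; exact RingHom.ker_isPrime f3

theorem w_ne : (w : 𝓞 K11) ≠ 0 := by
  intro h
  have h1 : ((0 : ℤ) : 𝓞 K11) + ((1 : ℤ) : 𝓞 K11) * w = 0 := by rw [h]; simp
  have := repr_unique h1
  norm_num at this

theorem prime_w : Prime (w : 𝓞 K11) := (Ideal.span_singleton_prime w_ne).1 span_w_prime

theorem card_w : Nat.card (𝓞 K11 ⧸ Ideal.span {(w : 𝓞 K11)}) = 3 := by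
  rw [← ker_f3]
  have hs : Function.Surjective f3 := ZMod.ringHom_surjective f3
  rw [Nat.card_congr (RingHom.quotientKerEquivOfSurjective hs).toEquiv, Nat.card_zmod]

theorem coprime_w : IsCoprime (Ideal.span {(w : 𝓞 K11)}) lev := by
  rw [Ideal.isCoprime_iff_exists]
  refine ⟨3 + 5 * w, ?_, -N0, ?_, ?_⟩
  · rw [Ideal.mem_span_singleton]
    exact ⟨6 - w, by linear_combination w_sq⟩
  · exact neg_mem (Ideal.mem_span_singleton_self N0)
  · unfold N0; ring

theorem w_not_dvd : ¬ (w : 𝓞 K11) ∣ ((2 : ℕ) : 𝓞 K11) := by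
  rintro ⟨y, hy⟩
  have h := congrArg f3 hy
  rw [map_mul, f3_w, zero_mul, map_natCast] at h
  revert h
  decide

/-! ### The prime 2 -/

theorem eq_span_two {P : Ideal (𝓞 K11)} (hP : P.IsPrime) (h2 : (2 : 𝓞 K11) ∈ P) :
    P = Ideal.span {2} := by
  have hP0 : P ≠ ⊥ := by
    rintro rfl
    rw [Ideal.mem_bot] at h2
    exact two_ne_zero h2
  let v : HeightOneSpectrum (𝓞 K11) := ⟨P, hP, hP0⟩
  apply le_antisymm
  · intro x hx
    obtain ⟨a, b, rfl⟩ := repr_O x
    have h3 : (2 : ℤ) ∣ a ^ 2 + a * b + 3 * b ^ 2 := by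
      by_contra h
      exact notMem_of_odd (v := v) h2 a b h hx
    have h4 : (2 : ℤ) ∣ a ∧ (2 : ℤ) ∣ b := by
      rcases Int.even_or_odd' a with ⟨k, hk | hk⟩ <;> rcases Int.even_or_odd' b with ⟨l, hl | hl⟩
      · exact ⟨⟨k, hk⟩, ⟨l, hl⟩⟩
      · exfalso
        obtain ⟨m, hm⟩ := h3
        rw [hk, hl] at hm
        ring_nf at hm
        omega
      · exfalso
        obtain ⟨m, hm⟩ := h3
        rw [hk, hl] at hm
        ring_nf at hm
        omega
      · exfalso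
        obtain ⟨m, hm⟩ := h3
        rw [hk, hl] at hm
        ring_nf at hm
        omega
    obtain ⟨⟨k, hk⟩, ⟨l, hl⟩⟩ := h4
    rw [Ideal.mem_span_singleton]
    exact ⟨(k : 𝓞 K11) + l * w, by rw [hk, hl]; push_cast; ring⟩
  · rw [Ideal.span_singleton_le_iff_mem]; exact h2

theorem unramified_two : IsUnramifiedIn K11 2 := by
  intro P hP h
  have h2 : (2 : 𝓞 K11) ∈ P := Ideal.pow_le_self two_ne_zero (by exact_mod_cast h)
  have h3 := eq_span_two hP h2
  rw [h3, Ideal.span_singleton_pow, Ideal.mem_span_singleton] at h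
  obtain ⟨c, hc⟩ := h
  have h4 : (1 : 𝓞 K11) = 2 * c := by
    have h5 : (2 : 𝓞 K11) * 1 = 2 * (2 * c) := by
      push_cast at hc
      linear_combination hc
    exact mul_left_cancel₀ two_ne_zero h5
  apply hP.ne_top
  rw [Ideal.eq_top_iff_one, h4]
  exact P.mul_mem_right _ h2

theorem coprime_two : IsCoprime (Ideal.span {((2 : ℕ) : 𝓞 K11)}) lev := by
  rw [Ideal.isCoprime_iff_exists]
  refine ⟨-88, ?_, N0 * (7 - 5 * w), ?_, ?_⟩
  · rw [Ideal.mem_span_singleton]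
    exact ⟨-44, by push_cast; norm_num⟩
  · exact Ideal.mul_mem_right _ _ (Ideal.mem_span_singleton_self N0)
  · unfold N0; linear_combination (-25 : 𝓞 K11) * w_sq

theorem N0_notMem_of_two {P : Ideal (𝓞 K11)} (hP : P.IsPrime) (h2 : (2 : 𝓞 K11) ∈ P) :
    N0 ∉ P := by
  intro h
  apply hP.ne_top
  rw [Ideal.eq_top_iff_one]
  have e : (1 : 𝓞 K11) = N0 * (7 - 5 * w) - 2 * 44 := by
    unfold N0; linear_combination (25 : 𝓞 K11) * w_sq
  rw [e]
  exact P.sub_mem (P.mul_mem_right _ h) (P.mul_mem_right _ h2)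

theorem v_unique {v v' : HeightOneSpectrum (𝓞 K11)} (h : (2 : 𝓞 K11) ∈ v.asIdeal)
    (h' : (2 : 𝓞 K11) ∈ v'.asIdeal) : v = v' := by
  apply HeightOneSpectrum.ext
  rw [eq_span_two v.isPrime h, eq_span_two v'.isPrime h']

theorem exists_v : ∃ v : HeightOneSpectrum (𝓞 K11), (2 : 𝓞 K11) ∈ v.asIdeal := by
  obtain ⟨P, hP, hle⟩ := Ideal.exists_le_maximal (Ideal.span {(2 : 𝓞 K11)}) (by
    intro h
    rw [Ideal.span_singleton_eq_top] at h
    rcases unit_eq h with h1 | h1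
    · exact one_ne_zero (show (1 : 𝓞 K11) = 0 by linear_combination h1)
    · exact (by norm_num : (3 : 𝓞 K11) ≠ 0) (by linear_combination h1))
  have h2 : (2 : 𝓞 K11) ∈ P := (Ideal.span_singleton_le_iff_mem P).1 hle
  refine ⟨⟨P, hP.isPrime, ?_⟩, h2⟩
  rintro rfl
  rw [Ideal.mem_bot] at h2
  exact two_ne_zero h2

end Pool.Agent.K4H51.SB
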