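import Pool.Agent.K4H51.SB.Defs

/-!
# The Hecke operators `T_π` on `H¹(Y₀(𝔑), F)`
-/

set_option autoImplicit false
set_option linter.unusedSimpArgs false
set_option linter.unusedSectionVars false

open NumberField IsDedekindDomain Matrix
open scoped ComplexOrder

namespace Pool.Agent.K4H51.SB

variable {K : Type} [Field K] [NumberField K]

theorem toC_mul (φ : K →+* ℂ) (M N : Matrix (Fin 2) (Fin 2) (𝓞 K)) :
    toC φ (M * N) = toC φ M * toC φ N := by
  unfold toC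
  exact Matrix.map_mul (f := φ.comp (algebraMap (𝓞 K) K))

theorem toC_one (φ : K →+* ℂ) : toC φ (1 : Matrix (Fin 2) (Fin 2) (𝓞 K)) = 1 := by
  unfold toC
  exact Matrix.map_one _ (by simp) (by simp)

theorem det_toC (φ : K →+* ℂ) (M : Matrix (Fin 2) (Fin 2) (𝓞 K)) :
    (toC φ M).det = φ (M.det : K) := by
  unfold toC
  rw [Matrix.det_fin_two, Matrix.det_fin_two]
  simp

theorem isUnit_toC (φ : K →+* ℂ) (M : Matrix (Fin 2) (Fin 2) (𝓞 K)) (h : M.det ≠ 0) :
    IsUnit (toC φ M) := by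
  rw [Matrix.isUnit_iff_isUnit_det, det_toC, isUnit_iff_ne_zero]
  simpa using h

theorem posDef_conj {A B : Matrix (Fin 2) (Fin 2) ℂ} (hA : A.PosDef) (hB : IsUnit B) :
    (B * A * Bᴴ).PosDef :=
  hA.mul_mul_conjTranspose_same (Matrix.vecMul_injective_of_isUnit hB)

theorem det_ne_zero_of_GL (γ : GL (Fin 2) (𝓞 K)) : (γ : Matrix (Fin 2) (Fin 2) (𝓞 K)).det ≠ 0 := by
  have : IsUnit (γ : Matrix (Fin 2) (Fin 2) (𝓞 K)).det :=
    (Matrix.isUnit_iff_isUnit_det _).1 γ.isUnit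
  exact this.ne_zero

section prim

variable {φ : K →+* ℂ} {𝔑 : Ideal (𝓞 K)} {F : Type} [Field F]

/-- `h ~ h'`: same orbit under `Γ₀(𝔑) × ℝ_{>0}`. -/
def orel (φ : K →+* ℂ) (𝔑 : Ideal (𝓞 K)) (x y : Matrix (Fin 2) (Fin 2) ℂ) : Prop :=
  ∃ γ : Gamma0 𝔑, ∃ c : ℝ, 0 < c ∧ y = (c : ℂ) • (toC φ γ.1.1 * x * (toC φ γ.1.1)ᴴ)

theorem orel_comp {x y z : Matrix (Fin 2) (Fin 2) ℂ} {γ γ' : Gamma0 𝔑} {c c' : ℝ}
    (h : y = (c : ℂ) • (toC φ γ.1.1 * x * (toC φ γ.1.1)ᴴ))
    (h' : z = (c' : ℂ) • (toC φ γ'.1.1 * y * (toC φ γ'.1.1)ᴴ)) :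
    z = ((c' * c : ℝ) : ℂ) • (toC φ (γ' * γ).1.1 * x * (toC φ (γ' * γ).1.1)ᴴ) := by
  rw [h', h]
  simp only [Subgroup.coe_mul, Units.val_mul, toC_mul, Matrix.conjTranspose_mul, Matrix.mul_smul,
    Matrix.smul_mul, smul_smul, Complex.ofReal_mul, Matrix.mul_assoc]

theorem orel_inv {x y : Matrix (Fin 2) (Fin 2) ℂ} {γ : Gamma0 𝔑} {c : ℝ} (hc : 0 < c)
    (h : y = (c : ℂ) • (toC φ γ.1.1 * x * (toC φ γ.1.1)ᴴ)) :
    x = ((c⁻¹ : ℝ) : ℂ) • (toC φ (γ⁻¹).1.1 * y * (toC φ (γ⁻¹).1.1)ᴴ) := by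
  have h1 : toC φ (γ⁻¹).1.1 * toC φ γ.1.1 = 1 := by
    rw [← toC_mul, ← Units.val_mul, ← Subgroup.coe_mul, inv_mul_cancel]; simp [toC_one]
  have hc' : ((c⁻¹ : ℝ) : ℂ) * (c : ℂ) = 1 := by
    rw [← Complex.ofReal_mul, inv_mul_cancel₀ hc.ne']; simp
  rw [h]
  have : toC φ (γ⁻¹).1.1 * (toC φ γ.1.1 * x * (toC φ γ.1.1)ᴴ) * (toC φ (γ⁻¹).1.1)ᴴ = x := by
    calc _ = (toC φ (γ⁻¹).1.1 * toC φ γ.1.1) * x * (toC φ (γ⁻¹).1.1 * toC φ γ.1.1)ᴴ := by
          rw [Matrix.conjTranspose_mul]; simp only [Matrix.mul_assoc]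
      _ = x := by rw [h1]; simp
  rw [Matrix.mul_smul, Matrix.smul_mul, smul_smul, hc', this, one_smul]

theorem orel_equiv : Equivalence (orel φ 𝔑) := by
  refine ⟨fun x => ⟨1, 1, one_pos, by simp [toC_one]⟩, ?_, ?_⟩
  · rintro x y ⟨γ, c, hc, h⟩
    exact ⟨γ⁻¹, c⁻¹, inv_pos.2 hc, orel_inv hc h⟩
  · rintro x y z ⟨γ, c, hc, h⟩ ⟨γ', c', hc', h'⟩
    exact ⟨γ' * γ, c' * c, mul_pos hc' hc, orel_comp h h'⟩

theorem H1_one {f : Gamma0 𝔑 → F} (hf : f ∈ H1 φ 𝔑 F) : f 1 = 0 := by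
  have := hf.1 1 1
  simpa using this

theorem H1_inv {f : Gamma0 𝔑 → F} (hf : f ∈ H1 φ 𝔑 F) (a : Gamma0 𝔑) : f a⁻¹ = - f a := by
  have := hf.1 a⁻¹ a
  rw [inv_mul_cancel, H1_one hf] at this
  exact eq_neg_of_add_eq_zero_left this.symm

/-- A class of `H¹(Y₀(𝔑), F)` has a primitive on `H₃`. -/
theorem exists_primitive {f : Gamma0 𝔑 → F} (hf : f ∈ H1 φ 𝔑 F) :
    ∃ b : Matrix (Fin 2) (Fin 2) ℂ → F, ∀ γ : Gamma0 𝔑, ∀ h : Matrix (Fin 2) (Fin 2) ℂ, h.PosDef →
      ∀ c : ℝ, 0 < c → b ((c : ℂ) • (toC φ γ.1.1 * h * (toC φ γ.1.1)ᴴ)) = b h + f γ := by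
  classical
  let S : Setoid (Matrix (Fin 2) (Fin 2) ℂ) := ⟨orel φ 𝔑, orel_equiv⟩
  let rep : Matrix (Fin 2) (Fin 2) ℂ → Matrix (Fin 2) (Fin 2) ℂ := fun x => (Quotient.mk S x).out
  have hrep : ∀ x, orel φ 𝔑 (rep x) x := fun x => Quotient.exact (Quotient.out_eq (Quotient.mk S x))
  choose g c hc hg using hrep
  refine ⟨fun x => f (g x), ?_⟩
  intro γ h hh a ha
  set y := (a : ℂ) • (toC φ γ.1.1 * h * (toC φ γ.1.1)ᴴ) with hy
  have hry : rep y = rep h := by
    have : Quotient.mk S y = Quotient.mk S h :=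
      Quotient.sound (orel_equiv.symm ⟨γ, a, ha, hy⟩)
    simp only [rep, this]
  have e1 := orel_inv (hc y) (hg y)
  have e2 := orel_comp (orel_comp (hg h) hy) e1
  rw [hry] at e2
  have hposr : (rep h).PosDef := by
    have e3 := orel_inv (hc h) (hg h)
    rw [e3]
    refine Matrix.PosDef.smul (posDef_conj hh (isUnit_toC φ _ (det_ne_zero_of_GL _))) ?_
    exact_mod_cast inv_pos.2 (hc h)
  have hz := hf.2 ((g y)⁻¹ * (γ * g h)) ⟨rep h, hposr, ((c y)⁻¹ * (a * c h))⁻¹, by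
    have := mul_pos (inv_pos.2 (hc y)) (mul_pos ha (hc h))
    positivity, by
    have hne : (((c y)⁻¹ * (a * c h) : ℝ) : ℂ) ≠ 0 := by
      have := mul_pos (inv_pos.2 (hc y)) (mul_pos ha (hc h))
      exact_mod_cast this.ne'
    conv_rhs => rw [e2]
    rw [smul_smul, Complex.ofReal_inv, inv_mul_cancel₀ hne, one_smul]⟩
  rw [hf.1, hf.1, H1_inv hf] at hz
  show f (g y) = f (g h) + f γ
  linear_combination -hz

end prim

section hecke

variable {φ : K →+* ℂ} {𝔑 : Ideal (𝓞 K)} {F : Type} [Field F] {π : 𝓞 K}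

theorem det_heckeRep (π : 𝓞 K) (j : Option (𝓞 K ⧸ Ideal.span {π})) : (heckeRep π j).det = π := by
  cases j <;> simp [heckeRep, Matrix.det_fin_two]

theorem heckeRep_lower (π : 𝓞 K) (j : Option (𝓞 K ⧸ Ideal.span {π})) :
    heckeRep π j 1 0 = 0 := by
  cases j <;> simp [heckeRep]

/-- Uniqueness in the Hecke correspondence. -/
theorem hecke_unique (hπ : Prime π) {γ γ' : Gamma0 𝔑} {j j' : Option (𝓞 K ⧸ Ideal.span {π})}
    (h : (γ.1 : Matrix (Fin 2) (Fin 2) (𝓞 K)) * heckeRep π j = γ'.1 * heckeRep π j') :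
    γ = γ' ∧ j = j' := by
  have hnu : ∀ x : 𝓞 K, π * x ≠ 1 := fun x hx => hπ.not_isUnit (IsUnit.of_mul_eq_one _ hx)
  have h1 : ((γ'⁻¹ * γ).1 : Matrix (Fin 2) (Fin 2) (𝓞 K)) * heckeRep π j = heckeRep π j' := by
    rw [Subgroup.coe_mul, Units.val_mul, Matrix.mul_assoc, h, ← Matrix.mul_assoc,
      ← Units.val_mul, ← Subgroup.coe_mul, inv_mul_cancel]
    simp
  set g := γ'⁻¹ * γ with hg
  have hjj : j = j' := by
    have e00 := congrFun (congrFun h1 0) 0
    have e01 := congrFun (congrFun h1 0) 1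
    have e10 := congrFun (congrFun h1 1) 0
    have e11 := congrFun (congrFun h1 1) 1
    cases j with
    | none =>
      cases j' with
      | none => rfl
      | some b' =>
        exfalso
        simp [heckeRep, Matrix.mul_apply, Fin.sum_univ_two] at e00
        exact hnu _ ((mul_comm _ _).trans e00)
    | some b =>
      cases j' with
      | none =>
        exfalso
        simp only [heckeRep, Matrix.mul_apply, Fin.sum_univ_two, Matrix.of_apply, Matrix.cons_val',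
          Matrix.cons_val_zero, Matrix.cons_val_one, Matrix.cons_val_fin_one, mul_one, mul_zero,
          add_zero] at e10 e11
        rw [e10, zero_mul, zero_add] at e11
        exact hnu _ ((mul_comm _ _).trans e11)
      | some b' =>
        simp only [heckeRep, Matrix.mul_apply, Fin.sum_univ_two, Matrix.of_apply, Matrix.cons_val',
          Matrix.cons_val_zero, Matrix.cons_val_one, Matrix.cons_val_fin_one, mul_one, mul_zero,
          add_zero] at e00 e01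
        rw [e00, one_mul] at e01
        congr 1
        have h2 : (Ideal.Quotient.mk (Ideal.span {π})) (Quotient.out b) =
            (Ideal.Quotient.mk (Ideal.span {π})) (Quotient.out b') := by
          rw [Ideal.Quotient.eq, Ideal.mem_span_singleton]
          exact ⟨-(g.1.1 0 1), by linear_combination e01⟩
        have h3 : ∀ c : 𝓞 K ⧸ Ideal.span {π},
            (Ideal.Quotient.mk (Ideal.span {π})) (Quotient.out c) = c := fun c => Quotient.out_eq c
        rw [h3, h3] at h2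
        exact h2
  refine ⟨?_, hjj⟩
  subst hjj
  have hd : (heckeRep π j).det ≠ 0 := by rw [det_heckeRep]; exact hπ.ne_zero
  have h4 : (γ.1 : Matrix (Fin 2) (Fin 2) (𝓞 K)) = γ'.1 := by
    have h5 := congrArg (fun A => A * (heckeRep π j).adjugate) h
    simp only [Matrix.mul_assoc, Matrix.mul_adjugate, Matrix.mul_smul, Matrix.mul_one] at h5
    exact smul_right_injective _ hd h5
  exact Subtype.ext (Units.ext h4)

theorem exists_step (hπ : Prime π) (hN : IsCoprime (Ideal.span {π}) 𝔑) (γ : Gamma0 𝔑)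
    (j : Option (𝓞 K ⧸ Ideal.span {π})) :
    ∃ x : Gamma0 𝔑 × Option (𝓞 K ⧸ Ideal.span {π}),
      heckeRep π j * (γ.1 : Matrix (Fin 2) (Fin 2) (𝓞 K)) =
        (x.1.1 : Matrix (Fin 2) (Fin 2) (𝓞 K)) * heckeRep π x.2 := by
  refine exists_hecke 𝔑 hπ hN (heckeRep π j * (γ.1 : Matrix (Fin 2) (Fin 2) (𝓞 K)))
    ⟨((Matrix.isUnit_iff_isUnit_det _).1 γ.1.isUnit).unit, ?_⟩ ?_
  · rw [Matrix.det_mul, det_heckeRep, mul_comm]; rfl
  · rw [Matrix.mul_apply, Fin.sum_univ_two, heckeRep_lower, zero_mul, zero_add]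
    exact 𝔑.mul_mem_left _ γ.2

/-- For a representative `δ_j` and `γ ∈ Γ₀(𝔑)`: the pair `(γ_j, j')`, `γ_j ∈ Γ₀(𝔑)`, with
`δ_j γ = γ_j δ_{j'}`. -/
noncomputable def heckeStep (hπ : Prime π) (hN : IsCoprime (Ideal.span {π}) 𝔑) (γ : Gamma0 𝔑)
    (j : Option (𝓞 K ⧸ Ideal.span {π})) : Gamma0 𝔑 × Option (𝓞 K ⧸ Ideal.span {π}) :=
  Classical.choose (exists_step hπ hN γ j)

theorem heckeStep_spec (hπ : Prime π) (hN : IsCoprime (Ideal.span {π}) 𝔑) (γ : Gamma0 𝔑)
    (j : Option (𝓞 K ⧸ Ideal.span {π})) :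
    heckeRep π j * (γ.1 : Matrix (Fin 2) (Fin 2) (𝓞 K)) =
      ((heckeStep hπ hN γ j).1.1 : Matrix (Fin 2) (Fin 2) (𝓞 K)) *
        heckeRep π (heckeStep hπ hN γ j).2 :=
  Classical.choose_spec (exists_step hπ hN γ j)

theorem heckeStep_mul (hπ : Prime π) (hN : IsCoprime (Ideal.span {π}) 𝔑) (γ γ' : Gamma0 𝔑)
    (j : Option (𝓞 K ⧸ Ideal.span {π})) :
    heckeStep hπ hN (γ * γ') j =
      ((heckeStep hπ hN γ j).1 * (heckeStep hπ hN γ' (heckeStep hπ hN γ j).2).1,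
        (heckeStep hπ hN γ' (heckeStep hπ hN γ j).2).2) := by
  have h1 := heckeStep_spec hπ hN (γ * γ') j
  have h2 : heckeRep π j * ((γ * γ' : Gamma0 𝔑).1 : Matrix (Fin 2) (Fin 2) (𝓞 K)) =
      (((heckeStep hπ hN γ j).1 * (heckeStep hπ hN γ' (heckeStep hπ hN γ j).2).1 : Gamma0 𝔑).1 :
        Matrix (Fin 2) (Fin 2) (𝓞 K)) *
        heckeRep π (heckeStep hπ hN γ' (heckeStep hπ hN γ j).2).2 := by
    rw [Subgroup.coe_mul, Units.val_mul, ← Matrix.mul_assoc, heckeStep_spec hπ hN γ j,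
      Matrix.mul_assoc, heckeStep_spec hπ hN γ' _, Subgroup.coe_mul, Units.val_mul,
      Matrix.mul_assoc]
  have h3 := hecke_unique hπ (h1.symm.trans h2)
  exact Prod.ext h3.1 h3.2

theorem heckeStep_one (hπ : Prime π) (hN : IsCoprime (Ideal.span {π}) 𝔑)
    (j : Option (𝓞 K ⧸ Ideal.span {π})) : heckeStep hπ hN (1 : Gamma0 𝔑) j = (1, j) := by
  have h1 := heckeStep_spec hπ hN (1 : Gamma0 𝔑) j
  have h3 := hecke_unique (γ := (1 : Gamma0 𝔑)) (j := j) hπ (by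
    rw [← h1]; simp)
  exact Prod.ext h3.1.symm h3.2.symm

/-- The permutation of the representatives defined by `γ`. -/
noncomputable def heckePerm (hπ : Prime π) (hN : IsCoprime (Ideal.span {π}) 𝔑) (γ : Gamma0 𝔑) :
    Option (𝓞 K ⧸ Ideal.span {π}) ≃ Option (𝓞 K ⧸ Ideal.span {π}) where
  toFun j := (heckeStep hπ hN γ j).2
  invFun j := (heckeStep hπ hN γ⁻¹ j).2
  left_inv j := by
    have := heckeStep_mul hπ hN γ γ⁻¹ j
    rw [mul_inv_cancel, heckeStep_one] at this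
    exact (congrArg Prod.snd this).symm
  right_inv j := by
    have := heckeStep_mul hπ hN γ⁻¹ γ j
    rw [inv_mul_cancel, heckeStep_one] at this
    exact (congrArg Prod.snd this).symm

theorem finite_idx (hπ : Prime π) : Finite (Option (𝓞 K ⧸ Ideal.span {π})) := by
  have : Finite (𝓞 K ⧸ Ideal.span {π}) :=
    Ideal.finiteQuotientOfFreeOfNeBot _ (by simpa using hπ.ne_zero)
  infer_instance

variable (φ 𝔑 F) in
/-- The Hecke operator `T_π` on `H¹(Y₀(𝔑), F)`, for a prime `π` of `𝓞 K` not dividing `𝔑`: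
`(T_π f)(γ) = ∑_j f(γ_j)`, where `Γ₀(𝔑) diag(1, π) Γ₀(𝔑)` is the disjoint union of the cosets
`Γ₀(𝔑) δ_j` and `δ_j γ = γ_j δ_{j'}` with `γ_j ∈ Γ₀(𝔑)`. -/
noncomputable def heckeT (hπ : Prime π) (hN : IsCoprime (Ideal.span {π}) 𝔑) :
    Module.End F (H1 φ 𝔑 F) where
  toFun f := ⟨fun γ => ∑ᶠ j, f.1 (heckeStep hπ hN γ j).1, by
    have := finite_idx hπ
    have := Fintype.ofFinite (Option (𝓞 K ⧸ Ideal.span {π}))
    simp only [finsum_eq_sum_of_fintype]
    constructor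
    · intro a b
      have h1 : ∀ j, f.1 (heckeStep hπ hN (a * b) j).1 = f.1 (heckeStep hπ hN a j).1 +
          f.1 (heckeStep hπ hN b (heckePerm hπ hN a j)).1 := by
        intro j
        rw [heckeStep_mul]
        exact f.2.1 _ _
      simp only [h1, Finset.sum_add_distrib]
      congr 1
      exact Equiv.sum_comp (heckePerm hπ hN a) (fun j => f.1 (heckeStep hπ hN b j).1)
    · rintro γ ⟨h, hh, c, hc, hγ⟩
      obtain ⟨b, hb⟩ := exists_primitive f.2
      -- `b'` is the image of `b`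
      have hδ : ∀ j, ((toC φ (heckeRep π j)) * h * (toC φ (heckeRep π j))ᴴ).PosDef := fun j =>
        posDef_conj hh (isUnit_toC φ _ (by rw [det_heckeRep]; exact hπ.ne_zero))
      have h1 : ∀ j, f.1 (heckeStep hπ hN γ j).1 =
          b ((toC φ (heckeRep π j)) * h * (toC φ (heckeRep π j))ᴴ) -
          b ((toC φ (heckeRep π (heckePerm hπ hN γ j))) * h *
            (toC φ (heckeRep π (heckePerm hπ hN γ j)))ᴴ) := by
        intro j
        have h2 := hb (heckeStep hπ hN γ j).1 _ (hδ (heckePerm hπ hN γ j)) c⁻¹ (inv_pos.2 hc)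
        have h3 : ((c⁻¹ : ℝ) : ℂ) • (toC φ (heckeStep hπ hN γ j).1.1.1 *
            ((toC φ (heckeRep π (heckePerm hπ hN γ j))) * h *
            (toC φ (heckeRep π (heckePerm hπ hN γ j)))ᴴ) *
            (toC φ (heckeStep hπ hN γ j).1.1.1)ᴴ) =
            (toC φ (heckeRep π j)) * h * (toC φ (heckeRep π j))ᴴ := by
          have h4 := congrArg (toC φ) (heckeStep_spec hπ hN γ j)
          rw [toC_mul, toC_mul] at h4
          calc _ = ((c⁻¹ : ℝ) : ℂ) • ((toC φ (heckeStep hπ hN γ j).1.1.1 *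
              (toC φ (heckeRep π (heckePerm hπ hN γ j)))) * h *
              ((toC φ (heckeStep hπ hN γ j).1.1.1) *
              (toC φ (heckeRep π (heckePerm hπ hN γ j))))ᴴ) := by
                simp only [Matrix.conjTranspose_mul, Matrix.mul_assoc]
            _ = ((c⁻¹ : ℝ) : ℂ) • ((toC φ (heckeRep π j) * toC φ γ.1.1) * h *
                (toC φ (heckeRep π j) * toC φ γ.1.1)ᴴ) := by rw [h4]; rfl
            _ = ((c⁻¹ : ℝ) : ℂ) • (toC φ (heckeRep π j) * (toC φ γ.1.1 * h * (toC φ γ.1.1)ᴴ) *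
                (toC φ (heckeRep π j))ᴴ) := by
                simp only [Matrix.conjTranspose_mul, Matrix.mul_assoc]
            _ = _ := by
                rw [hγ, Matrix.mul_smul, Matrix.smul_mul, smul_smul, ← Complex.ofReal_mul,
                  inv_mul_cancel₀ hc.ne', Complex.ofReal_one, one_smul]
        rw [h3] at h2
        rw [h2]; ring
      simp only [h1, Finset.sum_sub_distrib]
      rw [Equiv.sum_comp (heckePerm hπ hN γ)
        (fun j => b ((toC φ (heckeRep π j)) * h * (toC φ (heckeRep π j))ᴴ)), sub_self]⟩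
  map_add' f g := by
    apply Subtype.ext
    funext γ
    have := finite_idx hπ
    have := Fintype.ofFinite (Option (𝓞 K ⧸ Ideal.span {π}))
    simp [finsum_eq_sum_of_fintype, Finset.sum_add_distrib]
  map_smul' c f := by
    apply Subtype.ext
    funext γ
    have := finite_idx hπ
    have := Fintype.ofFinite (Option (𝓞 K ⧸ Ideal.span {π}))
    simp [finsum_eq_sum_of_fintype, Finset.mul_sum]

end hecke

end Pool.Agent.K4H51.SB
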