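import Pool.Agent.K4H51.SB.Field
import Pool.Agent.K4H51.SB.Hecke

/-!
# The level `𝔑 = (2 + 5ω)` of norm 89, the cosets of `Γ₀(𝔑)` and elliptic elements
-/

set_option autoImplicit false
set_option linter.unusedSimpArgs false
set_option linter.unusedSectionVars false

open NumberField Matrix
open scoped ComplexOrder

namespace Pool.Agent.K4H51.SB

instance prime89 : Fact (Nat.Prime 89) := ⟨by norm_num⟩

/-- The generator `2 + 5ω` of the level. -/
noncomputable def N0 : 𝓞 K11 := 2 + 5 * w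

/-- The level. -/
noncomputable def lev : Ideal (𝓞 K11) := Ideal.span {N0}

/-- `ℤ[ω] → 𝔽₈₉`, `ω ↦ 53`. -/
def r89 : R11 →+* ZMod 89 where
  toFun z := (z.re : ZMod 89) + (z.im : ZMod 89) * 53
  map_one' := by simp [QuadraticAlgebra.re_one, QuadraticAlgebra.im_one]
  map_zero' := by simp
  map_add' x y := by simp; ring
  map_mul' x y := by
    simp only [QuadraticAlgebra.re_mul, QuadraticAlgebra.im_mul]
    push_cast
    have h : (53 : ZMod 89) ^ 2 = 53 - 3 := by decide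
    linear_combination (-(x.im : ZMod 89) * (y.im : ZMod 89)) * h

/-- Reduction modulo the level. -/
noncomputable def f89 : 𝓞 K11 →+* ZMod 89 := r89.comp eO.symm.toRingHom

theorem f89_apply (a b : ℤ) : f89 ((a : 𝓞 K11) + (b : 𝓞 K11) * w) = (a : ZMod 89) + b * 53 := by
  have : (a : 𝓞 K11) + (b : 𝓞 K11) * w = eO ⟨a, b⟩ := rfl
  show r89 (eO.symm _) = _
  rw [this, RingEquiv.symm_apply_apply]
  rfl

theorem f89_w : f89 w = 53 := by
  have := f89_apply 0 1
  simpa using this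

theorem f89_N0 : f89 N0 = 0 := by
  have := f89_apply 2 5
  have e : N0 = ((2 : ℤ) : 𝓞 K11) + ((5 : ℤ) : 𝓞 K11) * w := by simp [N0]
  rw [e, this]
  decide

theorem mem_lev (x : 𝓞 K11) : x ∈ lev ↔ f89 x = 0 := by
  constructor
  · intro h
    obtain ⟨y, rfl⟩ := Ideal.mem_span_singleton'.1 h
    rw [map_mul, f89_N0, mul_zero]
  · intro h
    obtain ⟨a, b, rfl⟩ := repr_O x
    rw [f89_apply] at h
    have h1 : ((a + b * 53 : ℤ) : ZMod 89) = 0 := by push_cast; exact h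
    rw [ZMod.intCast_zmod_eq_zero_iff_dvd] at h1
    obtain ⟨k, hk⟩ := h1
    refine Ideal.mem_span_singleton'.2 ⟨(k : 𝓞 K11) * (7 - 5 * w) + b * (3 * w - 4), ?_⟩
    have ha : a = 89 * k - b * 53 := by push_cast at hk; linarith
    rw [ha, N0]
    push_cast
    linear_combination (-25 * (k : 𝓞 K11) + 15 * b) * w_sq

/-! ### Elliptic elements -/

theorem fixesPoint_of_pow (φ : K11 →+* ℂ) (g : GL (Fin 2) (𝓞 K11)) {n : ℕ} (hn : 0 < n)
    (h : g ^ n = 1) : FixesPoint φ g := by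
  set G := toC φ g.1 with hG
  have hGn : G ^ n = 1 := by
    have : ∀ m : ℕ, toC φ (g ^ m).1 = G ^ m := by
      intro m
      induction m with
      | zero => simp [toC_one]
      | succ m ih => rw [pow_succ, pow_succ, Units.val_mul, toC_mul, ih]
    rw [← this, h]; simp [toC_one]
  refine ⟨∑ i ∈ Finset.range n, G ^ i * (G ^ i)ᴴ, ?_, 1, one_pos, ?_⟩
  · obtain ⟨m, rfl⟩ : ∃ m, n = m + 1 := ⟨n - 1, by omega⟩
    rw [Finset.sum_range_succ']
    have h1 : (∑ i ∈ Finset.range m, G ^ (i + 1) * (G ^ (i + 1))ᴴ).PosSemidef := by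
      apply Finset.sum_induction _ Matrix.PosSemidef (fun _ _ h1 h2 => h1.add h2)
        Matrix.PosSemidef.zero
      intro i _
      exact Matrix.posSemidef_self_mul_conjTranspose _
    refine Matrix.PosDef.posSemidef_add h1 ?_
    simpa using (Matrix.PosDef.one : (1 : Matrix (Fin 2) (Fin 2) ℂ).PosDef)
  · rw [← hG, Complex.ofReal_one, one_smul, Finset.mul_sum, Finset.sum_mul]
    have e : ∀ i, G * (G ^ i * (G ^ i)ᴴ) * Gᴴ = G ^ (i + 1) * (G ^ (i + 1))ᴴ := by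
      intro i
      rw [pow_succ', Matrix.conjTranspose_mul]
      simp only [Matrix.mul_assoc]
    simp only [e]
    obtain ⟨m, rfl⟩ : ∃ m, n = m + 1 := ⟨n - 1, by omega⟩
    rw [Finset.sum_range_succ, Finset.sum_range_succ', hGn, pow_zero]

theorem fixesPoint_conj (φ : K11 →+* ℂ) {g : GL (Fin 2) (𝓞 K11)} (h : GL (Fin 2) (𝓞 K11))
    (hg : FixesPoint φ g) : FixesPoint φ (h * g * h⁻¹) := by
  obtain ⟨x, hx, c, hc, he⟩ := hg
  refine ⟨toC φ h.1 * x * (toC φ h.1)ᴴ, posDef_conj hx (isUnit_toC φ _ (det_ne_zero_of_GL h)),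
    c, hc, ?_⟩
  have h1 : toC φ h⁻¹.1 * toC φ h.1 = 1 := by
    rw [← toC_mul, ← Units.val_mul, inv_mul_cancel]; simp [toC_one]
  simp only [Units.val_mul, toC_mul, Matrix.conjTranspose_mul]
  calc _ = toC φ h.1 * (toC φ g.1 * (toC φ h⁻¹.1 * toC φ h.1) * x *
        ((toC φ h.1)ᴴ * (toC φ h⁻¹.1)ᴴ) * (toC φ g.1)ᴴ) * (toC φ h.1)ᴴ := by
        simp only [Matrix.mul_assoc]
    _ = toC φ h.1 * (toC φ g.1 * x * (toC φ g.1)ᴴ) * (toC φ h.1)ᴴ := by
        rw [← Matrix.conjTranspose_mul, h1]; simp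
    _ = _ := by rw [he, Matrix.mul_smul, Matrix.smul_mul]

/-! ### Cosets -/

/-- Bottom row index of a matrix. -/
noncomputable def idx (A : GL (Fin 2) (𝓞 K11)) : ℕ :=
  if f89 (A.1 1 0) = 0 then 89 else ((f89 (A.1 1 0))⁻¹ * f89 (A.1 1 1)).val

/-- `(0 -1; 1 x)`. -/
noncomputable def stM (x : ℕ) : Matrix (Fin 2) (Fin 2) (𝓞 K11) := !![0, -1; 1, (x : 𝓞 K11)]

theorem det_stM (x : ℕ) : (stM x).det = 1 := by simp [stM, Matrix.det_fin_two]

/-- Coset representatives. -/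
noncomputable def rep (x : ℕ) : GL (Fin 2) (𝓞 K11) :=
  if x = 89 then 1 else Matrix.GeneralLinearGroup.mk'' (stM x) (by rw [det_stM]; exact isUnit_one)

theorem rep_lt {x : ℕ} (hx : x ≠ 89) : (rep x).1 = stM x := by
  rw [rep, if_neg hx]; rfl

theorem rep_89 : rep 89 = 1 := by rw [rep, if_pos rfl]

theorem f89_unit {u : 𝓞 K11} (hu : IsUnit u) : f89 u ≠ 0 := by
  have := hu.map f89
  exact this.ne_zero

theorem idx_lt (A : GL (Fin 2) (𝓞 K11)) : idx A < 90 := by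
  rw [idx]; split_ifs
  · norm_num
  · have := ZMod.val_lt ((f89 (A.1 1 0))⁻¹ * f89 (A.1 1 1))
    omega

theorem idx_eq {A : GL (Fin 2) (𝓞 K11)} {k : ℕ} (hk : k < 89) (h0 : f89 (A.1 1 0) ≠ 0)
    (h1 : f89 (A.1 1 0) * (k : ZMod 89) = f89 (A.1 1 1)) : idx A = k := by
  rw [idx, if_neg h0, ← h1, ← mul_assoc, inv_mul_cancel₀ h0, one_mul, ZMod.val_natCast_of_lt hk]

theorem idx_eq_89 {A : GL (Fin 2) (𝓞 K11)} (h0 : f89 (A.1 1 0) = 0) : idx A = 89 := by
  rw [idx, if_pos h0]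

theorem idx_rep {x : ℕ} (hx : x < 90) : idx (rep x) = x := by
  by_cases h : x = 89
  · subst h; rw [rep_89]; exact idx_eq_89 (by simp)
  · have := rep_lt h
    apply idx_eq (by omega)
    · rw [this]; simp [stM]
    · rw [this]; simp [stM]

theorem mem_Gamma0 (A : GL (Fin 2) (𝓞 K11)) : A ∈ Gamma0 lev ↔ f89 (A.1 1 0) = 0 :=
  mem_lev _

theorem idx_mul_left {γ : GL (Fin 2) (𝓞 K11)} (hγ : γ ∈ Gamma0 lev)
    (A : GL (Fin 2) (𝓞 K11)) : idx (γ * A) = idx A := by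
  rw [mem_Gamma0] at hγ
  have hd : f89 (γ.1 1 1) ≠ 0 := by
    have h1 : IsUnit (γ.1.det) := (Matrix.isUnit_iff_isUnit_det _).1 γ.isUnit
    have h2 := f89_unit h1
    rw [Matrix.det_fin_two, map_sub, map_mul, map_mul, hγ, mul_zero, sub_zero] at h2
    exact right_ne_zero_of_mul h2
  have e0 : f89 ((γ * A).1 1 0) = f89 (γ.1 1 1) * f89 (A.1 1 0) := by
    rw [Units.val_mul, Matrix.mul_apply, Fin.sum_univ_two, map_add, map_mul, map_mul, hγ]; ring
  have e1 : f89 ((γ * A).1 1 1) = f89 (γ.1 1 1) * f89 (A.1 1 1) := by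
    rw [Units.val_mul, Matrix.mul_apply, Fin.sum_univ_two, map_add, map_mul, map_mul, hγ]; ring
  by_cases h0 : f89 (A.1 1 0) = 0
  · rw [idx_eq_89 h0, idx_eq_89 (by rw [e0, h0, mul_zero])]
  · rw [idx, idx, if_neg h0, if_neg (by rw [e0]; exact mul_ne_zero hd h0), e0, e1, mul_inv]
    congr 1
    field_simp

theorem mul_rep_inv_mem (A : GL (Fin 2) (𝓞 K11)) : A * (rep (idx A))⁻¹ ∈ Gamma0 lev := by
  rw [mem_Gamma0]
  by_cases h0 : f89 (A.1 1 0) = 0
  · rw [idx_eq_89 h0, rep_89, inv_one, mul_one]; exact h0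
  · have hlt : idx A ≠ 89 := by
      rw [idx, if_neg h0]
      exact (ZMod.val_lt _).ne
    have e : ((rep (idx A))⁻¹).1 = !![(idx A : 𝓞 K11), 1; -1, 0] := by
      have h1 : ((rep (idx A))⁻¹).1 * (rep (idx A)).1 = 1 := by
        rw [← Units.val_mul, inv_mul_cancel]; rfl
      have h2 : (!![(idx A : 𝓞 K11), 1; -1, 0] : Matrix (Fin 2) (Fin 2) (𝓞 K11)) *
          (rep (idx A)).1 = 1 := by
        rw [rep_lt hlt]
        apply Matrix.ext
        intro i j
        fin_cases i <;> fin_cases j <;> simp [stM, Matrix.mul_apply, Fin.sum_univ_two]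
      have h3 : (rep (idx A)).1 * ((rep (idx A))⁻¹).1 = 1 := by
        rw [← Units.val_mul, mul_inv_cancel]; rfl
      calc ((rep (idx A))⁻¹).1 = (!![(idx A : 𝓞 K11), 1; -1, 0] * (rep (idx A)).1) *
            ((rep (idx A))⁻¹).1 := by rw [h2, one_mul]
        _ = _ := by rw [Matrix.mul_assoc, h3, Matrix.mul_one]
    rw [Units.val_mul, e, Matrix.mul_apply, Fin.sum_univ_two]
    simp only [Matrix.of_apply, Matrix.cons_val', Matrix.cons_val_zero, Matrix.cons_val_one,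
      Matrix.cons_val_fin_one, map_add, map_mul, map_neg, map_one, map_natCast]
    have h1 : ((idx A : ℕ) : ZMod 89) = (f89 (A.1 1 0))⁻¹ * f89 (A.1 1 1) := by
      rw [idx, if_neg h0, ZMod.natCast_val, ZMod.cast_id]
    rw [h1, ← mul_assoc, mul_inv_cancel₀ h0]
    ring

section cocycle

variable {F : Type} [Field F]

open scoped Classical in
/-- Extension by zero of a function on `Γ₀`. -/
noncomputable def ev (f : Gamma0 lev → F) (A : GL (Fin 2) (𝓞 K11)) : F :=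
  if h : A ∈ Gamma0 lev then f ⟨A, h⟩ else 0

theorem ev_mem (f : Gamma0 lev → F) {A : GL (Fin 2) (𝓞 K11)} (h : A ∈ Gamma0 lev) :
    ev f A = f ⟨A, h⟩ := by rw [ev, dif_pos h]

/-- The action on cosets. -/
noncomputable def act (x : ℕ) (g : GL (Fin 2) (𝓞 K11)) : ℕ := idx (rep x * g)

theorem act_lt (x : ℕ) (g : GL (Fin 2) (𝓞 K11)) : act x g < 90 := idx_lt _

theorem act_mul (x : ℕ) (g h : GL (Fin 2) (𝓞 K11)) : act x (g * h) = act (act x g) h := by
  have h1 : rep x * (g * h) = (rep x * g * (rep (act x g))⁻¹) * (rep (act x g) * h) := by group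
  have m : rep x * g * (rep (act x g))⁻¹ ∈ Gamma0 lev := mul_rep_inv_mem _
  rw [act, h1, idx_mul_left m]
  rfl

theorem act_one {x : ℕ} (hx : x < 90) : act x 1 = x := by rw [act, mul_one, idx_rep hx]

/-- The cocycle of `f`. -/
noncomputable def coc (f : Gamma0 lev → F) (x : ℕ) (g : GL (Fin 2) (𝓞 K11)) : F :=
  ev f (rep x * g * (rep (act x g))⁻¹)

theorem coc_mul {φ : K11 →+* ℂ} {f : Gamma0 lev → F} (hf : f ∈ H1 φ lev F) (x : ℕ)
    (g h : GL (Fin 2) (𝓞 K11)) : coc f x (g * h) = coc f x g + coc f (act x g) h := by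
  rw [coc, coc, coc, act_mul]
  have m1 : rep x * g * (rep (act x g))⁻¹ ∈ Gamma0 lev := mul_rep_inv_mem _
  have m2 : rep (act x g) * h * (rep (act (act x g) h))⁻¹ ∈ Gamma0 lev := mul_rep_inv_mem _
  have e : rep x * (g * h) * (rep (act (act x g) h))⁻¹ =
      (rep x * g * (rep (act x g))⁻¹) * (rep (act x g) * h * (rep (act (act x g) h))⁻¹) := by
    group
  rw [e, ev_mem f m1, ev_mem f m2, ev_mem f (mul_mem m1 m2), ← hf.1]
  rfl

/-- The cocycle vanishes at elliptic elements fixing the coset. -/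
theorem coc_elliptic {φ : K11 →+* ℂ} {f : Gamma0 lev → F} (hf : f ∈ H1 φ lev F) (x : ℕ)
    {g : GL (Fin 2) (𝓞 K11)} (hg : FixesPoint φ g) (hx : act x g = x) : coc f x g = 0 := by
  have m : rep x * g * (rep (act x g))⁻¹ ∈ Gamma0 lev := mul_rep_inv_mem _
  rw [coc, ev_mem f m]
  apply hf.2
  show FixesPoint φ (rep x * g * (rep (act x g))⁻¹)
  rw [hx]
  exact fixesPoint_conj φ _ hg

theorem coc_one {φ : K11 →+* ℂ} {f : Gamma0 lev → F} (hf : f ∈ H1 φ lev F) {x : ℕ}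
    (hx : x < 90) : coc f x 1 = 0 :=
  coc_elliptic hf x (fixesPoint_of_pow φ 1 one_pos (one_pow 1)) (act_one hx)

end cocycle

end Pool.Agent.K4H51.SB
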