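import Pool.Agent.K4H51.SB.Iner
import Pool.Agent.K4H51.SB.Level

/-!
# Ramification above the level
-/

set_option autoImplicit false
set_option linter.unusedSectionVars false
set_option linter.unusedSimpArgs false

open NumberField

namespace Pool.Agent.K4H51.SB

theorem lev_isPrime : lev.IsPrime := by
  have h : lev = RingHom.ker f89 := by ext x; rw [mem_lev]; rfl
  rw [h]; exact RingHom.ker_isPrime f89

theorem N0_ne : N0 ≠ 0 := by
  intro h
  have h1 : ((2 : ℤ) : 𝓞 K11) + ((5 : ℤ) : 𝓞 K11) * w = 0 := by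
    rw [← h]; simp [N0]
  have := repr_unique h1
  norm_num at this

theorem lev_ne_bot : lev ≠ ⊥ := by
  intro h
  exact N0_ne (Ideal.span_singleton_eq_bot.1 h)

theorem lev_isMaximal : lev.IsMaximal := lev_isPrime.isMaximal lev_ne_bot

theorem N0_mem : N0 ∈ lev := Ideal.mem_span_singleton_self N0

section

variable {L : Type} [Field L] [NumberField L] [Algebra K11 L]

theorem N0_map : algebraMap (𝓞 K11) (𝓞 L) N0 = 2 + 5 * WW L := by
  unfold N0 WW
  rw [map_add, map_mul, map_ofNat, map_ofNat]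

theorem lev_map_le (P : Ideal (𝓞 L)) (n : ℕ) :
    Ideal.map (algebraMap (𝓞 K11) (𝓞 L)) lev ≤ P ^ n ↔ 2 + 5 * WW L ∈ P ^ n := by
  rw [lev, Ideal.map_span, Set.image_singleton, Ideal.span_singleton_le_iff_mem, N0_map]

theorem card_inertia [IsGalois K11 L] (P : Ideal (𝓞 L)) (hP : P.IsPrime)
    (hl : P.comap (algebraMap (𝓞 K11) (𝓞 L)) = lev) :
    Nat.card (P.inertia (L ≃ₐ[K11] L)) = Ideal.ramificationIdx' lev P := by
  have h1 : lev.IsPrime := lev_isPrime
  have h2 : P.LiesOver lev := ⟨hl.symm⟩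
  have h3 : lev.IsMaximal := lev_isMaximal
  have : PerfectField lev.ResidueField := by
    have hf : Finite (𝓞 K11 ⧸ lev) := Ideal.finiteQuotientOfFreeOfNeBot _ lev_ne_bot
    have hf2 : Finite lev.ResidueField :=
      Finite.of_surjective _ (Ideal.bijective_algebraMap_quotient_residueField lev).2
    infer_instance
  rw [Ideal.card_inertia_eq_ramificationIdxIn (G := L ≃ₐ[K11] L) lev P,
    Ideal.ramificationIdxIn_eq_ramificationIdx lev P (L ≃ₐ[K11] L),
    Ideal.ramificationIdx'_eq_ramificationIdx lev P lev_ne_bot]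

end

namespace Lab

section

variable {L : Type} [Field L] [NumberField L] [Algebra K11 L] [IsGalois K11 L] (R : Lab L)

theorem exists_inertia (hgen : ∀ τ : L ≃ₐ[K11] L, R.permF τ = 1 → R.permG τ = 1 → τ = 1)
    {P : Ideal (𝓞 L)} (hP : P.IsPrime) (hl : P.comap (algebraMap (𝓞 K11) (𝓞 L)) = lev)
    (h2 : (2 : 𝓞 L) ∉ P) (hN : 2 + 5 * WW L ∈ P) :
    ∃ τ : L ≃ₐ[K11] L, (∀ x : 𝓞 L, τ • x - x ∈ P) ∧ R.permF τ ≠ 1 := by
  by_contra hc
  push Not at hc
  have h1 : P.inertia (L ≃ₐ[K11] L) = ⊥ := by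
    rw [eq_bot_iff]
    intro τ hτ
    rw [Subgroup.mem_bot]
    exact hgen τ (hc τ hτ) (R.permG_inertia hP h2 hτ)
  have h3 := card_inertia P hP hl
  rw [h1, Subgroup.card_bot] at h3
  have h4 := (lev_map_le P 2).2 (R.mem_sq hP h2 hN)
  have h5 : Ideal.ramificationIdx' lev P ≠ 1 := by
    rw [Ideal.ramificationIdx'_ne_one_iff]
    · exact h4
    · have := (lev_map_le P 1).2 (by rw [pow_one]; exact hN)
      rwa [pow_one] at this
  exact h5 h3.symm

/-- On the inertia group at a prime above the level there is at most one non trivial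
permutation. -/
theorem inertia_unique {P : Ideal (𝓞 L)} (hP : P.IsPrime) 
    (h2 : (2 : 𝓞 L) ∉ P) (hN : 2 + 5 * WW L ∈ P) {σ τ : L ≃ₐ[K11] L}
    (hσ : ∀ x : 𝓞 L, σ • x - x ∈ P) (hτ : ∀ x : 𝓞 L, τ • x - x ∈ P) (h1 : R.permF σ ≠ 1)
    (h3 : R.permF τ ≠ 1) : R.permF σ = R.permF τ := by
  have hστ : ∀ x : 𝓞 L, (σ * τ) • x - x ∈ P := by
    intro x
    have e : (σ * τ) • x - x = (σ • (τ • x) - τ • x) + (τ • x - x) := by
      rw [mul_smul]; ring
    rw [e]
    exact P.add_mem (hσ _) (hτ _)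
  have k1 := R.permF_not_cycle hP h2 hN hσ
  have k2 := R.permF_not_cycle hP h2 hN hτ
  have k3 := R.permF_not_cycle hP h2 hN hστ
  rw [map_mul] at k3
  revert h1 h3 k1 k2 k3
  generalize R.permF σ = p
  generalize R.permF τ = q
  revert p q
  decide

theorem odd_of_inertia {P : Ideal (𝓞 L)} (hP : P.IsPrime) 
    (h2 : (2 : 𝓞 L) ∉ P) (hN : 2 + 5 * WW L ∈ P) {σ : L ≃ₐ[K11] L}
    (hσ : ∀ x : 𝓞 L, σ • x - x ∈ P) (h1 : R.permF σ ≠ 1) :
    Equiv.Perm.sign (R.permF σ) = -1 := by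
  have k1 := R.permF_not_cycle hP h2 hN hσ
  revert k1 h1
  generalize R.permF σ = p
  revert p
  decide

theorem not_mem_pow (hgen : ∀ τ : L ≃ₐ[K11] L, R.permF τ = 1 → R.permG τ = 1 → τ = 1)
    {P : Ideal (𝓞 L)} (hP : P.IsPrime) (hl : P.comap (algebraMap (𝓞 K11) (𝓞 L)) = lev)
    (h2 : (2 : 𝓞 L) ∉ P) (hN : 2 + 5 * WW L ∈ P) : 2 + 5 * WW L ∉ P ^ 4 := by
  intro h4
  obtain ⟨t, ht, ht1⟩ := R.exists_inertia hgen hP hl h2 hN
  have hsub : (P.inertia (L ≃ₐ[K11] L) : Set (L ≃ₐ[K11] L)) ⊆ {1, t} := by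
    intro σ hσ
    by_cases h : R.permF σ = 1
    · left
      exact hgen σ h (R.permG_inertia hP h2 hσ)
    · right
      have h5 := R.inertia_unique hP h2 hN hσ ht h ht1
      have h6 : σ * t⁻¹ = 1 := by
        apply hgen
        · rw [map_mul, map_inv, h5, mul_inv_cancel]
        · rw [map_mul, map_inv, R.permG_inertia hP h2 hσ, R.permG_inertia hP h2 ht]; simp
      exact mul_inv_eq_one.1 h6
  have hcard : Nat.card (P.inertia (L ≃ₐ[K11] L)) ≤ 2 := by
    have h7 := Set.ncard_le_ncard hsub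
    have h8 : ({1, t} : Set (L ≃ₐ[K11] L)).ncard ≤ 2 := Set.ncard_insert_le _ _ |>.trans (by
      rw [Set.ncard_singleton])
    exact h7.trans h8
  rw [card_inertia P hP hl] at hcard
  have h9 := (lev_map_le P 4).2 h4
  have hP0 : P ≠ ⊥ := by
    rintro rfl
    apply lev_ne_bot
    rw [← hl, eq_bot_iff]
    intro x hx
    rw [Ideal.mem_comap, Ideal.mem_bot] at hx
    rw [Ideal.mem_bot]
    exact (FaithfulSMul.algebraMap_injective (𝓞 K11) (𝓞 L)) (by rw [hx, map_zero])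
  have hne : Ideal.map (algebraMap (𝓞 K11) (𝓞 L)) lev ≠ ⊥ := Ideal.map_ne_bot_of_ne_bot lev_ne_bot
  have h10 := Ideal.IsDedekindDomain.ramificationIdx'_eq_normalizedFactors_count hne hP hP0
  have h11 := Ideal.dvd_iff_le.2 h9
  rw [UniqueFactorizationMonoid.dvd_iff_normalizedFactors_le_normalizedFactors
    (pow_ne_zero _ hP0) hne, UniqueFactorizationMonoid.normalizedFactors_pow,
    UniqueFactorizationMonoid.normalizedFactors_irreducible
      (Ideal.prime_of_isPrime hP0 hP).irreducible, normalize_eq,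
      Multiset.nsmul_singleton, ← Multiset.le_count_iff_replicate_le] at h11
  omega

end

end Lab

end Pool.Agent.K4H51.SB
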