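import Pool.Agent.K4H51.SB.Split
import Pool.Agent.K4H51.SB.Ram
import Pool.Agent.K4H51.SB.Prim

/-!
# Conductor and character of the representation
-/

set_option autoImplicit false
set_option linter.unusedSectionVars false
set_option linter.unusedSimpArgs false

open NumberField IsDedekindDomain Matrix

namespace Pool.Agent.K4H51.SB

theorem mem_ramGroup {L : IntermediateField K11 (AlgebraicClosure K11)} {P : Ideal (𝓞 L)} {i : ℕ}
    {τ : L ≃ₐ[K11] L} : τ ∈ ramGroup L P i ↔ ∀ x : 𝓞 L, τ • x - x ∈ P ^ (i + 1) := Iff.rfl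

theorem mem_P_of_ram {P : Ideal (𝓞 LL)} {i : ℕ} {τ : LL ≃ₐ[K11] LL} (h : τ ∈ ramGroup LL P i) :
    ∀ x : 𝓞 LL, τ • x - x ∈ P := fun x => Ideal.pow_le_self (Nat.succ_ne_zero i) (h x)

theorem fixed_top (R : Lab LL) (H : Subgroup (LL ≃ₐ[K11] LL))
    (h : ∀ τ ∈ H, R.permF τ = 1 ∧ R.permG τ = 1) : fixedVectors R.rho LL H = ⊤ := by
  rw [eq_top_iff]
  intro v _ σ hσ
  obtain ⟨h1, h2⟩ := h _ hσ
  rw [R.rho_apply, R.repL_eq _ h2, h1, Mb_one, one_mulVec]

theorem artinSum_zero (R : Lab LL) (P : Ideal (𝓞 LL))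
    (h : ∀ i, ∀ τ ∈ ramGroup LL P i, R.permF τ = 1 ∧ R.permG τ = 1) :
    artinSum R.rho LL P = 0 := by
  unfold artinSum
  have : ∀ i : ℕ, Nat.card (ramGroup LL P i) *
      (2 - Module.finrank (Fbar 2) (fixedVectors R.rho LL (ramGroup LL P i))) = 0 := by
    intro i
    rw [fixed_top R _ (h i), finrank_top, Module.finrank_fin_fun, Nat.sub_self, mul_zero]
  simp only [this, finsum_zero]

theorem exists_fixed_vec (p : Equiv.Perm (Fin 3)) (hp : Equiv.Perm.sign p = -1) :
    ∃ v : Fin 2 → Fbar 2, v ≠ 0 ∧ Mb p *ᵥ v = v := by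
  have h : ∃ x y : ZMod 2, (x ≠ 0 ∨ y ≠ 0) ∧ M2 p 0 0 * x + M2 p 0 1 * y = x ∧
      M2 p 1 0 * x + M2 p 1 1 * y = y := by
    revert p; decide +kernel
  obtain ⟨x, y, h0, h1, h2⟩ := h
  refine ⟨![algebraMap (ZMod 2) (Fbar 2) x, algebraMap (ZMod 2) (Fbar 2) y], ?_, ?_⟩
  · intro hc
    have c0 := congrFun hc 0
    have c1 := congrFun hc 1
    simp only [Matrix.cons_val_zero, Matrix.cons_val_one, Matrix.cons_val_fin_one,
      Pi.zero_apply] at c0 c1
    rcases h0 with h0 | h0
    · exact h0 ((algebraMap (ZMod 2) (Fbar 2)).injective (by rw [c0, map_zero]))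
    · exact h0 ((algebraMap (ZMod 2) (Fbar 2)).injective (by rw [c1, map_zero]))
  · funext i
    fin_cases i
    · have := congrArg (algebraMap (ZMod 2) (Fbar 2)) h1
      rw [map_add, map_mul, map_mul] at this
      simpa [Matrix.mulVec, dotProduct, Fin.sum_univ_two, Mb] using this
    · have := congrArg (algebraMap (ZMod 2) (Fbar 2)) h2
      rw [map_add, map_mul, map_mul] at this
      simpa [Matrix.mulVec, dotProduct, Fin.sum_univ_two, Mb] using this

theorem M2_ne_one (p : Equiv.Perm (Fin 3)) (hp : p ≠ 1) : M2 p ≠ 1 := by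
  revert p; decide +kernel

theorem exists_moved_vec (p : Equiv.Perm (Fin 3)) (hp : p ≠ 1) :
    ∃ v : Fin 2 → Fbar 2, Mb p *ᵥ v ≠ v := by
  by_contra hc
  push Not at hc
  have h1 : Mb p = 1 := by
    apply Matrix.ext_of_mulVec_single
    intro i
    rw [hc, one_mulVec]
  apply M2_ne_one p hp
  ext i j
  have := congrFun (congrFun h1 i) j
  apply (algebraMap (ZMod 2) (Fbar 2)).injective
  have h3 : algebraMap (ZMod 2) (Fbar 2) (M2 p i j) = Mb p i j := rfl
  rw [h3, this, Matrix.one_apply, Matrix.one_apply]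
  split_ifs <;> simp

/-- The tame part at a prime above the level. -/
theorem finrank_fixed (R : Lab LL) {P : Ideal (𝓞 LL)} (hP : P.IsPrime)
    (hl : P.comap (algebraMap (𝓞 K11) (𝓞 LL)) = lev)
    (h2 : (2 : 𝓞 LL) ∉ P) (hN : 2 + 5 * WW LL ∈ P) :
    Module.finrank (Fbar 2) (fixedVectors R.rho LL (ramGroup LL P 0)) = 1 := by
  obtain ⟨t, ht, ht1⟩ := R.exists_inertia (lab_ext R) hP hl h2 hN
  have htr : t ∈ ramGroup LL P 0 := by
    rw [mem_ramGroup]; simpa using ht
  obtain ⟨v, hv0, hv⟩ := exists_fixed_vec _ (R.odd_of_inertia hP h2 hN ht ht1)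
  obtain ⟨u, hu⟩ := exists_moved_vec _ ht1
  obtain ⟨σt, hσt⟩ := exists_res t
  have hne : fixedVectors R.rho LL (ramGroup LL P 0) ≠ ⊤ := by
    intro h
    have hum : u ∈ fixedVectors R.rho LL (ramGroup LL P 0) := by rw [h]; trivial
    have := hum σt (by rw [hσt]; exact htr)
    rw [R.rho_apply, hσt, R.repL_eq _ (R.permG_inertia hP h2 ht)] at this
    exact hu this
  have hne' : fixedVectors R.rho LL (ramGroup LL P 0) ≠ ⊥ := by
    intro h
    apply hv0
    rw [← Submodule.mem_bot (Fbar 2), ← h]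
    intro σ hσ
    have hσ' := mem_P_of_ram hσ
    rw [R.rho_apply, R.repL_eq _ (R.permG_inertia hP h2 hσ')]
    by_cases h1 : R.permF (AlgEquiv.restrictNormalHom LL σ) = 1
    · rw [h1, Mb_one, one_mulVec]
    · rw [R.inertia_unique hP h2 hN hσ' ht h1 ht1]
      exact hv
  have k1 : Module.finrank (Fbar 2) (fixedVectors R.rho LL (ramGroup LL P 0)) < 2 := by
    have := Submodule.finrank_lt hne
    rwa [Module.finrank_fin_fun] at this
  have k2 : 0 < Module.finrank (Fbar 2) (fixedVectors R.rho LL (ramGroup LL P 0)) := by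
    rw [Module.finrank_pos_iff, Submodule.nontrivial_iff_ne_bot]
    exact hne'
  omega

theorem serre_conductor_LL (R : Lab LL) (v : HeightOneSpectrum (𝓞 K11)) :
    (((2 : ℕ) : 𝓞 K11) ∈ v.asIdeal → multiplicity v.asIdeal lev = 0) ∧
    (((2 : ℕ) : 𝓞 K11) ∉ v.asIdeal → ∀ P : Ideal (𝓞 LL), P.IsPrime →
      P.comap (algebraMap (𝓞 K11) (𝓞 LL)) = v.asIdeal →
      multiplicity v.asIdeal lev * Nat.card (ramGroup LL P 0) = artinSum R.rho LL P) := by
  constructor
  · intro h2
    rw [multiplicity_eq_zero]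
    intro hd
    have h2' : (2 : 𝓞 K11) ∈ v.asIdeal := by exact_mod_cast h2
    exact N0_notMem_of_two v.isPrime h2' (Ideal.dvd_iff_le.1 hd N0_mem)
  · intro h2v P hP hPv
    have h2 : (2 : 𝓞 LL) ∉ P := by
      intro h
      apply h2v
      rw [← hPv, Ideal.mem_comap, map_natCast]
      exact_mod_cast h
    by_cases hN : N0 ∈ v.asIdeal
    · -- the level
      have hv : v.asIdeal = lev := by
        symm
        apply lev_isMaximal.eq_of_le v.isPrime.ne_top
        rw [lev, Ideal.span_singleton_le_iff_mem]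
        exact hN
      have hl : P.comap (algebraMap (𝓞 K11) (𝓞 LL)) = lev := hPv.trans hv
      have hN' : 2 + 5 * WW LL ∈ P := by
        rw [← N0_map]
        have : N0 ∈ P.comap (algebraMap (𝓞 K11) (𝓞 LL)) := by rw [hPv]; exact hN
        exact this
      have hm : multiplicity v.asIdeal lev = 1 := by
        rw [hv]
        exact multiplicity_self
      have hfin := finrank_fixed R hP hl h2 hN'
      rw [hm, one_mul]
      unfold artinSum
      rw [finsum_eq_single _ 0, hfin]
      · norm_num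
      · intro i hi
        have : fixedVectors R.rho LL (ramGroup LL P i) = ⊤ := by
          apply fixed_top
          intro τ hτ
          refine ⟨?_, R.permG_inertia hP h2 (mem_P_of_ram hτ)⟩
          by_contra hc
          apply R.not_mem_pow (lab_ext R) hP hl h2 hN'
          apply R.pow_four_of_moved hc hP h2
          intro x
          exact Ideal.pow_le_pow_right (by omega) (hτ x)
        rw [this, finrank_top, Module.finrank_fin_fun, Nat.sub_self, mul_zero]
    · have hN' : 2 + 5 * WW LL ∉ P := by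
        intro h
        apply hN
        rw [← hPv, Ideal.mem_comap, N0_map]
        exact h
      have hm : multiplicity v.asIdeal lev = 0 := by
        rw [multiplicity_eq_zero]
        intro hd
        exact hN (Ideal.dvd_iff_le.1 hd N0_mem)
      rw [hm, zero_mul, artinSum_zero]
      intro i τ hτ
      exact ⟨R.permF_inertia hP h2 hN' (mem_P_of_ram hτ),
        R.permG_inertia hP h2 (mem_P_of_ram hτ)⟩

theorem serre_conductor (R : Lab LL) : HasSerreConductor R.rho lev :=
  ⟨lev_ne_bot, LL, instFD, instGalois, fix_le R, serre_conductor_LL R⟩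

theorem trivial_character (R : Lab LL) : HasTrivialCharacter R.rho := by
  refine ⟨LL, instFD, instGalois, fix_le R, ?_⟩
  intro P hP h2 σ hσ
  have h2' : (2 : 𝓞 LL) ∉ P := by exact_mod_cast h2
  rw [R.rho_apply]
  apply R.repL_det
  rw [R.permG_inertia hP h2' (mem_P_of_ram hσ)]
  rfl

end Pool.Agent.K4H51.SB
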