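import Pool.Agent.K4H51.SB.Points

/-!
# The field with four elements and the points of the Raynaud group schemes
-/

set_option autoImplicit false
set_option linter.unusedSectionVars false

open Polynomial TensorProduct

namespace Pool.Agent.K4H51.SB

instance factF4 : Fact (∀ r : ZMod 2, r ^ 2 ≠ 1 + 1 * r) := ⟨by decide⟩

/-- The field with four elements. -/
abbrev F4 : Type := QuadraticAlgebra (ZMod 2) 1 1

/-- The generator of `F4`. -/
def z4 : F4 := ⟨0, 1⟩

theorem F4_cases (a : F4) : a = 0 ∨ a = 1 ∨ a = z4 ∨ a = z4 ^ 2 := by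
  have h : ∀ x y : ZMod 2, (⟨x, y⟩ : F4) = 0 ∨ (⟨x, y⟩ : F4) = 1 ∨ (⟨x, y⟩ : F4) = z4 ∨
      (⟨x, y⟩ : F4) = z4 * z4 := by decide
  rw [pow_two]
  exact h a.re a.im

theorem z4_rel : z4 ^ 2 + z4 + 1 = 0 := by rw [pow_two]; decide

theorem z4_sq : z4 ^ 2 = z4 + 1 := by rw [pow_two]; decide

theorem z4_ne_zero : z4 ≠ 0 := by decide

theorem z4_ne_one : z4 ≠ 1 := by decide

theorem z4_cube : z4 ^ 3 = 1 := by
  have : z4 ^ 3 = z4 * z4 * z4 := by ring
  rw [this]; decide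

theorem two_F4 (a : F4) : a + a = 0 := by
  have h : ∀ x y : ZMod 2, (⟨x, y⟩ : F4) + ⟨x, y⟩ = 0 := by decide
  exact h a.re a.im

theorem z4_sq_ne_zero : z4 ^ 2 ≠ 0 := pow_ne_zero _ z4_ne_zero

theorem z4_sq_ne_one : z4 ^ 2 ≠ 1 := by rw [pow_two]; decide

theorem z4_sq_ne : z4 ^ 2 ≠ z4 := by rw [pow_two]; decide

instance : Finite F4 := Finite.of_equiv (ZMod 2 × ZMod 2) (QuadraticAlgebra.equivProd 1 1).symm

section teich

variable {E : Type} [Field E] (ζ : E)

/-- The Teichmüller map. -/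
def tm (a : F4) : E := if a = 0 then 0 else if a = 1 then 1 else if a = z4 then ζ else ζ ^ 2

@[simp] theorem tm_zero : tm ζ 0 = 0 := by simp [tm]

@[simp] theorem tm_one : tm ζ 1 = 1 := by simp [tm]

@[simp] theorem tm_z4 : tm ζ z4 = ζ := by simp [tm, z4_ne_zero, z4_ne_one]

@[simp] theorem tm_z4_sq : tm ζ (z4 ^ 2) = ζ ^ 2 := by
  rw [tm, if_neg z4_sq_ne_zero, if_neg z4_sq_ne_one, if_neg z4_sq_ne]

variable {ζ}

theorem zeta_cube (hζ : ζ ^ 2 + ζ + 1 = 0) : ζ ^ 3 = 1 := by linear_combination (ζ - 1) * hζ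

theorem tm_mul (hζ : ζ ^ 2 + ζ + 1 = 0) (a b : F4) : tm ζ (a * b) = tm ζ a * tm ζ b := by
  have h3 := zeta_cube hζ
  have h4 := z4_cube
  have e1 : z4 * z4 = z4 ^ 2 := by ring
  have e2 : z4 * z4 ^ 2 = 1 := by rw [← h4]; ring
  have e3 : z4 ^ 2 * z4 = 1 := by rw [← h4]; ring
  have e4 : z4 ^ 2 * z4 ^ 2 = z4 := by
    have : z4 ^ 2 * z4 ^ 2 = z4 ^ 3 * z4 := by ring
    rw [this, h4, one_mul]
  rcases F4_cases a with rfl | rfl | rfl | rfl <;> rcases F4_cases b with rfl | rfl | rfl | rfl <;>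
    simp only [zero_mul, mul_zero, one_mul, mul_one, tm_zero, tm_one, tm_z4, tm_z4_sq, e1, e2, e3,
      e4]
  · ring
  · linear_combination -h3
  · linear_combination -h3
  · linear_combination (-ζ) * h3

theorem tm_inj (hζ : ζ ^ 2 + ζ + 1 = 0) (h3 : (3 : E) ≠ 0) {a b : F4} (h : tm ζ a = tm ζ b) :
    a = b := by
  have k3 := zeta_cube hζ
  have n0 : ζ ≠ 0 := by rintro rfl; simp at k3
  have n1 : ζ ≠ 1 := by rintro rfl; apply h3; rw [← hζ]; norm_num
  have n2 : ζ ^ 2 ≠ 1 := by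
    intro h2
    have : ζ = 1 := by rw [← k3, pow_succ, h2, one_mul]
    exact n1 this
  have n3 : ζ ^ 2 ≠ ζ := by
    intro h2
    have h5 : ζ * ζ = ζ * 1 := by rw [mul_one, ← pow_two, h2]
    exact n1 (mul_left_cancel₀ n0 h5)
  have n4 : ζ ^ 2 ≠ 0 := pow_ne_zero 2 n0
  rcases F4_cases a with rfl | rfl | rfl | rfl <;> rcases F4_cases b with rfl | rfl | rfl | rfl <;>
    simp only [tm_zero, tm_one, tm_z4, tm_z4_sq] at h <;> try rfl
  · exact absurd h.symm one_ne_zero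
  · exact absurd h.symm n0
  · exact absurd h.symm n4
  · exact absurd h one_ne_zero
  · exact absurd h.symm n1
  · exact absurd h.symm n2
  · exact absurd h n0
  · exact absurd h n1
  · exact absurd h.symm n3
  · exact absurd h n4
  · exact absurd h n2
  · exact absurd h n3

theorem gl_roots {c d t z a b e : E} (hz : z ^ 3 = c) (hcd : c * d = 2) (ht : 3 * t = 1)
    (H1 : a ^ 3 = 1) (H2 : b ^ 3 = 1) (H3 : a ^ 2 * b ^ 2 = e) (H4 : a + b + e = 0) :
    gl d t (z * a) (z * b) = z * e := by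
  subst hz
  unfold gl
  linear_combination (d*t*z^4) * H3 + (t*z*e - 2*t*z*(a+b)) * hcd + (-2*d*t*z^4*b) * H1 +
    (-2*d*t*z^4*a) * H2 + (z - 4*t*z) * H4 + (2*z*e) * ht

/-- The Teichmüller map transports the group law. -/
theorem tm_add (hζ : ζ ^ 2 + ζ + 1 = 0) {c d t z : E} (hz : z ^ 3 = c) (hcd : c * d = 2)
    (ht : 3 * t = 1) (a b : F4) :
    gl d t (z * tm ζ a) (z * tm ζ b) = z * tm ζ (a + b) := by
  have e0 := z4_sq
  have k1 : (1 : F4) + z4 = z4 ^ 2 := by rw [e0]; ring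
  have k2 : z4 + 1 = z4 ^ 2 := by rw [e0]
  have k3 : (1 : F4) + z4 ^ 2 = z4 := by
    rw [e0]; have := two_F4 1; linear_combination this
  have k4 : z4 ^ 2 + 1 = z4 := by rw [add_comm]; exact k3
  have k5 : z4 + z4 ^ 2 = 1 := by
    rw [e0]; have := two_F4 z4; linear_combination this
  have k6 : z4 ^ 2 + z4 = 1 := by rw [add_comm]; exact k5
  have hself : ∀ x : E, x ^ 3 = 1 → gl d t (z * x) (z * x) = 0 := by
    intro x hx
    apply gl_self (c := c) _ hcd ht
    rw [mul_pow, ← hz]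
    linear_combination (z ^ 4 * x) * hx
  have h3 := zeta_cube hζ
  have h6 : (ζ ^ 2) ^ 3 = 1 := by
    rw [← pow_mul, show 2 * 3 = 3 * 2 by norm_num, pow_mul, h3]; ring
  have h1 : (1 : E) ^ 3 = 1 := one_pow 3
  have key := fun (x y e : E) => gl_roots (a := x) (b := y) (e := e) hz hcd ht
  rcases F4_cases a with rfl | rfl | rfl | rfl <;> rcases F4_cases b with rfl | rfl | rfl | rfl <;>
    simp only [add_zero, zero_add, k1, k2, k3, k4, k5, k6, two_F4, tm_zero, tm_one, tm_z4,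
      tm_z4_sq, mul_zero, gl_zero_left, gl_zero_right]
  · exact hself _ h1
  · exact key _ _ _ h1 h3 (by ring) (by linear_combination hζ)
  · exact key _ _ _ h1 h6 (by linear_combination ζ * h3) (by linear_combination hζ)
  · exact key _ _ _ h3 h1 (by ring) (by linear_combination hζ)
  · exact hself _ h3
  · exact key _ _ _ h3 h6 (by linear_combination (ζ ^ 3 + 1) * h3) (by linear_combination hζ)
  · exact key _ _ _ h6 h1 (by linear_combination ζ * h3) (by linear_combination hζ)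
  · exact key _ _ _ h6 h3 (by linear_combination (ζ ^ 3 + 1) * h3) (by linear_combination hζ)
  · exact hself _ h6

end teich

end Pool.Agent.K4H51.SB
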