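import Pool.Agent.K4H51.SB.Field
import Pool.Agent.K4H51.SB.Teich

/-!
# Cubic polynomials, permutations of their roots, and the splitting field
-/

set_option autoImplicit false
set_option linter.unusedSectionVars false

open NumberField Polynomial

namespace Pool.Agent.K4H51.SB

/-! ### Permutations of three letters -/

theorem perm3_cases (p : Equiv.Perm (Fin 3)) :
    (p 0 = 0 ∧ p 1 = 1 ∧ p 2 = 2 ∧ Equiv.Perm.sign p = 1) ∨
    (p 0 = 1 ∧ p 1 = 2 ∧ p 2 = 0 ∧ Equiv.Perm.sign p = 1) ∨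
    (p 0 = 2 ∧ p 1 = 0 ∧ p 2 = 1 ∧ Equiv.Perm.sign p = 1) ∨
    (p 0 = 1 ∧ p 1 = 0 ∧ p 2 = 2 ∧ Equiv.Perm.sign p = -1) ∨
    (p 0 = 0 ∧ p 1 = 2 ∧ p 2 = 1 ∧ Equiv.Perm.sign p = -1) ∨
    (p 0 = 2 ∧ p 1 = 1 ∧ p 2 = 0 ∧ Equiv.Perm.sign p = -1) := by
  revert p; decide

theorem perm3_even {p : Equiv.Perm (Fin 3)} (h : Equiv.Perm.sign p = 1) (i : Fin 3) :
    p i = i + p 0 := by
  revert p i; decide

theorem perm3_gen (p q r : Equiv.Perm (Fin 3)) (hp : Equiv.Perm.sign p = -1)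
    (hq : ∀ i, q i ≠ i) : r = 1 ∨ r = q ∨ r = q * q ∨ r = p ∨ r = p * q ∨ r = p * q * q := by
  revert p q r; decide

/-- The standard coordinates. -/
def cv (i : Fin 3) (r : Fin 2) : ZMod 2 := if i.val = r.val then 1 else 0

/-- The two-dimensional representation of the symmetric group. -/
def M2 (p : Equiv.Perm (Fin 3)) : Matrix (Fin 2) (Fin 2) (ZMod 2) :=
  Matrix.of fun r s => cv (p s.castSucc) r + cv (p 2) r

theorem M2_mul (p q : Equiv.Perm (Fin 3)) : M2 (p * q) = M2 p * M2 q := by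
  revert p q; decide +kernel

theorem M2_one : M2 1 = 1 := by decide +kernel

theorem M2_det (p : Equiv.Perm (Fin 3)) : (M2 p).det = 1 := by
  revert p; decide +kernel

theorem M2_trace (p : Equiv.Perm (Fin 3)) (hp : ∀ i, p i ≠ i) : (M2 p).trace = 1 := by
  revert p; decide +kernel

/-! ### Roots of cubics -/

/-- `r 0, r 1, r 2` are the roots of `X³ - e₁ X² + e₂ X - e₃`. -/
structure Roots3 {F : Type} [Field F] (e₁ e₂ e₃ : F) (r : Fin 3 → F) : Prop where
  s₁ : r 0 + r 1 + r 2 = e₁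
  s₂ : r 0 * r 1 + r 1 * r 2 + r 0 * r 2 = e₂
  s₃ : r 0 * r 1 * r 2 = e₃

/-- The product of the differences. -/
def dd {F : Type} [Field F] (r : Fin 3 → F) : F := (r 0 - r 1) * (r 1 - r 2) * (r 2 - r 0)

section roots

variable {F : Type} [Field F] {e₁ e₂ e₃ : F} {r : Fin 3 → F}

theorem Roots3.root (h : Roots3 e₁ e₂ e₃ r) (i : Fin 3) :
    r i ^ 3 - e₁ * r i ^ 2 + e₂ * r i - e₃ = 0 := by
  rw [← h.s₁, ← h.s₂, ← h.s₃]
  fin_cases i
  · show r 0 ^ 3 - (r 0 + r 1 + r 2) * r 0 ^ 2 + (r 0 * r 1 + r 1 * r 2 + r 0 * r 2) * r 0 -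
      r 0 * r 1 * r 2 = 0
    ring
  · show r 1 ^ 3 - (r 0 + r 1 + r 2) * r 1 ^ 2 + (r 0 * r 1 + r 1 * r 2 + r 0 * r 2) * r 1 -
      r 0 * r 1 * r 2 = 0
    ring
  · show r 2 ^ 3 - (r 0 + r 1 + r 2) * r 2 ^ 2 + (r 0 * r 1 + r 1 * r 2 + r 0 * r 2) * r 2 -
      r 0 * r 1 * r 2 = 0
    ring

theorem Roots3.eq_of_root (h : Roots3 e₁ e₂ e₃ r) {x : F}
    (hx : x ^ 3 - e₁ * x ^ 2 + e₂ * x - e₃ = 0) : ∃ i, x = r i := by
  have : (x - r 0) * ((x - r 1) * (x - r 2)) = 0 := by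
    rw [← hx, ← h.s₁, ← h.s₂, ← h.s₃]; ring
  rcases mul_eq_zero.1 this with h0 | h0
  · exact ⟨0, sub_eq_zero.1 h0⟩
  · rcases mul_eq_zero.1 h0 with h1 | h1
    · exact ⟨1, sub_eq_zero.1 h1⟩
    · exact ⟨2, sub_eq_zero.1 h1⟩

theorem Roots3.disc (h : Roots3 e₁ e₂ e₃ r) : dd r ^ 2 =
    e₁ ^ 2 * e₂ ^ 2 - 4 * e₂ ^ 3 - 4 * e₁ ^ 3 * e₃ - 27 * e₃ ^ 2 + 18 * e₁ * e₂ * e₃ := by
  rw [← h.s₁, ← h.s₂, ← h.s₃]; unfold dd; ring

theorem inj_of_dd (h : dd r ≠ 0) : Function.Injective r := by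
  have h01 : r 0 ≠ r 1 := by intro e; apply h; unfold dd; rw [e]; ring
  have h12 : r 1 ≠ r 2 := by intro e; apply h; unfold dd; rw [e]; ring
  have h20 : r 2 ≠ r 0 := by intro e; apply h; unfold dd; rw [e]; ring
  intro i j hij
  fin_cases i <;> fin_cases j <;> first | rfl | skip
  · exact absurd hij h01
  · exact absurd hij (Ne.symm h20)
  · exact absurd hij (Ne.symm h01)
  · exact absurd hij h12
  · exact absurd hij h20
  · exact absurd hij (Ne.symm h12)

theorem dd_perm (r : Fin 3 → F) (p : Equiv.Perm (Fin 3)) :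
    dd (fun i => r (p i)) = ((Equiv.Perm.sign p : ℤˣ) : ℤ) * dd r := by
  unfold dd
  rcases perm3_cases p with h | h | h | h | h | h <;>
  · obtain ⟨h0, h1, h2, h3⟩ := h
    simp only [h0, h1, h2, h3]
    push_cast
    ring

/-- Swapping two roots. -/
theorem Roots3.swap (h : Roots3 e₁ e₂ e₃ r) :
    Roots3 e₁ e₂ e₃ (fun i => r (Equiv.swap 1 2 i)) := by
  have e0 : (Equiv.swap (1 : Fin 3) 2) 0 = 0 := by decide
  have e1 : (Equiv.swap (1 : Fin 3) 2) 1 = 2 := by decide
  have e2 : (Equiv.swap (1 : Fin 3) 2) 2 = 1 := by decide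
  constructor
  · show r _ + r _ + r _ = e₁
    rw [e0, e1, e2, ← h.s₁]; ring
  · show r _ * r _ + r _ * r _ + r _ * r _ = e₂
    rw [e0, e1, e2, ← h.s₂]; ring
  · show r _ * r _ * r _ = e₃
    rw [e0, e1, e2, ← h.s₃]; ring

theorem dd_swap (r : Fin 3 → F) : dd (fun i => r (Equiv.swap 1 2 i)) = - dd r := by
  have e0 : (Equiv.swap (1 : Fin 3) 2) 0 = 0 := by decide
  have e1 : (Equiv.swap (1 : Fin 3) 2) 1 = 2 := by decide
  have e2 : (Equiv.swap (1 : Fin 3) 2) 2 = 1 := by decide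
  unfold dd
  simp only [e0, e1, e2]; ring

theorem exists_roots3 [IsAlgClosed F] (e₁ e₂ e₃ : F) : ∃ r, Roots3 e₁ e₂ e₃ r := by
  obtain ⟨a, ha⟩ := IsAlgClosed.exists_root (X ^ 3 - C e₁ * X ^ 2 + C e₂ * X - C e₃ : F[X]) (by
    have : (X ^ 3 - C e₁ * X ^ 2 + C e₂ * X - C e₃ : F[X]).degree = 3 := by compute_degree!
    rw [this]; norm_num)
  simp only [IsRoot, eval_sub, eval_add, eval_pow, eval_X, eval_mul, eval_C] at ha
  obtain ⟨b, hb⟩ := IsAlgClosed.exists_root (X ^ 2 - C (e₁ - a) * X + C (e₂ - a * (e₁ - a)) : F[X])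
    (by
      have : (X ^ 2 - C (e₁ - a) * X + C (e₂ - a * (e₁ - a)) : F[X]).degree = 2 := by
        compute_degree!
      rw [this]; norm_num)
  simp only [IsRoot, eval_sub, eval_add, eval_pow, eval_X, eval_mul, eval_C] at hb
  refine ⟨![a, b, e₁ - a - b], ?_, ?_, ?_⟩
  · simp
  · simp; linear_combination -hb
  · simp; linear_combination ha - a * hb

end roots

/-! ### The permutation representation -/

section perm

variable {G L : Type} [Group G] [Field L] [MulSemiringAction G L] {r : Fin 3 → L}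

/-- The permutation representation on the roots. -/
noncomputable def permHom (hr : Function.Injective r) (hst : ∀ (g : G) i, ∃ j, g • r i = r j) :
    G →* Equiv.Perm (Fin 3) where
  toFun g := Equiv.ofBijective (fun i => Classical.choose (hst g i)) (by
    rw [← Finite.injective_iff_bijective]
    intro i j hij
    have h1 := Classical.choose_spec (hst g i)
    have h2 := Classical.choose_spec (hst g j)
    simp only at hij
    rw [hij, ← h2] at h1
    exact hr ((MulAction.injective g) h1))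
  map_one' := by
    ext i
    congr 1
    apply hr
    have h1 := Classical.choose_spec (hst (1 : G) i)
    exact h1.symm.trans (one_smul G (r i))
  map_mul' g h := by
    ext i
    congr 1
    apply hr
    have h1 := Classical.choose_spec (hst (g * h) i)
    have h2 := Classical.choose_spec (hst h i)
    have h3 := Classical.choose_spec (hst g (Classical.choose (hst h i)))
    show r (Classical.choose (hst (g * h) i)) = r (Classical.choose (hst g _))
    calc r (Classical.choose (hst (g * h) i)) = (g * h) • r i := h1.symm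
      _ = g • (h • r i) := mul_smul _ _ _
      _ = g • r (Classical.choose (hst h i)) := congrArg (fun x => g • x) h2
      _ = _ := h3

theorem permHom_spec (hr : Function.Injective r) (hst : ∀ (g : G) i, ∃ j, g • r i = r j) (g : G)
    (i : Fin 3) : g • r i = r (permHom hr hst g i) :=
  Classical.choose_spec (hst g i)

end perm

end Pool.Agent.K4H51.SB
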