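import Mathlib

/-!
# Mod `p` eigenforms and mod `p` Galois representations over imaginary quadratic fields:
definitions, and the Hecke operators on `H¹(Y₀(𝔑), F)`.
-/

set_option autoImplicit false
set_option linter.unusedSimpArgs false

open NumberField IsDedekindDomain Matrix
open scoped ComplexOrder

namespace Pool.Agent.K4H51.SB

variable {K : Type} [Field K] [NumberField K]

/-! ## The group `Γ₀(𝔑)` and the space `H¹(Y₀(𝔑), F)` -/

/-- `Γ₀(𝔑)`: the matrices of `GL₂(𝓞 K)` whose lower left entry lies in `𝔑`. -/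
def Gamma0 (𝔑 : Ideal (𝓞 K)) : Subgroup (GL (Fin 2) (𝓞 K)) where
  carrier := {γ | (γ : Matrix (Fin 2) (Fin 2) (𝓞 K)) 1 0 ∈ 𝔑}
  mul_mem' := by
    intro a b ha hb
    simp only [Set.mem_ofPred_eq, Units.val_mul, Matrix.mul_apply, Fin.sum_univ_two] at *
    exact 𝔑.add_mem (𝔑.mul_mem_right _ ha) (𝔑.mul_mem_left _ hb)
  one_mem' := by simp
  inv_mem' := by
    intro a ha
    simp only [Set.mem_ofPred_eq, Matrix.coe_units_inv, Matrix.inv_def, Matrix.adjugate_fin_two,
      Matrix.smul_apply, Matrix.of_apply, Matrix.cons_val', Matrix.cons_val_zero,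
      Matrix.cons_val_one, smul_eq_mul, Matrix.cons_val_fin_one] at *
    exact 𝔑.mul_mem_left _ (𝔑.neg_mem ha)

/-- The entries of a matrix over `𝓞 K`, sent to `ℂ` by the embedding `φ`. -/
def toC (φ : K →+* ℂ) (M : Matrix (Fin 2) (Fin 2) (𝓞 K)) : Matrix (Fin 2) (Fin 2) ℂ :=
  M.map (fun x => φ (x : K))

/-- `γ` fixes a point of hyperbolic `3`-space `H₃`.  Here `H₃` is the space of positive definite
hermitian `2 × 2` matrices `h` up to positive real scalars, with `GL₂` acting by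
`h ↦ γ h γᴴ`. -/
def FixesPoint (φ : K →+* ℂ) (γ : GL (Fin 2) (𝓞 K)) : Prop :=
  ∃ h : Matrix (Fin 2) (Fin 2) ℂ, h.PosDef ∧ ∃ c : ℝ, 0 < c ∧
    toC φ γ.1 * h * (toC φ γ.1)ᴴ = (c : ℂ) • h

/-- `H¹(Y₀(𝔑), F)`, `Y₀(𝔑) = Γ₀(𝔑)\H₃`.  As `H₃` is simply connected and `Γ₀(𝔑)` acts properly
discontinuously, the fundamental group of the quotient space `Y₀(𝔑)` is the quotient of `Γ₀(𝔑)` by
the (normal) subgroup generated by the elements having a fixed point in `H₃` (Armstrong), so that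
`H¹(Y₀(𝔑), F)` is the space of homomorphisms `Γ₀(𝔑) → F` that vanish on these elements. -/
def H1 (φ : K →+* ℂ) (𝔑 : Ideal (𝓞 K)) (F : Type) [Field F] :
    Submodule F (Gamma0 𝔑 → F) where
  carrier := {f | (∀ a b, f (a * b) = f a + f b) ∧ ∀ γ : Gamma0 𝔑, FixesPoint φ γ.1 → f γ = 0}
  add_mem' := by
    rintro f g ⟨hf, hf'⟩ ⟨hg, hg'⟩
    refine ⟨fun a b => ?_, fun γ h => ?_⟩
    · simp only [Pi.add_apply, hf, hg]; ring
    · simp only [Pi.add_apply, hf' γ h, hg' γ h, add_zero]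
  zero_mem' := ⟨fun _ _ => by simp, fun _ _ => rfl⟩
  smul_mem' := by
    rintro c f ⟨hf, hf'⟩
    refine ⟨fun a b => ?_, fun γ h => ?_⟩
    · simp only [Pi.smul_apply, hf, smul_add]
    · simp only [Pi.smul_apply, hf' γ h, smul_zero]

/-! ## Hecke operators -/

/-- The usual representatives of `Γ₀(𝔑) \ Γ₀(𝔑) diag(1, π) Γ₀(𝔑)`: the matrices
`(1 b; 0 π)`, `b` mod `π`, and `(π 0; 0 1)`. -/
noncomputable def heckeRep (π : 𝓞 K) :
    Option (𝓞 K ⧸ Ideal.span {π}) → Matrix (Fin 2) (Fin 2) (𝓞 K)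
  | none => !![π, 0; 0, 1]
  | some b => !![1, Quotient.out b; 0, π]

/-- The Hecke correspondence: for a representative `δ` of a coset in
`Γ₀(𝔑) \ Γ₀(𝔑) diag(1, π) Γ₀(𝔑)` and `γ ∈ Γ₀(𝔑)` one has `δ γ = γ' δ'` for unique
`γ' ∈ Γ₀(𝔑)` and representative `δ'`. -/
theorem exists_hecke (𝔑 : Ideal (𝓞 K)) {π : 𝓞 K} (hπ : Prime π)
    (hN : IsCoprime (Ideal.span {π}) 𝔑) (M : Matrix (Fin 2) (Fin 2) (𝓞 K))
    (hM : ∃ u : (𝓞 K)ˣ, M.det = u * π) (hM' : M 1 0 ∈ 𝔑) :
    ∃ x : Gamma0 𝔑 × Option (𝓞 K ⧸ Ideal.span {π}),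
      M = (x.1.1 : Matrix (Fin 2) (Fin 2) (𝓞 K)) * heckeRep π x.2 := by
  obtain ⟨u, hu⟩ := hM
  have hdet : M 0 0 * M 1 1 - M 0 1 * M 1 0 = u * π := by rw [← hu, Matrix.det_fin_two]
  have key : ∀ (A : Matrix (Fin 2) (Fin 2) (𝓞 K)) (j : Option (𝓞 K ⧸ Ideal.span {π})),
      A 1 0 ∈ 𝔑 → M = A * heckeRep π j → ∃ x : Gamma0 𝔑 × Option (𝓞 K ⧸ Ideal.span {π}),
      M = (x.1.1 : Matrix (Fin 2) (Fin 2) (𝓞 K)) * heckeRep π x.2 := by
    intro A j hA hAM
    have hdj : (heckeRep π j).det = π := by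
      cases j <;> simp [heckeRep, Matrix.det_fin_two]
    have hAd : A.det = u := by
      have h1 : M.det = A.det * π := by rw [hAM, Matrix.det_mul, hdj]
      rw [hu] at h1
      exact (mul_right_cancel₀ hπ.ne_zero h1).symm
    have hunit : IsUnit A.det := by rw [hAd]; exact u.isUnit
    refine ⟨(⟨Matrix.GeneralLinearGroup.mk'' A hunit, ?_⟩, j), ?_⟩
    · exact hA
    · exact hAM
  by_cases h0 : π ∣ M 0 0 ∧ π ∣ M 1 0
  · obtain ⟨⟨a, ha⟩, c, hc⟩ := h0
    apply key !![a, M 0 1; c, M 1 1] none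
    · obtain ⟨i, hi, n, hn, hin⟩ := Ideal.isCoprime_iff_exists.1 hN
      obtain ⟨t, rfl⟩ := Ideal.mem_span_singleton'.1 hi
      have : c = t * (π * c) + n * c := by
        calc c = (t * π + n) * c := by rw [hin, one_mul]
          _ = _ := by ring
      simp only [Matrix.of_apply, Matrix.cons_val', Matrix.cons_val_zero, Matrix.cons_val_one,
        Matrix.cons_val_fin_one]
      rw [this, ← hc]
      exact 𝔑.add_mem (𝔑.mul_mem_left _ hM') (𝔑.mul_mem_right _ hn)
    · apply Matrix.ext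
      intro i j
      fin_cases i <;> fin_cases j <;>
        simp [heckeRep, Matrix.mul_apply, Fin.sum_univ_two, ha, hc, mul_comm]
  · have hmax : (Ideal.span {π}).IsMaximal := by
      have h1 : (Ideal.span {π}).IsPrime := (Ideal.span_singleton_prime hπ.ne_zero).2 hπ
      exact h1.isMaximal (by simpa using hπ.ne_zero)
    -- the second column is a multiple of the first one mod `π`
    obtain ⟨b, hb0, hb1⟩ : ∃ b, π ∣ M 0 1 - M 0 0 * b ∧ π ∣ M 1 1 - M 1 0 * b := by
      have hinv : ∀ x : 𝓞 K, ¬ π ∣ x → ∃ y, π ∣ x * y - 1 := by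
        intro x hx
        obtain ⟨y, i, hi, hyi⟩ := hmax.exists_inv (x := x)
          (by rwa [Ideal.mem_span_singleton])
        refine ⟨y, ?_⟩
        rw [← hyi, show x * y - (y * x + i) = -i by ring, dvd_neg]
        exact Ideal.mem_span_singleton.1 hi
      by_cases ha : π ∣ M 0 0
      · have hc : ¬ π ∣ M 1 0 := fun h => h0 ⟨ha, h⟩
        obtain ⟨y, hy⟩ := hinv _ hc
        have h01 : π ∣ M 0 1 := by
          have : π ∣ M 0 1 * M 1 0 := by
            rw [show M 0 1 * M 1 0 = M 0 0 * M 1 1 - u * π by rw [← hdet]; ring]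
            exact dvd_sub (Dvd.dvd.mul_right ha _) (Dvd.intro_left _ rfl)
          exact (hπ.dvd_or_dvd this).resolve_right hc
        refine ⟨y * M 1 1, dvd_sub h01 (Dvd.dvd.mul_right ha _), ?_⟩
        rw [show M 1 1 - M 1 0 * (y * M 1 1) = -((M 1 0 * y - 1) * M 1 1) by ring, dvd_neg]
        exact Dvd.dvd.mul_right hy _
      · obtain ⟨y, hy⟩ := hinv _ ha
        refine ⟨y * M 0 1, ?_, ?_⟩
        · rw [show M 0 1 - M 0 0 * (y * M 0 1) = -((M 0 0 * y - 1) * M 0 1) by ring, dvd_neg]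
          exact Dvd.dvd.mul_right hy _
        · have h2 : M 1 1 - M 1 0 * (y * M 0 1) =
              y * (u * π) - (M 0 0 * y - 1) * M 1 1 := by rw [← hdet]; ring
          rw [h2]
          exact dvd_sub (Dvd.dvd.mul_left (Dvd.intro_left _ rfl) _) (Dvd.dvd.mul_right hy _)
    set q : 𝓞 K ⧸ Ideal.span {π} := Ideal.Quotient.mk _ b with hq
    have hqb : π ∣ b - Quotient.out q := by
      rw [← Ideal.mem_span_singleton, ← Ideal.Quotient.eq, ← hq]
      exact (Quotient.out_eq q).symm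
    have hb0' : π ∣ M 0 1 - M 0 0 * Quotient.out q := by
      rw [show M 0 1 - M 0 0 * Quotient.out q = (M 0 1 - M 0 0 * b) + M 0 0 * (b - Quotient.out q)
        by ring]
      exact dvd_add hb0 (Dvd.dvd.mul_left hqb _)
    have hb1' : π ∣ M 1 1 - M 1 0 * Quotient.out q := by
      rw [show M 1 1 - M 1 0 * Quotient.out q = (M 1 1 - M 1 0 * b) + M 1 0 * (b - Quotient.out q)
        by ring]
      exact dvd_add hb1 (Dvd.dvd.mul_left hqb _)
    obtain ⟨s, hs⟩ := hb0'
    obtain ⟨t, ht⟩ := hb1'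
    apply key !![M 0 0, s; M 1 0, t] (some q)
    · simpa using hM'
    · apply Matrix.ext
      intro i j
      fin_cases i <;> fin_cases j
      · simp [heckeRep, Matrix.mul_apply, Fin.sum_univ_two]
      · simp only [heckeRep, Matrix.mul_apply, Fin.sum_univ_two, Fin.zero_eta, Fin.mk_one,
          Matrix.of_apply, Matrix.cons_val', Matrix.cons_val_zero, Matrix.cons_val_one,
          Matrix.cons_val_fin_one]
        linear_combination hs
      · simp [heckeRep, Matrix.mul_apply, Fin.sum_univ_two]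
      · simp only [heckeRep, Matrix.mul_apply, Fin.sum_univ_two, Fin.zero_eta, Fin.mk_one,
          Matrix.of_apply, Matrix.cons_val', Matrix.cons_val_zero, Matrix.cons_val_one,
          Matrix.cons_val_fin_one]
        linear_combination ht

end Pool.Agent.K4H51.SB
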