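import Pool.Agent.K4H51.SB.Cert

/-!
# `H¹(Y₀(𝔑), F)` is detected by two elements (`char F = 2`)
-/

set_option autoImplicit false
set_option linter.unusedSimpArgs false
set_option linter.unusedSectionVars false

open NumberField Matrix

namespace Pool.Agent.K4H51.SB

/-! ### Generators of `GL₂(𝓞 K)` -/

theorem Tm_mul (x y : 𝓞 K11) : Tm x * Tm y = Tm (x + y) := by
  apply Units.ext
  apply Matrix.ext; intro i j
  fin_cases i <;> fin_cases j <;> simp [Tm, Matrix.mul_apply, Fin.sum_univ_two, add_comm]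

theorem Tm_zero : Tm 0 = 1 := by
  apply Units.ext
  apply Matrix.ext; intro i j
  fin_cases i <;> fin_cases j <;> simp [Tm]

theorem Tm_zsmul (x : 𝓞 K11) (n : ℤ) : (Tm x) ^ n = Tm (n * x) := by
  induction n using Int.induction_on with
  | zero => simp [Tm_zero]
  | succ n ih => rw [_root_.zpow_add_one, ih, Tm_mul]; congr 1; push_cast; ring
  | pred n ih => rw [_root_.zpow_sub_one, ih, Tm_inv, Tm_mul]; congr 1; push_cast; ring

theorem gen_top (H : Subgroup (GL (Fin 2) (𝓞 K11))) (h1 : Tm 1 ∈ H) (hw : Tm w ∈ H)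
    (hS : Sm ∈ H) (hD : Dm ∈ H) (g : GL (Fin 2) (𝓞 K11)) : g ∈ H := by
  have hT : ∀ x, Tm x ∈ H := by
    intro x
    obtain ⟨a, b, rfl⟩ := repr_O x
    have : Tm ((a : 𝓞 K11) + b * w) = (Tm 1) ^ a * (Tm w) ^ b := by
      rw [Tm_zsmul, Tm_zsmul, Tm_mul, mul_one]
    rw [this]
    exact mul_mem (zpow_mem h1 a) (zpow_mem hw b)
  have key : ∀ n : ℕ, ∀ g : GL (Fin 2) (𝓞 K11), (nm (g.1 1 0)).toNat = n → g ∈ H := by
    intro n
    induction n using Nat.strong_induction_on with
    | _ n ih =>
      intro g hg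
      by_cases hc : g.1 1 0 = 0
      · have hu : IsUnit (g.1.det) := (Matrix.isUnit_iff_isUnit_det _).1 g.isUnit
        rw [Matrix.det_fin_two, hc, mul_zero, sub_zero] at hu
        have hu0 := unit_eq (isUnit_of_mul_isUnit_left hu)
        have hu1 := unit_eq (isUnit_of_mul_isUnit_right hu)
        have hgm : g.1 = !![g.1 0 0, g.1 0 1; 0, g.1 1 1] := by
          apply Matrix.ext; intro i j
          fin_cases i <;> fin_cases j <;> simp [hc]
        rcases hu0 with h0 | h0 <;> rcases hu1 with h1 | h1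
        · have : g = Tm (g.1 0 1) := by
            apply Units.ext; rw [hgm, h0, h1]
            apply Matrix.ext; intro i j
            fin_cases i <;> fin_cases j <;> simp [Tm]
          rw [this]; exact hT _
        · have : g = Tm (-(g.1 0 1)) * (Sm * Sm * Dm) := by
            apply Units.ext; rw [hgm, h0, h1]
            apply Matrix.ext; intro i j
            fin_cases i <;> fin_cases j <;>
              simp [Tm, Sm, Dm, Matrix.mul_apply, Fin.sum_univ_two]
          rw [this]; exact mul_mem (hT _) (mul_mem (mul_mem hS hS) hD)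
        · have : g = Tm (g.1 0 1) * Dm := by
            apply Units.ext; rw [hgm, h0, h1]
            apply Matrix.ext; intro i j
            fin_cases i <;> fin_cases j <;>
              simp [Tm, Sm, Dm, Matrix.mul_apply, Fin.sum_univ_two]
          rw [this]; exact mul_mem (hT _) hD
        · have : g = Tm (-(g.1 0 1)) * (Sm * Sm) := by
            apply Units.ext; rw [hgm, h0, h1]
            apply Matrix.ext; intro i j
            fin_cases i <;> fin_cases j <;>
              simp [Tm, Sm, Dm, Matrix.mul_apply, Fin.sum_univ_two]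
          rw [this]; exact mul_mem (hT _) (mul_mem hS hS)
      · obtain ⟨q, hq⟩ := euclid (g.1 0 0) (g.1 1 0) hc
        have h2 : (Sm * (Tm (-q) * g)).1 1 0 = g.1 0 0 - q * g.1 1 0 := by
          rw [Units.val_mul, Matrix.mul_apply, Fin.sum_univ_two, Units.val_mul, Matrix.mul_apply,
            Matrix.mul_apply, Fin.sum_univ_two, Fin.sum_univ_two]
          simp [Tm, Sm]
          ring
        have h3 := ih (nm ((Sm * (Tm (-q) * g)).1 1 0)).toNat (by
          rw [h2, ← hg]
          have := nm_nonneg (g.1 0 0 - q * g.1 1 0)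
          omega) (Sm * (Tm (-q) * g)) rfl
        have h4 : g = (Tm (-q))⁻¹ * (Sm⁻¹ * (Sm * (Tm (-q) * g))) := by group
        rw [h4]
        exact mul_mem (inv_mem (hT _)) (mul_mem (inv_mem hS) h3)
  exact key _ g rfl

section

variable {F : Type} [Field F] [CharP F 2] {φ : K11 →+* ℂ} {f : Gamma0 lev → F}

theorem cc_tree (hf : f ∈ H1 φ lev F) {k : ℕ} (hk : k < 88) : cc f (4 * k) = 0 := by
  have e1 : 4 * k / 4 = k := by omega
  have e2 : 4 * k % 4 = 0 := by omega
  rw [cc, e1, e2, coc, act_gen (by norm_num) (by omega)]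
  have e3 : actL k 0 = k + 1 := by
    simp only [actL]; rw [if_pos trivial, if_neg (by omega)]; omega
  rw [e3]
  have e4 : rep k * genM 0 = rep (k + 1) := by
    apply Units.ext
    rw [Units.val_mul, rep_lt (by omega), rep_lt (by omega)]
    apply Matrix.ext; intro i j
    fin_cases i <;> fin_cases j <;>
      simp [stM, genM, Tm, Matrix.mul_apply, Fin.sum_univ_two, add_comm]
  rw [e4, mul_inv_cancel, ev_mem f (one_mem _)]
  exact H1_one hf

theorem cc_358 (hf : f ∈ H1 φ lev F) : cc f 358 = 0 := by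
  show coc f 89 (genM 2) = 0
  rw [coc, act_gen (by norm_num) (by norm_num)]
  have e3 : actL 89 2 = 0 := by decide
  have e4 : rep 89 * genM 2 = rep 0 := by
    apply Units.ext
    rw [rep_89, one_mul, rep_lt (by norm_num)]
    apply Matrix.ext; intro i j
    fin_cases i <;> fin_cases j <;> simp [stM, genM, Sm]
  rw [e3, e4, mul_inv_cancel, ev_mem f (one_mem _)]
  exact H1_one hf

theorem eq_zero_of_two (hf : f ∈ H1 φ lev F) (h1 : cc f 106 = 0) (h2 : cc f 298 = 0) :
    f = 0 := by
  have hall : ∀ i < 360, cc f i = 0 := by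
    intro i hi
    refine runC_sound hf steps steps_lt U0 ?_ i hi (by rw [run_steps]; simp)
    intro j hj hb
    rcases U0_bits j hj hb with h | h | h | ⟨h, h'⟩
    · rw [h, h1]
    · rw [h, h2]
    · rw [h]; exact cc_358 hf
    · obtain ⟨k, rfl⟩ : ∃ k, j = 4 * k := ⟨j / 4, by omega⟩
      exact cc_tree hf (by omega)
  have hcoc : ∀ l < 4, ∀ x < 90, coc f x (genM l) = 0 := by
    intro l hl x hx
    have := hall (4 * x + l) (by omega)
    rw [cc] at this
    have e1 : (4 * x + l) / 4 = x := by omega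
    have e2 : (4 * x + l) % 4 = l := by omega
    rwa [e1, e2] at this
  let H : Subgroup (GL (Fin 2) (𝓞 K11)) :=
    { carrier := {g | ∀ x < 90, coc f x g = 0}
      mul_mem' := by
        intro a b ha hb x hx
        rw [coc_mul hf, ha x hx, hb _ (act_lt _ _), add_zero]
      one_mem' := fun x hx => coc_one hf hx
      inv_mem' := by
        intro a ha x hx
        have h3 := coc_mul hf x a⁻¹ a
        rw [inv_mul_cancel, coc_one hf hx, ha _ (act_lt _ _), add_zero] at h3
        exact h3.symm }
  have hH : ∀ g, g ∈ H := gen_top H (hcoc 0 (by norm_num)) (hcoc 1 (by norm_num))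
    (hcoc 2 (by norm_num)) (hcoc 3 (by norm_num))
  funext γ
  have h4 : coc f 89 γ.1 = 0 := hH γ.1 89 (by norm_num)
  have h5 : idx γ.1 = 89 := idx_eq_89 ((mem_Gamma0 _).1 γ.2)
  have h6 : rep 89 * γ.1 * (rep (act 89 γ.1))⁻¹ = γ.1 := by
    rw [act, rep_89, one_mul, h5, rep_89, inv_one, mul_one]
  rw [coc, h6, ev_mem f γ.2] at h4
  exact h4

/-- The two elements that detect the classes. -/
noncomputable def gamE (i : ℕ) : Gamma0 lev :=
  ⟨rep (i / 4) * genM (i % 4) * (rep (act (i / 4) (genM (i % 4))))⁻¹, mul_rep_inv_mem _⟩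

theorem cc_gamE (f : Gamma0 lev → F) (i : ℕ) : cc f i = f (gamE i) := by
  have m : rep (i / 4) * genM (i % 4) * (rep (act (i / 4) (genM (i % 4))))⁻¹ ∈ Gamma0 lev :=
    mul_rep_inv_mem _
  rw [cc, coc, ev_mem f m]; rfl

/-- Two elements of `Γ₀(𝔑)` detect the classes of `H¹(Y₀(𝔑), F)`, `char F = 2`. -/
theorem two_detect (hf : f ∈ H1 φ lev F) (h1 : f (gamE 106) = 0) (h2 : f (gamE 298) = 0) :
    f = 0 :=
  eq_zero_of_two hf (by rw [cc_gamE, h1]) (by rw [cc_gamE, h2])

end

end Pool.Agent.K4H51.SB
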