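import Pool.Agent.K4H51.SB.Dim

/-!
# The Eisenstein class of level `(2 + 5ω)` mod 2
-/

set_option autoImplicit false
set_option linter.unusedSimpArgs false
set_option linter.unusedSectionVars false

open NumberField Matrix
open scoped ComplexOrder ComplexConjugate

namespace Pool.Agent.K4H51.SB

/-! ### Traces of elliptic elements -/

theorem phi_w_conj (φ : K11 →+* ℂ) : conj (φ wK) = 1 - φ wK := by
  have h2 : (φ wK) ^ 2 = φ wK - 3 := by rw [← map_pow, wK_sq]; simp [map_ofNat]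
  have h3 : (conj (φ wK)) ^ 2 = conj (φ wK) - 3 := by
    rw [← map_pow, h2]; simp [map_ofNat]
  have h4 : (conj (φ wK) - φ wK) * (conj (φ wK) - (1 - φ wK)) = 0 := by
    linear_combination h3 - h2
  rcases mul_eq_zero.1 h4 with h | h
  · exfalso
    obtain ⟨r, hr⟩ := Complex.conj_eq_iff_real.1 (sub_eq_zero.1 h)
    rw [hr] at h2
    have h5 : r ^ 2 = r - 3 := by exact_mod_cast h2
    nlinarith [sq_nonneg (2 * r - 1)]
  · exact sub_eq_zero.1 h

theorem phi_coe (φ : K11 →+* ℂ) (a b : ℤ) :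
    φ (((a : 𝓞 K11) + (b : 𝓞 K11) * w : 𝓞 K11) : K11) = a + b * φ wK := by
  simp

theorem nm_phi (φ : K11 →+* ℂ) (x : 𝓞 K11) :
    Complex.normSq (φ (x : K11)) = (nm x : ℝ) := by
  obtain ⟨a, b, rfl⟩ := repr_O x
  have h : ((Complex.normSq (φ (((a : 𝓞 K11) + (b : 𝓞 K11) * w : 𝓞 K11) : K11)) : ℝ) : ℂ) =
      ((nm ((a : 𝓞 K11) + (b : 𝓞 K11) * w) : ℝ) : ℂ) := by
    rw [← Complex.mul_conj, phi_coe, nm_apply]
    have h2 : (φ wK) ^ 2 = φ wK - 3 := by rw [← map_pow, wK_sq]; simp [map_ofNat]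
    simp only [map_add, map_mul, phi_w_conj, map_intCast]
    push_cast
    linear_combination (-(b : ℂ) ^ 2) * h2
  exact_mod_cast h

/-- The trace of an elliptic element. -/
theorem elliptic_trace {φ : K11 →+* ℂ} {g : GL (Fin 2) (𝓞 K11)} (hg : FixesPoint φ g) :
    (g.1.det = 1 ∧ ∃ a : ℤ, -2 ≤ a ∧ a ≤ 2 ∧ g.1 0 0 + g.1 1 1 = a) ∨
      (g.1.det = -1 ∧ g.1 0 0 + g.1 1 1 = 0) := by
  obtain ⟨h, hh, c, hc, he⟩ := hg
  set G := toC φ g.1 with hG
  have hdetG : G.det = φ (g.1.det : K11) := det_toC φ _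
  have hu := unit_eq ((Matrix.isUnit_iff_isUnit_det _).1 g.isUnit)
  have hdd : G.det * conj G.det = 1 := by
    rw [hdetG]
    rcases hu with h1 | h1 <;> rw [h1] <;> simp
  have hdeth : h.det ≠ 0 := hh.det_pos.ne'
  have hcc : (c : ℂ) = 1 := by
    have h1 := congrArg Matrix.det he
    rw [Matrix.det_mul, Matrix.det_mul, Matrix.det_conjTranspose, Matrix.det_smul,
      Fintype.card_fin] at h1
    have h2 : (c : ℂ) ^ 2 = 1 := by
      apply mul_right_cancel₀ hdeth
      rw [← h1, one_mul]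
      calc _ = (G.det * conj G.det) * h.det := by
            rw [show star G.det = conj G.det from rfl]; ring
        _ = _ := by rw [hdd, one_mul]
    have h3 : c ^ 2 = 1 := by exact_mod_cast h2
    have h4 : c = 1 := by nlinarith
    rw [h4]; simp
  rw [hcc, one_smul] at he
  -- eigenvalues have absolute value one
  have heig : ∀ μ : ℂ, μ ^ 2 - G.trace * μ + G.det = 0 → Complex.normSq μ = 1 := by
    intro μ hμ
    have hdet0 : (Gᴴ - (conj μ) • (1 : Matrix (Fin 2) (Fin 2) ℂ)).det = 0 := by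
      have h1 : (G - μ • (1 : Matrix (Fin 2) (Fin 2) ℂ)).det = 0 := by
        rw [Matrix.det_fin_two] at hμ ⊢
        rw [Matrix.trace_fin_two] at hμ
        simp only [Matrix.sub_apply, Matrix.smul_apply, Matrix.one_apply_eq, smul_eq_mul, mul_one,
          ne_eq, Fin.isValue, zero_ne_one, not_false_eq_true, Matrix.one_apply_ne, mul_zero,
          sub_zero, one_ne_zero]
        linear_combination hμ
      have h2 : Gᴴ - (conj μ) • (1 : Matrix (Fin 2) (Fin 2) ℂ) =
          (G - μ • (1 : Matrix (Fin 2) (Fin 2) ℂ))ᴴ := by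
        rw [Matrix.conjTranspose_sub, Matrix.conjTranspose_smul, Matrix.conjTranspose_one]
        rfl
      rw [h2, Matrix.det_conjTranspose, h1, star_zero]
    obtain ⟨v, hv, hv2⟩ := Matrix.exists_mulVec_eq_zero_iff.2 hdet0
    have hv3 : Gᴴ *ᵥ v = (conj μ) • v := by
      rw [Matrix.sub_mulVec, Matrix.smul_mulVec, Matrix.one_mulVec, sub_eq_zero] at hv2
      exact hv2
    have hpos := hh.dotProduct_mulVec_pos hv
    have e1 : star v ⬝ᵥ (h *ᵥ v) = (μ * conj μ) * (star v ⬝ᵥ (h *ᵥ v)) := by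
      have e2 : star v ⬝ᵥ ((G * h * Gᴴ) *ᵥ v) = (μ * conj μ) * (star v ⬝ᵥ (h *ᵥ v)) := by
        rw [← Matrix.mulVec_mulVec, hv3, Matrix.mulVec_smul, ← Matrix.mulVec_mulVec,
          dotProduct_smul, Matrix.dotProduct_mulVec]
        have e3 : star v ᵥ* G = μ • star v := by
          have e4 := congrArg star hv3
          rw [Matrix.star_mulVec, Matrix.conjTranspose_conjTranspose, star_smul] at e4
          rw [e4]; simp
        rw [e3, smul_dotProduct]
        simp only [smul_eq_mul]; ring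
      rw [he] at e2
      exact e2
    have e5 : (μ * conj μ) = 1 := by
      have : (μ * conj μ - 1) * (star v ⬝ᵥ (h *ᵥ v)) = 0 := by linear_combination -e1
      rcases mul_eq_zero.1 this with h1 | h1
      · exact sub_eq_zero.1 h1
      · exact absurd h1 hpos.ne'
    rw [Complex.mul_conj] at e5
    exact_mod_cast e5
  have htr : ‖G.trace‖ ≤ 2 := by
    obtain ⟨s, hs⟩ := IsAlgClosed.exists_pow_nat_eq (G.trace ^ 2 - 4 * G.det) (n := 2) (by norm_num)
    have h1 := heig ((G.trace + s) / 2) (by linear_combination (1 / 4) * hs)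
    have h2 := heig ((G.trace - s) / 2) (by linear_combination (1 / 4) * hs)
    have h3 : ∀ μ : ℂ, Complex.normSq μ = 1 → ‖μ‖ = 1 := by
      intro μ hμ
      rw [Complex.normSq_eq_norm_sq] at hμ
      have := norm_nonneg μ
      nlinarith
    calc ‖G.trace‖ = ‖(G.trace + s) / 2 + (G.trace - s) / 2‖ := by congr 1; ring
      _ ≤ ‖(G.trace + s) / 2‖ + ‖(G.trace - s) / 2‖ := norm_add_le _ _
      _ = 2 := by rw [h3 _ h1, h3 _ h2]; norm_num
  -- the trace of the inverse
  have hconj : conj G.trace * G.det = G.trace := by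
    have hunit : IsUnit G.det := by
      rw [isUnit_iff_ne_zero]
      intro h0; rw [h0] at hdd; simp at hdd
    have h1 : G.adjugate * (G * h * Gᴴ) * h⁻¹ = G.det • (h * Gᴴ * h⁻¹) := by
      rw [Matrix.mul_assoc G, ← Matrix.mul_assoc G.adjugate, Matrix.adjugate_mul]
      simp [Matrix.mul_assoc]
    rw [he, Matrix.mul_assoc, Matrix.mul_nonsing_inv h (isUnit_iff_ne_zero.2 hdeth),
      Matrix.mul_one] at h1
    have h2 := congrArg Matrix.trace h1
    rw [Matrix.trace_smul, Matrix.trace_mul_comm (h * Gᴴ), ← Matrix.mul_assoc,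
      Matrix.nonsing_inv_mul h (isUnit_iff_ne_zero.2 hdeth), Matrix.one_mul,
      Matrix.trace_conjTranspose] at h2
    have h3 : G.adjugate.trace = G.trace := by
      rw [Matrix.adjugate_fin_two, Matrix.trace_fin_two, Matrix.trace_fin_two]
      simp [add_comm]
    rw [h3, smul_eq_mul] at h2
    rw [mul_comm]
    exact h2.symm
  have htrG : G.trace = φ ((g.1 0 0 + g.1 1 1 : 𝓞 K11) : K11) := by
    rw [Matrix.trace_fin_two]; simp [hG, toC]
  set t := g.1 0 0 + g.1 1 1 with ht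
  have hnm : nm t ≤ 4 := by
    have h1 := nm_phi φ t
    rw [← htrG, Complex.normSq_eq_norm_sq] at h1
    have h2 : ‖G.trace‖ ^ 2 ≤ 4 := by nlinarith [norm_nonneg G.trace]
    rw [h1] at h2
    exact_mod_cast h2
  obtain ⟨a, b, hab⟩ := repr_O t
  have hφt : G.trace = a + b * φ wK := by rw [htrG, hab, phi_coe]
  rw [hab, nm_apply] at hnm
  have hindep : ∀ m n : ℤ, (m : ℂ) + n * φ wK = 0 → m = 0 ∧ n = 0 := by
    intro m n hmn
    have : φ (((m : 𝓞 K11) + (n : 𝓞 K11) * w : 𝓞 K11) : K11) = 0 := by rw [phi_coe, hmn]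
    have h1 : (((m : 𝓞 K11) + (n : 𝓞 K11) * w : 𝓞 K11) : K11) = 0 :=
      (map_eq_zero φ).1 this
    exact repr_unique (by exact_mod_cast h1)
  rw [hφt] at hconj
  rcases hu with h1 | h1
  · left
    refine ⟨h1, ?_⟩
    rw [hdetG, h1] at hconj
    simp only [map_add, map_mul, map_intCast, phi_w_conj, map_one, mul_one] at hconj
    have h2 : ((b : ℤ) : ℂ) + ((-2 * b : ℤ) : ℂ) * φ wK = 0 := by
      push_cast; linear_combination hconj
    obtain ⟨h3, -⟩ := hindep _ _ h2
    subst h3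
    refine ⟨a, ?_, ?_, ?_⟩
    · nlinarith
    · nlinarith
    · rw [hab]; simp
  · right
    refine ⟨h1, ?_⟩
    rw [hdetG, h1] at hconj
    simp only [map_add, map_mul, map_intCast, phi_w_conj, map_one, mul_one, map_neg, mul_neg]
      at hconj
    have h2 : ((2 * a + b : ℤ) : ℂ) + ((0 : ℤ) : ℂ) * φ wK = 0 := by
      push_cast; linear_combination -hconj
    obtain ⟨h3, -⟩ := hindep _ _ h2
    have h4 : b = -2 * a := by linarith
    subst h4
    have h5 : a = 0 := by nlinarith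
    subst h5
    rw [hab]; simp

/-! ### The Eisenstein class -/

/-- The additive quadratic character of `𝔽₈₉`. -/
noncomputable def lam (F : Type) [Field F] (x : ZMod 89) : F := if x ^ 44 = 1 then 0 else 1

theorem lam_mul {F : Type} [Field F] [CharP F 2] {x y : ZMod 89} (hx : x ≠ 0) (hy : y ≠ 0) :
    lam F (x * y) = lam F x + lam F y := by
  have h : ∀ z : ZMod 89, z ≠ 0 → z ^ 44 = 1 ∨ z ^ 44 = -1 := by
    intro z hz
    have h1 : z ^ 88 = 1 := ZMod.pow_card_sub_one_eq_one hz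
    have h2 : (z ^ 44 - 1) * (z ^ 44 + 1) = 0 := by
      have : z ^ 88 = (z ^ 44) * z ^ 44 := by rw [← pow_add]
      rw [this] at h1
      linear_combination h1
    rcases mul_eq_zero.1 h2 with h3 | h3
    · left; exact sub_eq_zero.1 h3
    · right; exact eq_neg_of_add_eq_zero_left h3
  have hne : (-1 : ZMod 89) ≠ 1 := by decide
  unfold lam
  rw [mul_pow]
  rcases h x hx with h1 | h1 <;> rcases h y hy with h2 | h2 <;> rw [h1, h2] <;>
    simp [hne, CharTwo.add_self_eq_zero]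

theorem lam_ell {F : Type} [Field F] (D : ZMod 89) (t : ZMod 89) (δ : ZMod 89)
    (h : D ^ 2 - t * D + δ = 0)
    (h2 : (δ = 1 ∧ ∃ a : ℤ, -2 ≤ a ∧ a ≤ 2 ∧ t = a) ∨ (δ = -1 ∧ t = 0)) : lam F D = 0 := by
  have key : D ^ 44 = 1 := by
    rcases h2 with ⟨rfl, a, ha, ha', rfl⟩ | ⟨rfl, rfl⟩
    · have h3 : ∀ a : Fin 5, ∀ D : ZMod 89, D ^ 2 - ((a : ℕ) - 2 : ZMod 89) * D + 1 = 0 →
          D ^ 44 = 1 := by decide +kernel
      have h4 := h3 ⟨(a + 2).toNat, by omega⟩ D
      apply h4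
      have h5 : (((a + 2).toNat : ℕ) : ZMod 89) = ((a + 2 : ℤ) : ZMod 89) := by
        rw [← Int.cast_natCast, Int.toNat_of_nonneg (by omega)]
      rw [show ((⟨(a + 2).toNat, by omega⟩ : Fin 5) : ℕ) = (a + 2).toNat from rfl, h5]
      push_cast
      linear_combination h
    · have h3 : ∀ D : ZMod 89, D ^ 2 - 0 * D + -1 = 0 → D ^ 44 = 1 := by decide +kernel
      exact h3 D h
  rw [lam, if_pos key]

theorem f89_diag_ne {γ : GL (Fin 2) (𝓞 K11)} (hγ : γ ∈ Gamma0 lev) : f89 (γ.1 1 1) ≠ 0 := by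
  rw [mem_Gamma0] at hγ
  have h1 : IsUnit (γ.1.det) := (Matrix.isUnit_iff_isUnit_det _).1 γ.isUnit
  have h2 := f89_unit h1
  rw [Matrix.det_fin_two, map_sub, map_mul, map_mul, hγ, mul_zero, sub_zero] at h2
  exact right_ne_zero_of_mul h2

/-- The Eisenstein class. -/
noncomputable def eis (F : Type) [Field F] (γ : Gamma0 lev) : F := lam F (f89 (γ.1.1 1 1))

theorem eis_mem (φ : K11 →+* ℂ) (F : Type) [Field F] [CharP F 2] : eis F ∈ H1 φ lev F := by
  constructor
  · intro a b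
    unfold eis
    rw [← lam_mul (f89_diag_ne a.2) (f89_diag_ne b.2), Subgroup.coe_mul, Units.val_mul,
      Matrix.mul_apply, Fin.sum_univ_two, map_add, map_mul, map_mul, (mem_Gamma0 _).1 a.2,
      zero_mul, zero_add]
  · intro γ hγ
    have hc := (mem_Gamma0 _).1 γ.2
    have h1 := elliptic_trace hγ
    refine lam_ell (f89 (γ.1.1 1 1)) (f89 (γ.1.1 0 0 + γ.1.1 1 1)) (f89 γ.1.1.det) ?_ ?_
    · rw [Matrix.det_fin_two, map_sub, map_add, map_mul, map_mul, hc]; ring
    · rcases h1 with ⟨h2, a, h3, h4, h5⟩ | ⟨h2, h3⟩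
      · left
        refine ⟨by rw [h2, map_one], a, h3, h4, by rw [h5]; simp⟩
      · right
        exact ⟨by rw [h2, map_neg, map_one], by rw [h3, map_zero]⟩

/-- The Eisenstein class is not zero. -/
theorem eis_ne (F : Type) [Field F] : eis F ≠ 0 := by
  intro h
  -- `(30 1; 89 3)` has determinant one
  have h3 : (3 : 𝓞 K11) * 30 - 89 * 1 = 1 := by norm_num
  let γ : GL (Fin 2) (𝓞 K11) := Matrix.GeneralLinearGroup.mk'' !![30, 1; 89, 3]
    (by rw [Matrix.det_fin_two]; simp only [Matrix.of_apply, Matrix.cons_val', Matrix.cons_val_zero,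
          Matrix.cons_val_one, Matrix.cons_val_fin_one]; norm_num)
  have hm : γ ∈ Gamma0 lev := by
    rw [mem_Gamma0]
    show f89 89 = 0
    rw [map_ofNat]; decide
  have h1 := congrFun h ⟨γ, hm⟩
  have h2 : eis F ⟨γ, hm⟩ = 1 := by
    show lam F (f89 3) = 1
    rw [map_ofNat, lam, if_neg (by decide +kernel)]
  rw [h2] at h1
  exact one_ne_zero h1

theorem eis_cases (F : Type) [Field F] (γ : Gamma0 lev) : eis F γ = 0 ∨ eis F γ = 1 := by
  unfold eis lam; split_ifs <;> simp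

/-- `T_π` acts on the Eisenstein class by an element of `𝔽₂`. -/
theorem heckeT_eis (φ : K11 →+* ℂ) (F : Type) [Field F] [CharP F 2] {π : 𝓞 K11} (hπ : Prime π)
    (hN : IsCoprime (Ideal.span {π}) lev) :
    ∃ n : ℕ, heckeT φ lev F hπ hN ⟨eis F, eis_mem φ F⟩ = (n : F) • ⟨eis F, eis_mem φ F⟩ := by
  have := finite_idx hπ
  have := Fintype.ofFinite (Option (𝓞 K11 ⧸ Ideal.span {π}))
  refine ⟨Fintype.card (Option (𝓞 K11 ⧸ Ideal.span {π})), ?_⟩
  apply Subtype.ext
  funext γ
  show (∑ᶠ j, eis F (heckeStep hπ hN γ j).1) = _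
  rw [finsum_eq_sum_of_fintype]
  have hπ0 : f89 π ≠ 0 := by
    intro h0
    obtain ⟨i, hi, n, hn, hin⟩ := Ideal.isCoprime_iff_exists.1 hN
    obtain ⟨t, rfl⟩ := Ideal.mem_span_singleton'.1 hi
    have h1 := congrArg f89 hin
    rw [map_add, map_mul, h0, mul_zero, (mem_lev n).1 hn, map_one, add_zero] at h1
    exact zero_ne_one h1
  have hd : ∀ j : Option (𝓞 K11 ⧸ Ideal.span {π}), f89 (heckeRep π j 1 1) ≠ 0 := by
    intro j
    cases j with
    | none => simp [heckeRep]
    | some b => simpa [heckeRep] using hπ0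
  have key : ∀ j, eis F (heckeStep hπ hN γ j).1 = eis F γ + lam F (f89 (heckeRep π j 1 1)) +
      lam F (f89 (heckeRep π (heckePerm hπ hN γ j) 1 1)) := by
    intro j
    have h1 := congrFun (congrFun (heckeStep_spec hπ hN γ j) 1) 1
    rw [Matrix.mul_apply, Matrix.mul_apply, Fin.sum_univ_two, Fin.sum_univ_two, heckeRep_lower,
      zero_mul, zero_add] at h1
    have h2 := congrArg f89 h1
    rw [map_add, map_mul, map_mul, map_mul, (mem_Gamma0 _).1 (heckeStep hπ hN γ j).1.2, zero_mul,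
      zero_add] at h2
    have h3 := congrArg (lam F) h2
    rw [lam_mul (hd j) (f89_diag_ne γ.2),
      lam_mul (f89_diag_ne (heckeStep hπ hN γ j).1.2) (hd _)] at h3
    have h4 : lam F (f89 (heckeRep π (heckePerm hπ hN γ j) 1 1)) +
      lam F (f89 (heckeRep π (heckePerm hπ hN γ j) 1 1)) = 0 := CharTwo.add_self_eq_zero _
    unfold eis
    change _ + _ = _ + lam F (f89 (heckeRep π (heckePerm hπ hN γ j) 1 1)) at h3
    linear_combination -h3 + h4 * (-1)
  simp only [key, Finset.sum_add_distrib]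
  rw [Equiv.sum_comp (heckePerm hπ hN γ) (fun j => lam F (f89 (heckeRep π j 1 1))), add_assoc,
    CharTwo.add_self_eq_zero, add_zero, Finset.sum_const, Finset.card_univ, nsmul_eq_mul]
  rfl

end Pool.Agent.K4H51.SB
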