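import Pool.Agent.K4H51.SB.FFa

/-!
# Finite flatness at 2
-/

set_option autoImplicit false
set_option linter.unusedSectionVars false
set_option linter.unusedSimpArgs false

open NumberField IsDedekindDomain Matrix

namespace Pool.Agent.K4H51.SB

open Pool.Agent.Y682

section

variable {v : HeightOneSpectrum (𝓞 K11)}

theorem iv_w_eq (x : v.adicCompletion K11) (h : x = iv v w) :
    algebraMap (v.adicCompletion K11) (AlgebraicClosure (v.adicCompletion K11)) x =
      algebraMap K11 (AlgebraicClosure (v.adicCompletion K11)) wK := by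
  rw [h]
  show algebraMap (v.adicCompletion K11) (AlgebraicClosure (v.adicCompletion K11))
    (algebraMap K11 (v.adicCompletion K11) wK) = _
  rw [← IsScalarTower.algebraMap_apply]

theorem exists_good_lab (j : LL →ₐ[K11] AlgebraicClosure (v.adicCompletion K11))
    {u : v.adicCompletion K11} (hu : u ^ 2 = -(2 + 5 * iv v w)) :
    ∃ R : Lab LL, dd R.β = -2 ∧ j (dd R.α) =
      2 * algebraMap (v.adicCompletion K11) (AlgebraicClosure (v.adicCompletion K11)) u := by
  obtain ⟨R0⟩ := exists_lab
  obtain ⟨R1, h1⟩ : ∃ R1 : Lab LL, dd R1.β = -2 := by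
    rcases R0.dd_β with h | h
    · refine ⟨R0.swapG, ?_⟩
      show dd (fun i => R0.β (Equiv.swap 1 2 i)) = -2
      rw [dd_swap, h]
    · exact ⟨R0, h⟩
  have h2 : (j (dd R1.α)) ^ 2 = (2 * algebraMap (v.adicCompletion K11)
      (AlgebraicClosure (v.adicCompletion K11)) u) ^ 2 := by
    rw [← map_pow, R1.dd_α_sq, mul_pow, ← map_pow, hu, j.commutes]
    simp only [map_neg, map_add, map_mul, map_ofNat]
    rw [iv_w_eq _ rfl]
    ring
  rcases sq_eq_sq_iff_eq_or_eq_neg.1 h2 with h | h
  · exact ⟨R1, h1, h⟩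
  · refine ⟨R1.swapF, h1, ?_⟩
    show j (dd (fun i => R1.α (Equiv.swap 1 2 i))) = _
    rw [dd_swap, map_neg, h, neg_neg]

theorem tm_z4_pow {E : Type} [Field E] {ζ : E} (k : Fin 3) : tm ζ (z4 ^ k.val) = ζ ^ k.val := by
  fin_cases k
  · simp
  · simp
  · simp

theorem pow_neg_fin {M : Type} [Monoid M] {z : M} (h3 : z ^ 3 = 1) (x : Fin 3) :
    z ^ x.val * z ^ (-x).val = 1 := by
  rw [← pow_add_fin h3, add_neg_cancel]
  simp

/-- The resolvents of the two cubics. -/
theorem resolvents (R : Lab LL) (j : LL →ₐ[K11] AlgebraicClosure (v.adicCompletion K11))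
    {ζ u Uf Ug : v.adicCompletion K11} (hζ : ζ ^ 2 + ζ + 1 = 0)
    (hUg : -7 * (2 * iv v w - 1) + 3 * (2 * ζ + 1) = 2 * Ug)
    (hUf : 3 - 7 * iv v w - 3 * (2 * ζ + 1) * u = 2 * Uf)
    (hβ : dd R.β = -2)
    (hα : j (dd R.α) = 2 * algebraMap (v.adicCompletion K11)
      (AlgebraicClosure (v.adicCompletion K11)) u) :
    (j (R.α 0) + algebraMap (v.adicCompletion K11) (AlgebraicClosure (v.adicCompletion K11)) ζ *
      j (R.α 1) + (algebraMap (v.adicCompletion K11) (AlgebraicClosure (v.adicCompletion K11)) ζ) ^ 2 *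
      j (R.α 2)) ^ 3 = 2 * algebraMap _ _ Uf ∧
    (j (R.β 0) + algebraMap (v.adicCompletion K11) (AlgebraicClosure (v.adicCompletion K11)) ζ *
      j (R.β 1) + (algebraMap (v.adicCompletion K11) (AlgebraicClosure (v.adicCompletion K11)) ζ) ^ 2 *
      j (R.β 2)) ^ 3 = 2 * algebraMap _ _ Ug := by
  have hchar : CharZero (AlgebraicClosure (v.adicCompletion K11)) := charZero_ext _
  set Z := algebraMap (v.adicCompletion K11) (AlgebraicClosure (v.adicCompletion K11)) ζ with hZ
  have hZr : Z ^ 2 + Z + 1 = 0 := by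
    rw [hZ, ← map_pow, ← map_add, ← map_one (algebraMap (v.adicCompletion K11)
      (AlgebraicClosure (v.adicCompletion K11))), ← map_add, hζ, map_zero]
  have ew := iv_w_eq (v := v) (iv v w) rfl
  set W := algebraMap K11 (AlgebraicClosure (v.adicCompletion K11)) wK with hW
  have hWsq : W ^ 2 = W - 3 := by
    rw [hW, ← map_pow, wK_sq, map_sub, map_ofNat]
  have hj : ∀ x : K11, j (algebraMap K11 LL x) = algebraMap K11 _ x := fun x => j.commutes x
  constructor
  · have h1 := R.hα
    have h2 : Roots3 (algebraMap K11 (AlgebraicClosure (v.adicCompletion K11)) (2 * wK))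
        (algebraMap K11 (AlgebraicClosure (v.adicCompletion K11)) (-4))
        (algebraMap K11 (AlgebraicClosure (v.adicCompletion K11)) (-(2 * (wK - 1))))
        (fun i => j (R.α i)) := by
      constructor
      · rw [← hj, ← h1.s₁]; simp
      · rw [← hj, ← h1.s₂]; simp
      · rw [← hj, ← h1.s₃]; simp
    have h3 := resolvent_cube hZr h2
    have h4 : dd (fun i => j (R.α i)) = 2 * algebraMap (v.adicCompletion K11)
      (AlgebraicClosure (v.adicCompletion K11)) u := by
      rw [← hα]
      exact (Lab.dd_map (j : LL →+* AlgebraicClosure (v.adicCompletion K11)) R.α).symm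
    rw [h4] at h3
    have h5 := congrArg (algebraMap (v.adicCompletion K11)
      (AlgebraicClosure (v.adicCompletion K11))) hUf
    simp only [map_sub, map_mul, map_add, map_neg, map_ofNat, map_one, ew, ← hW, ← hZ] at h3 h5
    apply mul_left_cancel₀ (two_ne_zero (α := AlgebraicClosure (v.adicCompletion K11)))
    rw [← h5, h3]
    linear_combination (16 * W + 16) * hWsq
  · have h1 := R.hβ
    have h2 : Roots3 (algebraMap K11 (AlgebraicClosure (v.adicCompletion K11)) (1 - 2 * wK))
        (algebraMap K11 (AlgebraicClosure (v.adicCompletion K11)) (-1))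
        (algebraMap K11 (AlgebraicClosure (v.adicCompletion K11)) (1 - 2 * wK))
        (fun i => j (R.β i)) := by
      constructor
      · rw [← hj, ← h1.s₁]; simp
      · rw [← hj, ← h1.s₂]; simp
      · rw [← hj, ← h1.s₃]; simp
    have h3 := resolvent_cube hZr h2
    have h4 : dd (fun i => j (R.β i)) = -2 := by
      have e := Lab.dd_map (j : LL →+* AlgebraicClosure (v.adicCompletion K11)) R.β
      rw [hβ, map_neg, map_ofNat] at e
      exact e.symm
    rw [h4] at h3
    have h5 := congrArg (algebraMap (v.adicCompletion K11)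
      (AlgebraicClosure (v.adicCompletion K11))) hUg
    simp only [map_sub, map_mul, map_add, map_neg, map_ofNat, map_one, ew, ← hW, ← hZ] at h3 h5
    apply mul_left_cancel₀ (two_ne_zero (α := AlgebraicClosure (v.adicCompletion K11)))
    rw [← h5, h3]
    linear_combination (8 * (1 - 2 * W)) * hWsq

end

end Pool.Agent.K4H51.SB
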