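import Pool.Agent.K4H51.SB.Teich

/-!
# Finite flat group schemes with prescribed points
-/

set_option autoImplicit false
set_option linter.unusedSectionVars false

open Polynomial TensorProduct

namespace Pool.Agent.K4H51.SB

section

variable {R E : Type} [CommRing R] [Nontrivial R] [Field E] [Algebra R E]

theorem root_eq {ζ c z x : E} (hζ : ζ ^ 2 + ζ + 1 = 0) (hz : z ^ 3 = c) (hz0 : z ≠ 0)
    (hx : x ^ 4 = c * x) : ∃ a : F4, z * tm ζ a = x := by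
  by_cases hx0 : x = 0
  · exact ⟨0, by simp [hx0]⟩
  · have h1 : x ^ 3 = z ^ 3 := by
      apply mul_right_cancel₀ hx0
      rw [hz, ← hx]; ring
    have h3 := zeta_cube hζ
    have h2 : (x - z) * ((x - z * ζ) * (x - z * ζ ^ 2)) = 0 := by
      linear_combination h1 + (-(x * z * (x - z))) * hζ + (-(z ^ 2 * (z - x))) * h3
    rcases mul_eq_zero.1 h2 with h | h
    · exact ⟨1, by rw [tm_one, mul_one]; exact (sub_eq_zero.1 h).symm⟩
    · rcases mul_eq_zero.1 h with h | h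
      · exact ⟨z4, by rw [tm_z4]; exact (sub_eq_zero.1 h).symm⟩
      · exact ⟨z4 ^ 2, by rw [tm_z4_sq]; exact (sub_eq_zero.1 h).symm⟩

theorem tm_four {ζ c z : E} (hζ : ζ ^ 2 + ζ + 1 = 0) (hz : z ^ 3 = c) (a : F4) :
    (z * tm ζ a) ^ 4 = c * (z * tm ζ a) := by
  have h3 := zeta_cube hζ
  rcases F4_cases a with rfl | rfl | rfl | rfl
  · simp
  · rw [tm_one, ← hz]; ring
  · rw [tm_z4, ← hz]; linear_combination (z ^ 4 * ζ) * h3
  · rw [tm_z4_sq, ← hz]; linear_combination (z ^ 4 * ζ ^ 2) * (ζ ^ 3 + 1) * h3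

theorem exists_scheme {c₁ d₁ c₂ d₂ t : R} (h₁ : c₁ * d₁ = 2) (h₂ : c₂ * d₂ = 2) (ht : 3 * t = 1)
    {z₁ z₂ ζ : E} (hζ : ζ ^ 2 + ζ + 1 = 0) (hz₁ : z₁ ^ 3 = algebraMap R E c₁)
    (hz₂ : z₂ ^ 3 = algebraMap R E c₂) (h0₁ : z₁ ≠ 0) (h0₂ : z₂ ≠ 0) :
    ∃ (A : Type) (_ : CommRing A) (_ : HopfAlgebra R A),
      Module.Finite R A ∧ Module.Flat R A ∧ Coalgebra.IsCocomm R A ∧
      ∃ e : (A →ₐ[R] E) ≃ (Fin 2 → F4),
        (∀ f g, e (pointMul f g) = e f + e g) ∧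
        ∀ (s : E →ₐ[R] E) (a₁ a₂ : F4), s ζ = ζ → s z₁ = z₁ * tm ζ a₁ → s z₂ = z₂ * tm ζ a₂ →
          ∀ f, e (s.comp f) = ![a₁ * e f 0, a₂ * e f 1] := by
  have h3 : (3 : E) ≠ 0 := by
    intro h0
    have := mapt ht E
    rw [h0, zero_mul] at this
    exact zero_ne_one this
  have htE := mapt ht E
  set p₁ := isPt_root c₁
  set p₂ := isPt_root c₂
  let r₁ : HA c₁ := AdjoinRoot.root (X ^ 4 - C c₁ * X : R[X])
  let r₂ : HA c₂ := AdjoinRoot.root (X ^ 4 - C c₂ * X : R[X])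
  let _ := p₁.hopfA h₁ ht
  let _ := p₂.hopfA h₂ ht
  have hco₁ := p₁.cocomm h₁ ht
  have hco₂ := p₂.cocomm h₂ ht
  have hf₁ := finite_HA c₁
  have hf₂ := finite_HA c₂
  have hr₁ := free_HA c₁
  have hr₂ := free_HA c₂
  have ex₁ : ∀ a : F4, ∃ f : HA c₁ →ₐ[R] E, f r₁ = z₁ * tm ζ a := fun a =>
    p₁.lift E _ (tm_four hζ hz₁ a)
  have ex₂ : ∀ a : F4, ∃ f : HA c₂ →ₐ[R] E, f r₂ = z₂ * tm ζ a := fun a =>
    p₂.lift E _ (tm_four hζ hz₂ a)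
  choose F₁ hF₁ using ex₁
  choose F₂ hF₂ using ex₂
  let Ψ : (Fin 2 → F4) → (HA c₁ ⊗[R] HA c₂ →ₐ[R] E) := fun a =>
    Algebra.TensorProduct.lift (F₁ (a 0)) (F₂ (a 1)) (fun _ _ => Commute.all _ _)
  have hΨ₁ : ∀ a, Ψ a (r₁ ⊗ₜ 1) = z₁ * tm ζ (a 0) := by
    intro a; simp [Ψ, hF₁]
  have hΨ₂ : ∀ a, Ψ a (1 ⊗ₜ r₂) = z₂ * tm ζ (a 1) := by
    intro a; simp [Ψ, hF₂]
  have hext : ∀ f g : HA c₁ ⊗[R] HA c₂ →ₐ[R] E, f (r₁ ⊗ₜ 1) = g (r₁ ⊗ₜ 1) →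
      f (1 ⊗ₜ r₂) = g (1 ⊗ₜ r₂) → f = g := by
    intro f g hfg hfg'
    apply Algebra.TensorProduct.ext
    · exact p₁.ext E _ _ hfg
    · exact p₂.ext E _ _ hfg'
  have hbij : Function.Bijective Ψ := by
    constructor
    · intro a b hab
      have e1 : z₁ * tm ζ (a 0) = z₁ * tm ζ (b 0) := by rw [← hΨ₁, ← hΨ₁, hab]
      have e2 : z₂ * tm ζ (a 1) = z₂ * tm ζ (b 1) := by rw [← hΨ₂, ← hΨ₂, hab]
      funext i
      fin_cases i
      · exact tm_inj hζ h3 (mul_left_cancel₀ h0₁ e1)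
      · exact tm_inj hζ h3 (mul_left_cancel₀ h0₂ e2)
    · intro f
      obtain ⟨a, ha⟩ := root_eq (x := f (r₁ ⊗ₜ 1)) hζ hz₁ h0₁
        (p₁.pt_four (f.comp Algebra.TensorProduct.includeLeft))
      obtain ⟨b, hb⟩ := root_eq (x := f (1 ⊗ₜ r₂)) hζ hz₂ h0₂
        (p₂.pt_four (f.comp Algebra.TensorProduct.includeRight))
      refine ⟨![a, b], hext _ _ ?_ ?_⟩
      · rw [hΨ₁]; exact ha
      · rw [hΨ₂]; exact hb
  let e := (Equiv.ofBijective Ψ hbij).symm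
  have he : ∀ f, Ψ (e f) = f := fun f => (Equiv.ofBijective Ψ hbij).apply_symm_apply f
  refine ⟨HA c₁ ⊗[R] HA c₂, inferInstance, inferInstance, inferInstance, inferInstance,
    inferInstance, e, ?_, ?_⟩
  · intro f g
    apply hbij.1
    rw [he]
    apply hext
    · rw [pointMul_left, p₁.pointMul_z h₁ ht, hΨ₁, Pi.add_apply, ← tm_add hζ hz₁ (mapcd h₁ E) htE,
        ← hΨ₁, ← hΨ₁, he, he]
      rfl
    · rw [pointMul_right, p₂.pointMul_z h₂ ht, hΨ₂, Pi.add_apply,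
        ← tm_add hζ hz₂ (mapcd h₂ E) htE, ← hΨ₂, ← hΨ₂, he, he]
      rfl
  · intro s a₁ a₂ hsζ hs₁ hs₂ f
    apply hbij.1
    rw [he]
    have hst : ∀ a, s (tm ζ a) = tm ζ a := by
      intro a
      rcases F4_cases a with rfl | rfl | rfl | rfl
      · simp
      · simp
      · simp [hsζ]
      · simp [hsζ]
    apply hext
    · rw [AlgHom.comp_apply, hΨ₁]
      conv_lhs => rw [← he f, hΨ₁]
      rw [map_mul, hs₁, hst, Matrix.cons_val_zero, tm_mul hζ]; ring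
    · rw [AlgHom.comp_apply, hΨ₂]
      conv_lhs => rw [← he f, hΨ₂]
      rw [map_mul, hs₂, hst, Matrix.cons_val_one, Matrix.cons_val_fin_one, tm_mul hζ]; ring

end

end Pool.Agent.K4H51.SB
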