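import Pool.Agent.K4H51.SB.Split
import Pool.Agent.K4H51.SB.Prim
import Pool.Agent.K4H51.SB.Flat

/-!
# Finite flatness at 2: preparations
-/

set_option autoImplicit false
set_option linter.unusedSectionVars false
set_option linter.unusedSimpArgs false

open NumberField IsDedekindDomain Matrix

namespace Pool.Agent.K4H51.SB

theorem exists_res_hom {F N E : Type} [Field F] [Field N] [Field E] [Algebra F N] [Algebra F E]
    [Normal F N] (j : N →ₐ[F] E) :
    ∃ r : (E ≃ₐ[F] E) →* (N ≃ₐ[F] N), ∀ σ x, j (r σ x) = σ (j x) := by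
  let _ : Algebra N E := j.toRingHom.toAlgebra
  have : IsScalarTower F N E := IsScalarTower.of_algebraMap_eq' j.comp_algebraMap.symm
  exact ⟨AlgEquiv.restrictNormalHom N, fun σ x => AlgEquiv.restrictNormal_commutes σ N x⟩

theorem resolvent_shift {E : Type} [Field E] {ζ : E} (h3 : ζ ^ 3 = 1) (A : Fin 3 → E)
    (k : Fin 3) : ζ ^ k.val * (A (0 + k) + ζ * A (1 + k) + ζ ^ 2 * A (2 + k)) =
      A 0 + ζ * A 1 + ζ ^ 2 * A 2 := by
  fin_cases k
  · simp
  · show ζ ^ 1 * (A 1 + ζ * A 2 + ζ ^ 2 * A 0) = _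
    linear_combination A 0 * h3
  · show ζ ^ 2 * (A 2 + ζ * A 0 + ζ ^ 2 * A 1) = _
    linear_combination (A 0 + ζ * A 1) * h3

theorem resolvent_cube {E : Type} [Field E] {ζ : E} (hζ : ζ ^ 2 + ζ + 1 = 0) {e₁ e₂ e₃ : E}
    {A : Fin 3 → E} (h : Roots3 e₁ e₂ e₃ A) :
    2 * (A 0 + ζ * A 1 + ζ ^ 2 * A 2) ^ 3 =
      2 * e₁ ^ 3 - 9 * e₁ * e₂ + 27 * e₃ - 3 * (2 * ζ + 1) * dd A := by
  have h3 := zeta_cube hζ
  rw [← h.s₁, ← h.s₂, ← h.s₃]
  unfold dd
  generalize A 0 = x
  generalize A 1 = y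
  generalize A 2 = z
  linear_combination (2 * ((y ^ 3 + 6 * x * y * z) + (3 * y ^ 2 * z + 3 * x * z ^ 2) * ζ +
    3 * y * z ^ 2 * ζ ^ 2 + z ^ 3 * (ζ ^ 3 + 1))) * h3 +
    (2 * (3 * x * y ^ 2 + 3 * x ^ 2 * z + 3 * y * z ^ 2)) * hζ

/-- The base change diagonalising the three-cycles. -/
noncomputable def MM : GL (Fin 2) (Fbar 2) where
  val := !![1, zb ^ 2; 1, zb]
  inv := !![zb, zb ^ 2; 1, 1]
  val_inv := by
    ext i j
    fin_cases i <;> fin_cases j <;> simp [Matrix.mul_apply, Fin.sum_univ_two]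
    · linear_combination zb_sq + zb * two_Fbar
    · linear_combination (zb ^ 2) * two_Fbar
    · linear_combination zb * two_Fbar
    · linear_combination zb_sq + zb * two_Fbar
  inv_val := by
    ext i j
    fin_cases i <;> fin_cases j <;> simp [Matrix.mul_apply, Fin.sum_univ_two]
    · linear_combination zb_sq + zb * two_Fbar
    · linear_combination zb_cube * 2 + two_Fbar
    · linear_combination two_Fbar
    · linear_combination zb_sq + zb * two_Fbar

theorem M2_even (p : Equiv.Perm (Fin 3)) (hp : Equiv.Perm.sign p = 1) :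
    M2 p = if p 0 = 0 then 1 else if p 0 = 1 then !![1, 1; 1, 0] else !![0, 1; 1, 1] := by
  revert p; decide +kernel

theorem MM_conj (p : Equiv.Perm (Fin 3)) (hp : Equiv.Perm.sign p = 1) :
    (MM : Matrix (Fin 2) (Fin 2) (Fbar 2)) * Mb p =
      Matrix.diagonal ![zb ^ (p 0).val, zb ^ (-p 0).val] * MM := by
  have h2 := M2_even p hp
  have hM : (MM : Matrix (Fin 2) (Fin 2) (Fbar 2)) = !![1, zb ^ 2; 1, zb] := rfl
  have e0 := two_Fbar
  have e1 := zb_sq
  have e3 := zb_cube
  rw [hM, Mb, h2]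
  generalize p 0 = k
  fin_cases k
  · have h1 : (-(0 : Fin 3)) = 0 := by decide
    ext i j
    fin_cases i <;> fin_cases j <;>
      simp [Matrix.mul_apply, Fin.sum_univ_two, Matrix.diagonal_apply, Matrix.one_apply, h1]
  · have h1 : (-(1 : Fin 3)) = 2 := by decide
    ext i j
    fin_cases i <;> fin_cases j <;>
      simp [Matrix.mul_apply, Fin.sum_univ_two, Matrix.diagonal_apply, Matrix.one_apply, h1]
    · linear_combination e1 + e0
    · linear_combination -e3
    · linear_combination -e1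
    · linear_combination -e3
  · have h1 : (-(2 : Fin 3)) = 1 := by decide
    ext i j
    fin_cases i <;> fin_cases j <;>
      simp [Matrix.mul_apply, Fin.sum_univ_two, Matrix.diagonal_apply, Matrix.one_apply, h1]
    · linear_combination e1 - zb * e3 + e0
    · linear_combination -e1

end Pool.Agent.K4H51.SB
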