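import Mathlib

/-!
# The field `ℚ(√-11)`
-/

set_option autoImplicit false

open NumberField Polynomial

namespace Pool.Agent.K4H51.SB

instance fact11 : Fact (∀ r : ℚ, r ^ 2 ≠ (-3) + 1 * r) :=
  ⟨fun r h => by nlinarith [sq_nonneg (2 * r - 1)]⟩

/-- The field `ℚ(√-11) = ℚ(ω)`, `ω² = ω - 3`. -/
def K11 : Type := QuadraticAlgebra ℚ (-3) 1

/-- The ring `ℤ[ω]`, `ω² = ω - 3`. -/
abbrev R11 : Type := QuadraticAlgebra ℤ (-3) 1

noncomputable instance : Field K11 := inferInstanceAs (Field (QuadraticAlgebra ℚ (-3) 1))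

instance : CharZero K11 := by
  have h : CharZero (QuadraticAlgebra ℚ (-3) 1) := by
    refine charZero_of_injective_algebraMap (R := ℚ) ?_
    exact (algebraMap ℚ (QuadraticAlgebra ℚ (-3) 1)).injective
  exact h

/-- `ω` in `K11`. -/
def wK : K11 := (QuadraticAlgebra.omega : QuadraticAlgebra ℚ (-3) 1)

theorem wK_sq : wK ^ 2 = wK - 3 := by
  have h : (QuadraticAlgebra.omega : QuadraticAlgebra ℚ (-3) 1) *
      (QuadraticAlgebra.omega : QuadraticAlgebra ℚ (-3) 1) =
      (QuadraticAlgebra.omega : QuadraticAlgebra ℚ (-3) 1) - (3 : ℕ) := by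
    ext
    · simp [QuadraticAlgebra.re_ofNat]
    · simp [QuadraticAlgebra.im_ofNat]
  rw [pow_two]
  refine Eq.trans h ?_
  show wK - ((3 : ℕ) : K11) = wK - 3
  norm_num

theorem ratCast_eq (q : ℚ) : ((q : K11) : QuadraticAlgebra ℚ (-3) 1) = ⟨q, 0⟩ := rfl

theorem comb_eq (a b : ℚ) :
    (((a : K11) + (b : K11) * wK : K11) : QuadraticAlgebra ℚ (-3) 1) = ⟨a, b⟩ := by
  show (⟨a, 0⟩ : QuadraticAlgebra ℚ (-3) 1) + ⟨b, 0⟩ * ⟨0, 1⟩ = ⟨a, b⟩
  ext
  · simp
  · simp

theorem repr_K (x : K11) : ∃ a b : ℚ, x = (a : K11) + (b : K11) * wK := by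
  refine ⟨QuadraticAlgebra.re x, QuadraticAlgebra.im x, ?_⟩
  exact (comb_eq _ _).symm

theorem unique_K {a b : ℚ} (h : (a : K11) + (b : K11) * wK = 0) : a = 0 ∧ b = 0 := by
  have h1 := (comb_eq a b).symm.trans h
  exact ⟨congrArg QuadraticAlgebra.re h1, congrArg QuadraticAlgebra.im h1⟩

/-- The linear isomorphism `ℚ² ≃ K11`. -/
noncomputable def linK : (Fin 2 → ℚ) ≃ₗ[ℚ] K11 :=
  LinearEquiv.ofBijective
    ({ toFun := fun v => (v 0 : K11) + (v 1 : K11) * wK
       map_add' := by intro x y; simp; ring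
       map_smul' := by intro c x; simp [Rat.smul_def]; ring } : (Fin 2 → ℚ) →ₗ[ℚ] K11)
    (by
      constructor
      · rw [injective_iff_map_eq_zero]
        intro v hv
        obtain ⟨h1, h2⟩ := unique_K hv
        funext i
        fin_cases i
        · exact h1
        · exact h2
      · intro x
        obtain ⟨a, b, h⟩ := repr_K x
        exact ⟨![a, b], by simp [h]⟩)

instance : NumberField K11 where
  to_charZero := inferInstance
  to_finiteDimensional := Module.Finite.equiv linK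

theorem finrank_K11 : Module.finrank ℚ K11 = 2 := by
  rw [← linK.finrank_eq]; simp

/-- Complex conjugation on `K11`. -/
noncomputable def conjK : K11 →+* K11 :=
  (starRingEnd (QuadraticAlgebra ℚ (-3) 1) :
    QuadraticAlgebra ℚ (-3) 1 →+* QuadraticAlgebra ℚ (-3) 1)

theorem conjK_wK : conjK wK = 1 - wK := by
  show star (⟨0, 1⟩ : QuadraticAlgebra ℚ (-3) 1) = (1 : QuadraticAlgebra ℚ (-3) 1) - ⟨0, 1⟩
  ext
  · simp [QuadraticAlgebra.re_one]
  · simp [QuadraticAlgebra.im_one]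

theorem int_of_integral (q : ℚ) (h : IsIntegral ℤ (q : K11)) : ∃ n : ℤ, (n : ℚ) = q := by
  have h0 : (q : K11) = algebraMap ℚ K11 q := (eq_ratCast _ q).symm
  rw [h0] at h
  have h1 : IsIntegral ℤ q := (isIntegral_algebraMap_iff (algebraMap ℚ K11).injective).1 h
  exact IsIntegrallyClosed.isIntegral_iff.1 h1

theorem integral_repr (x : K11) (h : IsIntegral ℤ x) :
    ∃ a b : ℤ, x = (a : K11) + (b : K11) * wK := by
  obtain ⟨re, im, rfl⟩ := repr_K x
  have hs : IsIntegral ℤ (conjK ((re : K11) + (im : K11) * wK)) :=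
    h.map (RingHom.toIntAlgHom conjK)
  have hc : conjK ((re : K11) + (im : K11) * wK) = (re : K11) + (im : K11) * (1 - wK) := by
    rw [map_add, map_mul, conjK_wK]; simp
  rw [hc] at hs
  obtain ⟨t, ht⟩ := int_of_integral (2 * re + im) (by
    have e := h.add hs
    have : ((2 * re + im : ℚ) : K11) = (re : K11) + (im : K11) * wK +
        ((re : K11) + (im : K11) * (1 - wK)) := by push_cast; ring
    rw [this]
    exact e)
  obtain ⟨n, hn⟩ := int_of_integral (re * re + re * im + 3 * im * im) (by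
    have e := h.mul hs
    have : ((re * re + re * im + 3 * im * im : ℚ) : K11) = ((re : K11) + (im : K11) * wK) *
        ((re : K11) + (im : K11) * (1 - wK)) := by
      push_cast
      linear_combination ((im : K11) ^ 2) * wK_sq
    rw [this]
    exact e)
  -- 11 im² is an integer
  have h11 : (11 : ℚ) * im ^ 2 = ((4 * n - t ^ 2 : ℤ) : ℚ) := by
    push_cast
    rw [hn, ht]; ring
  obtain ⟨b, hb⟩ : ∃ b : ℤ, (b : ℚ) = im := by
    have hd : (im.den : ℤ) ^ 2 ∣ 11 := by
      have e : (11 : ℤ) * im.num ^ 2 = (4 * n - t ^ 2) * (im.den : ℤ) ^ 2 := by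
        have hden : (im.den : ℚ) ≠ 0 := by exact_mod_cast im.den_nz
        have e2 := h11
        rw [← Rat.num_div_den im, div_pow, mul_div_assoc', div_eq_iff (pow_ne_zero _ hden)] at e2
        exact_mod_cast e2
      have hcop : IsCoprime ((im.den : ℤ) ^ 2) (im.num ^ 2) := by
        apply IsCoprime.pow
        rw [Int.isCoprime_iff_gcd_eq_one]
        have := im.reduced
        rw [Nat.Coprime, Nat.gcd_comm] at this
        simpa [Int.gcd] using this
      exact hcop.dvd_of_dvd_mul_right (Dvd.intro_left _ e.symm)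
    have hden1 : im.den = 1 := by
      have h2 : im.den ^ 2 ∣ 11 := by exact_mod_cast hd
      have h3 : im.den ^ 2 ≤ 11 := Nat.le_of_dvd (by norm_num) h2
      have h4 : im.den ≤ 3 := by nlinarith
      have h5 : im.den ≠ 0 := im.den_nz
      interval_cases hx : im.den
      · exact absurd rfl h5
      · rfl
      · norm_num at h2
      · norm_num at h2
    exact ⟨im.num, by
      have := Rat.num_div_den im
      rw [hden1] at this
      simpa using this⟩
  obtain ⟨a, ha⟩ : ∃ a : ℤ, (a : ℚ) = re := by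
    have e1 : (11 : ℤ) * b ^ 2 = 4 * n - t ^ 2 := by
      have := h11
      rw [← hb] at this
      exact_mod_cast this
    have hpar : (2 : ℤ) ∣ t - b := by
      rcases Int.even_or_odd (t - b) with h2 | h2
      · exact h2.two_dvd
      · exfalso
        obtain ⟨k, hk⟩ := h2
        have ht' : t = b + 2 * k + 1 := by linarith
        subst ht'
        have : (2 : ℤ) ∣ 1 := ⟨2 * n - 6 * b ^ 2 - 2 * b * k - b - 2 * k ^ 2 - 2 * k, by nlinarith⟩
        norm_num at this
    obtain ⟨a, ha⟩ := hpar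
    refine ⟨a, ?_⟩
    have h3 : ((t - b : ℤ) : ℚ) = 2 * a := by rw [ha]; push_cast; ring
    push_cast at h3
    rw [ht, hb] at h3
    linarith
  exact ⟨a, b, by rw [← ha, ← hb]; simp⟩

/-- `ω` in `𝓞 K11`. -/
noncomputable def w : 𝓞 K11 := ⟨wK, by
  refine ⟨X ^ 2 - X + 3, by monicity!, ?_⟩
  simp only [eval₂_add, eval₂_sub, eval₂_pow, eval₂_X]
  rw [wK_sq]
  simp⟩

@[simp] theorem coe_w : ((w : 𝓞 K11) : K11) = wK := rfl

theorem w_sq : (w : 𝓞 K11) ^ 2 = w - 3 := by
  apply RingOfIntegers.ext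
  simp [wK_sq, map_ofNat]

theorem repr_O (x : 𝓞 K11) : ∃ a b : ℤ, x = (a : 𝓞 K11) + (b : 𝓞 K11) * w := by
  obtain ⟨a, b, h⟩ := integral_repr (x : K11) (RingOfIntegers.isIntegral_coe x)
  refine ⟨a, b, ?_⟩
  apply RingOfIntegers.ext
  simpa using h

theorem repr_unique {a b : ℤ} (h : (a : 𝓞 K11) + (b : 𝓞 K11) * w = 0) : a = 0 ∧ b = 0 := by
  have h1 : (a : K11) + (b : K11) * wK = 0 := by
    have := congrArg (fun x : 𝓞 K11 => (x : K11)) h
    simpa using this
  have h2 : ((a : ℚ) : K11) + ((b : ℚ) : K11) * wK = 0 := by simpa using h1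
  obtain ⟨h3, h4⟩ := unique_K h2
  exact ⟨by exact_mod_cast h3, by exact_mod_cast h4⟩

/-- The isomorphism `ℤ[ω] → 𝓞 K11`. -/
noncomputable def toO : R11 →+* 𝓞 K11 where
  toFun z := (z.re : 𝓞 K11) + (z.im : 𝓞 K11) * w
  map_one' := by simp [QuadraticAlgebra.re_one, QuadraticAlgebra.im_one]
  map_zero' := by simp
  map_add' x y := by simp; ring
  map_mul' x y := by
    simp only [QuadraticAlgebra.re_mul, QuadraticAlgebra.im_mul]
    push_cast
    linear_combination (-(x.im : 𝓞 K11) * (y.im : 𝓞 K11)) * w_sq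

theorem toO_bij : Function.Bijective toO := by
  constructor
  · rw [injective_iff_map_eq_zero]
    intro z hz
    obtain ⟨h1, h2⟩ := repr_unique hz
    ext
    · exact h1
    · exact h2
  · intro x
    obtain ⟨a, b, h⟩ := repr_O x
    exact ⟨⟨a, b⟩, h.symm⟩

/-- The isomorphism `ℤ[ω] ≃ 𝓞 K11`. -/
noncomputable def eO : R11 ≃+* 𝓞 K11 := RingEquiv.ofBijective toO toO_bij

theorem eO_apply (z : R11) : eO z = (z.re : 𝓞 K11) + (z.im : 𝓞 K11) * w := rfl

theorem eO_omega : eO QuadraticAlgebra.omega = w := by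
  rw [eO_apply]; simp

theorem eO_symm_w : eO.symm w = QuadraticAlgebra.omega := by
  rw [← eO_omega, RingEquiv.symm_apply_apply]

/-- The norm `𝓞 K11 → ℤ`. -/
noncomputable def nm (x : 𝓞 K11) : ℤ := (eO.symm x).norm

theorem nm_mul (x y : 𝓞 K11) : nm (x * y) = nm x * nm y := by
  simp [nm, map_mul]

theorem nm_apply (a b : ℤ) : nm ((a : 𝓞 K11) + (b : 𝓞 K11) * w) = a ^ 2 + a * b + 3 * b ^ 2 := by
  have : (a : 𝓞 K11) + (b : 𝓞 K11) * w = eO ⟨a, b⟩ := rfl
  rw [nm, this, RingEquiv.symm_apply_apply, QuadraticAlgebra.norm_def]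
  ring

theorem nm_nonneg (x : 𝓞 K11) : 0 ≤ nm x := by
  obtain ⟨a, b, rfl⟩ := repr_O x
  rw [nm_apply]; nlinarith [sq_nonneg (2 * a + b), sq_nonneg b]

theorem nm_eq_zero {x : 𝓞 K11} (h : nm x = 0) : x = 0 := by
  obtain ⟨a, b, rfl⟩ := repr_O x
  rw [nm_apply] at h
  have hb : b = 0 := by
    have : b ^ 2 ≤ 0 := by nlinarith [sq_nonneg (2 * a + b)]
    have := le_antisymm this (sq_nonneg b)
    exact pow_eq_zero_iff (two_ne_zero) |>.1 this
  subst hb
  have ha : a ^ 2 = 0 := by linarith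
  have ha' : a = 0 := pow_eq_zero_iff (two_ne_zero) |>.1 ha
  subst ha'
  simp

theorem nm_one : nm 1 = 1 := by
  have := nm_apply 1 0
  simpa using this

theorem unit_eq {u : 𝓞 K11} (hu : IsUnit u) : u = 1 ∨ u = -1 := by
  obtain ⟨v, hv⟩ := hu.exists_right_inv
  have h1 : nm u * nm v = 1 := by rw [← nm_mul, hv, nm_one]
  have h2 : nm u = 1 := Int.eq_one_or_neg_one_of_mul_eq_one h1 |>.resolve_right (by
    have := nm_nonneg u; intro h; omega)
  obtain ⟨a, b, rfl⟩ := repr_O u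
  rw [nm_apply] at h2
  have hb : b = 0 := by
    have : b ^ 2 < 1 := by nlinarith [sq_nonneg (2 * a + b)]
    have h3 := sq_nonneg b
    have : b ^ 2 = 0 := by omega
    exact pow_eq_zero_iff (two_ne_zero) |>.1 this
  subst hb
  have ha : a ^ 2 = 1 := by linarith
  have ha2 : (a - 1) * (a + 1) = 0 := by linarith
  rcases mul_eq_zero.1 ha2 with h | h
  · left
    have : a = 1 := by omega
    subst this; simp
  · right
    have : a = -1 := by omega
    subst this; simp

/-- `𝓞 K11` is norm-Euclidean. -/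
theorem euclid (x y : 𝓞 K11) (hy : y ≠ 0) : ∃ q : 𝓞 K11, nm (x - q * y) < nm y := by
  obtain ⟨a, b, rfl⟩ := repr_O x
  obtain ⟨c, d, rfl⟩ := repr_O y
  have hn : 0 < c ^ 2 + c * d + 3 * d ^ 2 := by
    have h1 := nm_nonneg ((c : 𝓞 K11) + d * w)
    rcases h1.lt_or_eq with h | h
    · rwa [nm_apply] at h
    · exact absurd (nm_eq_zero h.symm) hy
  set n := c ^ 2 + c * d + 3 * d ^ 2 with hnd
  -- x * conj y = A + B w
  set A := a * (c + d) + 3 * b * d with hA
  set B := b * c - a * d with hB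
  set q2 := round ((B : ℚ) / n) with hq2
  set q1 := round (((A : ℚ) + (B - q2 * n) / 2) / n) with hq1
  refine ⟨(q1 : 𝓞 K11) + q2 * w, ?_⟩
  have hr2 := abs_sub_round ((B : ℚ) / n)
  have hr1 := abs_sub_round (((A : ℚ) + (B - q2 * n) / 2) / n)
  rw [← hq2] at hr2
  rw [← hq1] at hr1
  have hnq : (0 : ℚ) < n := by exact_mod_cast hn
  have e : (a : 𝓞 K11) + b * w - (q1 + q2 * w) * (c + d * w) =
      ((a - (q1 * c - 3 * q2 * d) : ℤ) : 𝓞 K11) +
      ((b - (q1 * d + q2 * c + q2 * d) : ℤ) : 𝓞 K11) * w := by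
    push_cast
    linear_combination (-(q2 : 𝓞 K11) * d) * w_sq
  rw [e, nm_apply, nm_apply]
  -- multiply by n
  set s := B - q2 * n with hs
  set r := A - q1 * n with hr
  have key : ((a - (q1 * c - 3 * q2 * d)) ^ 2 + (a - (q1 * c - 3 * q2 * d)) *
      (b - (q1 * d + q2 * c + q2 * d)) + 3 * (b - (q1 * d + q2 * c + q2 * d)) ^ 2) * n =
      r ^ 2 + r * s + 3 * s ^ 2 := by
    rw [hr, hs, hA, hB, hnd]; ring
  have h1 : |(s : ℚ)| ≤ n / 2 := by
    have : (B : ℚ) / n - q2 = (s : ℚ) / n := by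
      rw [hs]; push_cast; field_simp
    rw [this, abs_div, abs_of_pos hnq, div_le_iff₀ hnq] at hr2
    linarith
  have h2 : |(r : ℚ) + s / 2| ≤ n / 2 := by
    have : ((A : ℚ) + (B - q2 * n) / 2) / n - q1 = ((r : ℚ) + s / 2) / n := by
      rw [hs, hr]; push_cast; field_simp; ring
    rw [this, abs_div, abs_of_pos hnq, div_le_iff₀ hnq] at hr1
    linarith
  have h3 : ((r ^ 2 + r * s + 3 * s ^ 2 : ℤ) : ℚ) < n * n := by
    push_cast
    have h4 : (s : ℚ) ^ 2 ≤ (n / 2) ^ 2 := sq_le_sq' (by linarith [neg_abs_le (s : ℚ)])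
      (le_trans (le_abs_self _) h1)
    have h5 : ((r : ℚ) + s / 2) ^ 2 ≤ (n / 2) ^ 2 :=
      sq_le_sq' (by linarith [neg_abs_le ((r : ℚ) + s / 2)]) (le_trans (le_abs_self _) h2)
    nlinarith
  have h4 : r ^ 2 + r * s + 3 * s ^ 2 < n * n := by exact_mod_cast h3
  rw [← key] at h4
  exact lt_of_mul_lt_mul_right h4 hn.le

theorem isPrincipalIdealRing_O : IsPrincipalIdealRing (𝓞 K11) := by
  constructor
  intro I
  by_cases hI : I = ⊥
  · subst hI; exact bot_isPrincipal
  · obtain ⟨y0, hy0, hy0'⟩ := Submodule.exists_mem_ne_zero_of_ne_bot hI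
    have hex : ∃ n : ℕ, ∃ y ∈ I, y ≠ 0 ∧ (nm y).toNat = n := ⟨_, y0, hy0, hy0', rfl⟩
    classical
    obtain ⟨y, hy, hyne, hyn⟩ := Nat.find_spec hex
    have hmin := fun m hm => Nat.find_min hex (m := m) hm
    rw [← hyn] at hmin
    refine ⟨y, ?_⟩
    apply le_antisymm
    · intro x hx
      obtain ⟨q, hq⟩ := euclid x y hyne
      by_cases h0 : x - q * y = 0
      · rw [sub_eq_zero] at h0
        exact Ideal.mem_span_singleton'.2 ⟨q, h0.symm⟩
      · exfalso
        refine hmin (nm (x - q * y)).toNat ?_ ⟨x - q * y, ?_, h0, rfl⟩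
        · have h1 := nm_nonneg (x - q * y)
          omega
        · exact I.sub_mem hx (I.mul_mem_left _ hy)
    · exact (Ideal.span_singleton_le_iff_mem (I := I)).2 hy

theorem classNumber_K11 : classNumber K11 = 1 :=
  classNumber_eq_one_iff.2 isPrincipalIdealRing_O

theorem totallyComplex_K11 : IsTotallyComplex K11 := by
  constructor
  intro v
  rw [← InfinitePlace.not_isReal_iff_isComplex]
  intro hv
  rw [InfinitePlace.isReal_iff, ComplexEmbedding.isReal_iff] at hv
  have h1 := RingHom.congr_fun hv wK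
  set z := v.embedding wK with hz
  have h2 : z ^ 2 = z - 3 := by
    rw [hz, ← map_pow, wK_sq]; simp [map_ofNat]
  have h3 : (starRingEnd ℂ) z = z := h1
  obtain ⟨r, hr⟩ := Complex.conj_eq_iff_real.1 h3
  rw [hr] at h2
  have h4 : r ^ 2 = r - 3 := by exact_mod_cast h2
  nlinarith [sq_nonneg (2 * r - 1)]

end Pool.Agent.K4H51.SB
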