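import Mathlib

/-!
# The Raynaud group schemes `z⁴ = c z` of rank four, `c ∣ 2`
-/

set_option autoImplicit false
set_option linter.unusedSectionVars false

open Polynomial TensorProduct

namespace Pool.Agent.K4H51.SB

section identities

variable {B : Type} [CommRing B] {c d t x y z : B}

/-- The group law `x ⊕ y`. -/
def gl (d t x y : B) : B :=
  x + y + d * t * (x ^ 2 * y ^ 2) - 2 * d * t * (x ^ 3 * y + x * y ^ 3)

/-- The square of `x ⊕ y`. -/
def gl2 (d t x y : B) : B :=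
  x ^ 2 + y ^ 2 + 2 * t * (x * y) - 2 * d * t * (x ^ 3 * y ^ 2 + x ^ 2 * y ^ 3)

/-- The cube of `x ⊕ y`. -/
def gl3 (d t x y : B) : B :=
  x ^ 3 + y ^ 3 - 2 * d * t * (x ^ 3 * y ^ 3) - t * (x * y ^ 2 + x ^ 2 * y)

theorem gl_sq (hx : x ^ 4 = c * x) (hy : y ^ 4 = c * y) (hcd : c * d = 2) (ht : 3 * t = 1) :
    gl d t x y ^ 2 = gl2 d t x y := by
  unfold gl gl2
  linear_combination ((-4)*y*d*t + (9)*y^4*d^2*t^2 + (-4)*x*y^3*d^2*t^2 + (4)*x^2*y^2*d^2*t^2) * hx +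
    ((-4)*x*d*t + (9)*x*c*d^2*t^2 + (4)*x^2*y^2*d^2*t^2 + (-4)*x^3*y*d^2*t^2) * hy +
    ((-8)*x*y*t + (18)*x*y*t^2 + (9)*x*y*c*d*t^2) * hcd +
    ((-2)*x*y + (12)*x*y*t) * ht

theorem gl_cube' (hx : x ^ 4 = c * x) (hy : y ^ 4 = c * y) (hcd : c * d = 2) (ht : 3 * t = 1) :
    gl d t x y * gl2 d t x y = gl3 d t x y := by
  unfold gl gl2 gl3
  linear_combination ((-1)*y^2*d*t + (-4)*y^2*d*t^2 + (2)*y^5*d^2*t^2 + (-2)*x*y*d*t +
      (2)*x*y^4*d^2*t^2 + (4)*x^2*y^3*d^2*t^2) * hx +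
    ((-2)*x*y*d*t + (2)*x*y*c*d^2*t^2 + (-1)*x^2*d*t + (-4)*x^2*d*t^2 + (2)*x^2*c*d^2*t^2 +
      (4)*x^3*y^2*d^2*t^2) * hy +
    ((-3)*x*y^2*t + (2)*x*y^2*c*d*t^2 + (-3)*x^2*y*t + (2)*x^2*y*c*d*t^2 +
      (8)*x^3*y^3*d*t^2) * hcd +
    ((-1)*x*y^2 + (-1)*x^2*y + (6)*x^3*y^3*d*t) * ht

theorem gl_cube (hx : x ^ 4 = c * x) (hy : y ^ 4 = c * y) (hcd : c * d = 2) (ht : 3 * t = 1) :
    gl d t x y ^ 3 = gl3 d t x y := by
  rw [pow_succ', gl_sq hx hy hcd ht, gl_cube' hx hy hcd ht]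

theorem gl_four (hx : x ^ 4 = c * x) (hy : y ^ 4 = c * y) (hcd : c * d = 2) (ht : 3 * t = 1) :
    gl d t x y ^ 4 = c * gl d t x y := by
  rw [pow_succ', gl_cube hx hy hcd ht]
  unfold gl gl3
  linear_combination ((1) + (-4)*y^3*d*t + (1)*y^3*d*t^2 + (4)*y^6*d^2*t^2 + (1)*x*y^2*d*t +
      (2)*x*y^2*d*t^2 + (-2)*x*y^5*d^2*t^2 + (-2)*x^2*y*d*t + (4)*x^2*y^4*d^2*t^2) * hx +
    ((1) + (-2)*x*y^2*d*t + (4)*x*y^2*c*d^2*t^2 + (1)*x^2*y*d*t + (2)*x^2*y*d*t^2 +
      (-2)*x^2*y*c*d^2*t^2 + (-4)*x^3*d*t + (1)*x^3*d*t^2 + (4)*x^3*c*d^2*t^2) * hy +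
    ((-4)*x*y^3*t + (9)*x*y^3*t^2 + (4)*x*y^3*c*d*t^2 + (1)*x^2*y^2*t + (-2)*x^2*y^2*c*d*t^2 +
      (-4)*x^3*y*t + (9)*x^3*y*t^2 + (4)*x^3*y*c*d*t^2) * hcd +
    ((-1)*x*y^3 + (6)*x*y^3*t + (-1)*x^3*y + (6)*x^3*y*t) * ht

theorem gl_assoc (hx : x ^ 4 = c * x) (hy : y ^ 4 = c * y) (hz : z ^ 4 = c * z)
    (hcd : c * d = 2) (ht : 3 * t = 1) :
    gl d t (gl d t x y) z = gl d t x (gl d t y z) := by
  have e1 : gl d t (gl d t x y) z = gl d t x y + z + d * t * (gl2 d t x y * z ^ 2) -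
      2 * d * t * (gl3 d t x y * z + gl d t x y * z ^ 3) := by
    rw [← gl_sq hx hy hcd ht, ← gl_cube hx hy hcd ht]; rfl
  have e2 : gl d t x (gl d t y z) = x + gl d t y z + d * t * (x ^ 2 * gl2 d t y z) -
      2 * d * t * (x ^ 3 * gl d t y z + x * gl3 d t y z) := by
    rw [← gl_sq hy hz hcd ht, ← gl_cube hy hz hcd ht]; rfl
  rw [e1, e2]
  unfold gl gl2 gl3
  ring

theorem gl_comm : gl d t x y = gl d t y x := by unfold gl; ring

theorem gl_zero_left : gl d t 0 x = x := by unfold gl; ring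

theorem gl_zero_right : gl d t x 0 = x := by unfold gl; ring

theorem gl_self (hx : x ^ 4 = c * x) (hcd : c * d = 2) (ht : 3 * t = 1) : gl d t x x = 0 := by
  unfold gl
  linear_combination (-3 * d * t) * hx - 3 * t * x * hcd - 2 * x * ht

theorem map_gl {B' : Type} [CommRing B'] (F : B →+* B') :
    F (gl d t x y) = gl (F d) (F t) (F x) (F y) := by
  unfold gl
  simp only [map_sub, map_add, map_mul, map_pow, map_ofNat]

end identities

section hopf

variable {R : Type} [CommRing R]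

/-- `A = R[z]/(z⁴ - c z)`, expressed by its universal property. -/
structure IsPt (c : R) {A : Type} [CommRing A] [Algebra R A] (z : A) : Prop where
  four : z ^ 4 = algebraMap R A c * z
  lift : ∀ (B : Type) [CommRing B] [Algebra R B] (x : B), x ^ 4 = algebraMap R B c * x →
    ∃ f : A →ₐ[R] B, f z = x
  ext : ∀ (B : Type) [CommRing B] [Algebra R B] (f g : A →ₐ[R] B), f z = g z → f = g

theorem algHom_gl {d t : R} {B B' : Type} [CommRing B] [CommRing B'] [Algebra R B] [Algebra R B']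
    (F : B →ₐ[R] B') (x y : B) : F (gl (algebraMap R B d) (algebraMap R B t) x y) =
      gl (algebraMap R B' d) (algebraMap R B' t) (F x) (F y) := by
  have h := map_gl (d := algebraMap R B d) (t := algebraMap R B t) (x := x) (y := y)
    (F : B →+* B')
  simpa using h

variable {c d t : R} {A : Type} [CommRing A] [Algebra R A] {z : A}

theorem IsPt.pt_four (h : IsPt c z) {B : Type} [CommRing B] [Algebra R B] (f : A →ₐ[R] B) :
    f z ^ 4 = algebraMap R B c * f z := by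
  rw [← map_pow, h.four, map_mul, AlgHom.commutes]

theorem mapcd (hcd : c * d = 2) (B : Type) [CommRing B] [Algebra R B] :
    algebraMap R B c * algebraMap R B d = 2 := by
  rw [← map_mul, hcd, map_ofNat]

theorem mapt (ht : 3 * t = 1) (B : Type) [CommRing B] [Algebra R B] :
    3 * algebraMap R B t = 1 := by
  rw [← map_ofNat (algebraMap R B) 3, ← map_mul, ht, map_one]

theorem IsPt.exists_comul (h : IsPt c z) (hcd : c * d = 2) (ht : 3 * t = 1) :
    ∃ f : A →ₐ[R] A ⊗[R] A, f z =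
      gl (algebraMap R _ d) (algebraMap R _ t) (z ⊗ₜ 1) (1 ⊗ₜ z) := by
  apply h.lift
  apply gl_four
  · exact h.pt_four (Algebra.TensorProduct.includeLeft : A →ₐ[R] A ⊗[R] A)
  · exact h.pt_four (Algebra.TensorProduct.includeRight : A →ₐ[R] A ⊗[R] A)
  · exact mapcd hcd _
  · exact mapt ht _

/-- The comultiplication. -/
noncomputable def IsPt.comulA (h : IsPt c z) (hcd : c * d = 2) (ht : 3 * t = 1) :
    A →ₐ[R] A ⊗[R] A := Classical.choose (h.exists_comul hcd ht)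

theorem IsPt.comulA_z (h : IsPt c z) (hcd : c * d = 2) (ht : 3 * t = 1) :
    h.comulA hcd ht z = gl (algebraMap R _ d) (algebraMap R _ t) (z ⊗ₜ 1) (1 ⊗ₜ z) :=
  Classical.choose_spec (h.exists_comul hcd ht)

theorem IsPt.exists_counit (h : IsPt c z) : ∃ f : A →ₐ[R] R, f z = 0 := h.lift R 0 (by simp)

/-- The counit. -/
noncomputable def IsPt.counitA (h : IsPt c z) : A →ₐ[R] R := Classical.choose h.exists_counit

theorem IsPt.counitA_z (h : IsPt c z) : h.counitA z = 0 := Classical.choose_spec h.exists_counit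

theorem IsPt.coassoc (h : IsPt c z) (hcd : c * d = 2) (ht : 3 * t = 1) :
    (Algebra.TensorProduct.assoc R R R A A A).toAlgHom.comp
      ((Algebra.TensorProduct.map (h.comulA hcd ht) (.id R A)).comp (h.comulA hcd ht))
      = (Algebra.TensorProduct.map (.id R A) (h.comulA hcd ht)).comp (h.comulA hcd ht) := by
  apply h.ext
  have hc := h.comulA_z hcd ht
  have h1 : ∀ (F : A →ₐ[R] A ⊗[R] (A ⊗[R] A)), F z ^ 4 = algebraMap R _ c * F z :=
    fun F => h.pt_four F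
  rw [AlgHom.comp_apply, AlgHom.comp_apply, AlgHom.comp_apply, hc, algHom_gl, algHom_gl, algHom_gl]
  simp only [Algebra.TensorProduct.map_tmul, map_one, AlgHom.id_apply]
  obtain ⟨x1, hx1⟩ : ∃ x1 : A ⊗[R] (A ⊗[R] A), x1 = z ⊗ₜ (1 ⊗ₜ 1) := ⟨_, rfl⟩
  obtain ⟨x2, hx2⟩ : ∃ x2 : A ⊗[R] (A ⊗[R] A), x2 = 1 ⊗ₜ (z ⊗ₜ 1) := ⟨_, rfl⟩
  obtain ⟨x3, hx3⟩ : ∃ x3 : A ⊗[R] (A ⊗[R] A), x3 = 1 ⊗ₜ (1 ⊗ₜ z) := ⟨_, rfl⟩
  have e1 : (Algebra.TensorProduct.assoc R R R A A A).toAlgHom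
      (h.comulA hcd ht z ⊗ₜ[R] (1 : A)) =
      gl (algebraMap R _ d) (algebraMap R _ t) x1 x2 := by
    have := algHom_gl (d := d) (t := t)
      ((Algebra.TensorProduct.assoc R R R A A A).toAlgHom.comp
      (Algebra.TensorProduct.includeLeft : A ⊗[R] A →ₐ[R] (A ⊗[R] A) ⊗[R] A))
      (z ⊗ₜ 1) (1 ⊗ₜ z)
    rw [← hc] at this
    rw [hx1, hx2]
    exact this
  have e2 : (1 : A) ⊗ₜ[R] h.comulA hcd ht z =
      gl (algebraMap R _ d) (algebraMap R _ t) x2 x3 := by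
    have := algHom_gl (d := d) (t := t)
      (Algebra.TensorProduct.includeRight : A ⊗[R] A →ₐ[R] A ⊗[R] (A ⊗[R] A))
      (z ⊗ₜ 1) (1 ⊗ₜ z)
    rw [← hc] at this
    rw [hx2, hx3]
    simpa only [Algebra.TensorProduct.includeRight_apply] using this
  have e3 : (Algebra.TensorProduct.assoc R R R A A A).toAlgHom
      ((1 : A ⊗[R] A) ⊗ₜ[R] z) = x3 := by
    rw [Algebra.TensorProduct.one_def, hx3]
    rfl
  have e4 : z ⊗ₜ[R] (1 : A ⊗[R] A) = x1 := by
    rw [hx1, Algebra.TensorProduct.one_def]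
  rw [e1, e2, e3, e4]
  have k1 : x1 ^ 4 = algebraMap R _ c * x1 := by
    rw [hx1, ← Algebra.TensorProduct.one_def]
    exact h1 (Algebra.TensorProduct.includeLeft)
  have k2 : x2 ^ 4 = algebraMap R _ c * x2 := by
    rw [hx2]
    exact h1 ((Algebra.TensorProduct.includeRight :
      A ⊗[R] A →ₐ[R] A ⊗[R] (A ⊗[R] A)).comp Algebra.TensorProduct.includeLeft)
  have k3 : x3 ^ 4 = algebraMap R _ c * x3 := by
    rw [hx3]
    exact h1 ((Algebra.TensorProduct.includeRight :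
      A ⊗[R] A →ₐ[R] A ⊗[R] (A ⊗[R] A)).comp Algebra.TensorProduct.includeRight)
  exact gl_assoc k1 k2 k3 (mapcd hcd _) (mapt ht _)

theorem IsPt.rcounit (h : IsPt c z) (hcd : c * d = 2) (ht : 3 * t = 1) :
    (Algebra.TensorProduct.map h.counitA (.id R A)).comp (h.comulA hcd ht)
      = (Algebra.TensorProduct.lid R A).symm := by
  apply h.ext
  rw [AlgHom.comp_apply, h.comulA_z hcd ht, algHom_gl]
  simp only [Algebra.TensorProduct.map_tmul, map_one, AlgHom.id_apply]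
  rw [h.counitA_z, TensorProduct.zero_tmul, gl_zero_left]
  rfl

theorem IsPt.lcounit (h : IsPt c z) (hcd : c * d = 2) (ht : 3 * t = 1) :
    (Algebra.TensorProduct.map (.id R A) h.counitA).comp (h.comulA hcd ht)
      = (Algebra.TensorProduct.rid R R A).symm := by
  apply h.ext
  rw [AlgHom.comp_apply, h.comulA_z hcd ht, algHom_gl]
  simp only [Algebra.TensorProduct.map_tmul, map_one, AlgHom.id_apply]
  rw [h.counitA_z, TensorProduct.tmul_zero, gl_zero_right]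
  rfl

/-- The bialgebra structure. -/
noncomputable abbrev IsPt.bialgA (h : IsPt c z) (hcd : c * d = 2) (ht : 3 * t = 1) :
    Bialgebra R A :=
  Bialgebra.ofAlgHom (h.comulA hcd ht) h.counitA (h.coassoc hcd ht) (h.rcounit hcd ht)
    (h.lcounit hcd ht)

theorem IsPt.antip (h : IsPt c z) (hcd : c * d = 2) (ht : 3 * t = 1) :
    (Algebra.TensorProduct.lmul' R (S := A)).comp (h.comulA hcd ht) =
      (Algebra.ofId R A).comp h.counitA := by
  apply h.ext
  rw [AlgHom.comp_apply, h.comulA_z hcd ht, algHom_gl, AlgHom.comp_apply, h.counitA_z, map_zero]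
  simp only [Algebra.TensorProduct.lmul'_apply_tmul, mul_one, one_mul]
  exact gl_self h.four (mapcd hcd _) (mapt ht _)

/-- The Hopf algebra structure. -/
noncomputable abbrev IsPt.hopfA (h : IsPt c z) (hcd : c * d = 2) (ht : 3 * t = 1) :
    HopfAlgebra R A :=
  { h.bialgA hcd ht with
    antipode := LinearMap.id
    mul_antipode_rTensor_comul := by
      have := congrArg AlgHom.toLinearMap (h.antip hcd ht)
      rw [LinearMap.rTensor_id, LinearMap.id_comp]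
      exact this
    mul_antipode_lTensor_comul := by
      have := congrArg AlgHom.toLinearMap (h.antip hcd ht)
      rw [LinearMap.lTensor_id, LinearMap.id_comp]
      exact this }

theorem IsPt.cocomm (h : IsPt c z) (hcd : c * d = 2) (ht : 3 * t = 1) :
    @Coalgebra.IsCocomm R A _ _ _ (h.hopfA hcd ht).toCoalgebra := by
  let _ := h.hopfA hcd ht
  constructor
  have h1 : (Algebra.TensorProduct.comm R A A).toAlgHom.comp (h.comulA hcd ht) =
      h.comulA hcd ht := by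
    apply h.ext
    rw [AlgHom.comp_apply, h.comulA_z hcd ht, algHom_gl]
    have e1 : (Algebra.TensorProduct.comm R A A).toAlgHom (z ⊗ₜ[R] 1) = 1 ⊗ₜ z := rfl
    have e2 : (Algebra.TensorProduct.comm R A A).toAlgHom ((1 : A) ⊗ₜ[R] z) = z ⊗ₜ 1 := rfl
    rw [e1, e2]
    exact gl_comm
  exact congrArg AlgHom.toLinearMap h1

end hopf

end Pool.Agent.K4H51.SB
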