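import Pool.Agent.K4H51.SB.Int

/-!
# Inertia and Frobenius elements
-/

set_option autoImplicit false
set_option linter.unusedSectionVars false
set_option linter.unusedSimpArgs false

open NumberField

namespace Pool.Agent.K4H51.SB

theorem dvd_dd {A : Type} [CommRing A] (r : Fin 3 → A) {i j : Fin 3} (h : i ≠ j) :
    (r i - r j) ∣ (r 0 - r 1) * (r 1 - r 2) * (r 2 - r 0) := by
  fin_cases i <;> fin_cases j <;> first | exact absurd rfl h | skip
  · exact ⟨(r 1 - r 2) * (r 2 - r 0), by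
      show _ = (r 0 - r 1) * _; ring⟩
  · exact ⟨-((r 0 - r 1) * (r 1 - r 2)), by
      show _ = (r 0 - r 2) * _; ring⟩
  · exact ⟨-((r 1 - r 2) * (r 2 - r 0)), by
      show _ = (r 1 - r 0) * _; ring⟩
  · exact ⟨(r 0 - r 1) * (r 2 - r 0), by
      show _ = (r 1 - r 2) * _; ring⟩
  · exact ⟨(r 0 - r 1) * (r 1 - r 2), by
      show _ = (r 2 - r 0) * _; ring⟩
  · exact ⟨-((r 0 - r 1) * (r 2 - r 0)), by
      show _ = (r 2 - r 1) * _; ring⟩

theorem exists_moved {p : Equiv.Perm (Fin 3)} (h : p ≠ 1) : ∃ i, p i ≠ i := by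
  by_contra hc
  push Not at hc
  exact h (Equiv.ext hc)

theorem even_moved {p : Equiv.Perm (Fin 3)} (h : Equiv.Perm.sign p = 1) (h1 : p ≠ 1) :
    ∀ i, p i ≠ i := by
  revert p; decide

namespace Lab

section

variable {L : Type} [Field L] [NumberField L] [Algebra K11 L] (R : Lab L)
variable {P : Ideal (𝓞 L)} {τ : L ≃ₐ[K11] L}

theorem mem_two_of_four (hP : P.IsPrime) (h : (4 : 𝓞 L) ∈ P) : (2 : 𝓞 L) ∈ P := by
  rw [show (4 : 𝓞 L) = 2 * 2 by norm_num] at h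
  rcases hP.mem_or_mem h with h | h <;> exact h

theorem permG_inertia (hP : P.IsPrime) (h2 : (2 : 𝓞 L) ∉ P) (hτ : ∀ x : 𝓞 L, τ • x - x ∈ P) :
    R.permG τ = 1 := by
  by_contra hc
  obtain ⟨i, hi⟩ := exists_moved hc
  have h1 := hτ (R.b i)
  rw [R.smul_b] at h1
  have h3 := P.mem_of_dvd (dvd_dd R.b hi) h1
  have h4 := P.mul_mem_left ((R.b 0 - R.b 1) * (R.b 1 - R.b 2) * (R.b 2 - R.b 0)) h3
  rw [← pow_two, R.b_disc] at h4
  exact h2 (mem_two_of_four hP h4)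

theorem permF_inertia (hP : P.IsPrime) (h2 : (2 : 𝓞 L) ∉ P) (hN : 2 + 5 * WW L ∉ P)
    (hτ : ∀ x : 𝓞 L, τ • x - x ∈ P) : R.permF τ = 1 := by
  by_contra hc
  obtain ⟨i, hi⟩ := exists_moved hc
  have h1 := hτ (R.a i)
  rw [R.smul_a] at h1
  have h3 := P.mem_of_dvd (dvd_dd R.a hi) h1
  have h4 := P.mul_mem_left ((R.a 0 - R.a 1) * (R.a 1 - R.a 2) * (R.a 2 - R.a 0)) h3
  rw [← pow_two, R.a_disc, neg_mem_iff] at h4
  rcases hP.mem_or_mem h4 with h5 | h5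
  · exact h2 (mem_two_of_four hP h5)
  · exact hN h5

theorem permF_not_cycle (hP : P.IsPrime) (h2 : (2 : 𝓞 L) ∉ P) (hN : 2 + 5 * WW L ∈ P)
    (hτ : ∀ x : 𝓞 L, τ • x - x ∈ P) : ∃ i, R.permF τ i = i := by
  by_contra hc
  push Not at hc
  have h0 := hτ (R.a 0)
  have h1 := hτ (R.a 1)
  have h3 := hτ (R.a 2)
  rw [R.smul_a] at h0 h1 h3
  have key : (R.a 0 - R.a 1) * (R.a 0 - R.a 1) + (R.a 0 - R.a 2) * (R.a 1 - R.a 2) ∈ P := by
    rcases perm3_cases (R.permF τ) with h | h | h | h | h | h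
    · exact absurd h.1 (hc 0)
    · rw [h.1] at h0; rw [h.2.1] at h1
      refine P.add_mem (P.mul_mem_left _ ?_) (P.mul_mem_left _ ?_)
      · rw [← neg_mem_iff, neg_sub]; exact h0
      · rw [← neg_mem_iff, neg_sub]; exact h1
    · rw [h.1] at h0; rw [h.2.1] at h1
      refine P.add_mem (P.mul_mem_left _ h1) (P.mul_mem_right _ ?_)
      rw [← neg_mem_iff, neg_sub]; exact h0
    · exact absurd h.2.2.1 (hc 2)
    · exact absurd h.1 (hc 0)
    · exact absurd h.2.1 (hc 1)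
  have e : (R.a 0 - R.a 1) * (R.a 0 - R.a 1) + (R.a 0 - R.a 2) * (R.a 1 - R.a 2) = 4 * WW L := by
    rw [← R.a_sym]; ring
  rw [e] at key
  rcases hP.mem_or_mem key with h5 | h5
  · exact h2 (mem_two_of_four hP h5)
  · apply h2
    rw [show (2 : 𝓞 L) = (2 + 5 * WW L) - 5 * WW L by ring]
    exact P.sub_mem hN (P.mul_mem_left _ h5)

theorem pow_four_of_moved (h : R.permF τ ≠ 1) (hP : P.IsPrime) (h2 : (2 : 𝓞 L) ∉ P)
    (hτ : ∀ x : 𝓞 L, τ • x - x ∈ P ^ 2) : 2 + 5 * WW L ∈ P ^ 4 := by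
  obtain ⟨i, hi⟩ := exists_moved h
  have h1 := hτ (R.a i)
  rw [R.smul_a] at h1
  have h3 := (P ^ 2).mem_of_dvd (dvd_dd R.a hi) h1
  have h4 := Ideal.mul_mem_mul h3 h3
  rw [← pow_two, ← pow_two, R.a_disc, neg_mem_iff, ← pow_mul] at h4
  rcases Ideal.IsPrime.mul_mem_pow P h4 with h5 | h5
  · exact absurd (mem_two_of_four hP h5) h2
  · exact h5

include R in
theorem mem_sq (hP : P.IsPrime) (h2 : (2 : 𝓞 L) ∉ P) (hN : 2 + 5 * WW L ∈ P) :
    2 + 5 * WW L ∈ P ^ 2 := by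
  have h0 : (R.a 0 - R.a 1) * (R.a 1 - R.a 2) * (R.a 2 - R.a 0) ∈ P := by
    apply hP.mem_of_pow_mem 2
    rw [R.a_disc, neg_mem_iff]
    exact P.mul_mem_left _ hN
  have h4 := Ideal.mul_mem_mul h0 h0
  rw [← pow_two, ← pow_two, R.a_disc, neg_mem_iff] at h4
  rcases Ideal.IsPrime.mul_mem_pow P h4 with h5 | h5
  · exact absurd (mem_two_of_four hP h5) h2
  · exact h5

theorem three_mem (hW : WW L ∈ P) : (3 : 𝓞 L) ∈ P := by
  have h : (3 : 𝓞 L) = WW L * (1 - WW L) := by linear_combination WW_sq (L := L)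
  rw [h]
  exact P.mul_mem_right _ hW

theorem permF_frob (hP : P.IsPrime) (hW : WW L ∈ P) (hτ : ∀ x : 𝓞 L, τ • x - x ^ 3 ∈ P)
    (i : Fin 3) : R.permF τ i ≠ i := by
  intro hi
  have h1 := hτ (R.a i)
  rw [R.smul_a, hi] at h1
  have h3 := three_mem hW
  have h2 : (2 : 𝓞 L) ∈ P := by
    have e : (2 : 𝓞 L) = -((R.a i - R.a i ^ 3) + WW L * (2 * R.a i ^ 2 - 2) + 3 * R.a i) := by
      linear_combination -(R.a_root i)
    rw [e, neg_mem_iff]
    exact P.add_mem (P.add_mem h1 (P.mul_mem_right _ hW)) (P.mul_mem_right _ h3)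
  apply hP.ne_top
  rw [Ideal.eq_top_iff_one]
  rw [show (1 : 𝓞 L) = 3 - 2 by norm_num]
  exact P.sub_mem h3 h2

theorem permG_frob (hP : P.IsPrime) (hW : WW L ∈ P) (hτ : ∀ x : 𝓞 L, τ • x - x ^ 3 ∈ P)
    (i : Fin 3) : R.permG τ i ≠ i := by
  intro hi
  have h1 := hτ (R.b i)
  rw [R.smul_b, hi] at h1
  have h3 := three_mem hW
  have hone : (1 : 𝓞 L) ∉ P := fun h => hP.ne_top ((Ideal.eq_top_iff_one P).2 h)
  have h2 : (2 : 𝓞 L) ∉ P := fun h => hone (by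
    rw [show (1 : 𝓞 L) = 3 - 2 by norm_num]
    exact P.sub_mem h3 h)
  have h4 : R.b i ^ 2 + 1 ∈ P := by
    have e : R.b i ^ 2 + 1 = -(R.b i - R.b i ^ 3) + WW L * (2 * R.b i ^ 2 + 2) := by
      linear_combination -(R.b_root i)
    rw [e]
    exact P.add_mem (neg_mem_iff.2 h1) (P.mul_mem_right _ hW)
  have h5 : 2 * R.b i ∈ P := by
    have e : 2 * R.b i = (R.b i - R.b i ^ 3) + R.b i * (R.b i ^ 2 + 1) := by ring
    rw [e]
    exact P.add_mem h1 (P.mul_mem_left _ h4)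
  rcases hP.mem_or_mem h5 with h6 | h6
  · exact h2 h6
  · apply hone
    rw [show (1 : 𝓞 L) = (R.b i ^ 2 + 1) - R.b i * R.b i by ring]
    exact P.sub_mem h4 (P.mul_mem_left _ h6)

end

end Lab

end Pool.Agent.K4H51.SB
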