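import Pool.Agent.K4H51.SB.Lab

/-!
# Integrality of the roots, inertia and Frobenius elements
-/

set_option autoImplicit false
set_option linter.unusedSectionVars false
set_option linter.unusedSimpArgs false

open NumberField Polynomial

namespace Pool.Agent.K4H51.SB

section

variable {L : Type} [Field L] [NumberField L] [Algebra K11 L]

theorem cubic_integral {e₁ e₂ e₃ : 𝓞 K11} {x : L}
    (hx : x ^ 3 - algebraMap K11 L e₁ * x ^ 2 + algebraMap K11 L e₂ * x - algebraMap K11 L e₃ = 0) :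
    IsIntegral ℤ x := by
  have h : IsIntegral (𝓞 K11) x := by
    refine ⟨X ^ 3 - C e₁ * X ^ 2 + C e₂ * X - C e₃, by monicity!, ?_⟩
    simp only [eval₂_sub, eval₂_add, eval₂_mul, eval₂_pow, eval₂_X, eval₂_C]
    exact hx
  exact isIntegral_trans x h

/-- The image of `ω`. -/
noncomputable def WW (L : Type) [Field L] [NumberField L] [Algebra K11 L] : 𝓞 L :=
  algebraMap (𝓞 K11) (𝓞 L) w

theorem coe_WW : ((WW L : 𝓞 L) : L) = algebraMap K11 L wK := rfl

theorem WW_sq : (WW L) ^ 2 = WW L - 3 := by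
  unfold WW
  rw [← map_pow, w_sq, map_sub, map_ofNat]

end

namespace Lab

section

variable {L : Type} [Field L] [NumberField L] [Algebra K11 L] (R : Lab L)

/-- The roots of the first cubic as integers. -/
noncomputable def a (i : Fin 3) : 𝓞 L := ⟨R.α i, by
  have h := R.hα.root i
  refine cubic_integral (e₁ := 2 * w) (e₂ := -4) (e₃ := -(2 * (w - 1))) ?_
  simpa [map_ofNat] using h⟩

/-- The roots of the second cubic as integers. -/
noncomputable def b (i : Fin 3) : 𝓞 L := ⟨R.β i, by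
  have h := R.hβ.root i
  refine cubic_integral (e₁ := 1 - 2 * w) (e₂ := -1) (e₃ := 1 - 2 * w) ?_
  simpa [map_ofNat] using h⟩

theorem coe_a (i : Fin 3) : ((R.a i : 𝓞 L) : L) = R.α i := rfl

theorem coe_b (i : Fin 3) : ((R.b i : 𝓞 L) : L) = R.β i := rfl

theorem a_root (i : Fin 3) :
    (R.a i) ^ 3 - 2 * WW L * (R.a i) ^ 2 - 4 * R.a i + 2 * (WW L - 1) = 0 := by
  apply RingOfIntegers.ext
  have h := R.hα.root i
  simp only [map_mul, map_ofNat, map_neg, map_sub, map_one] at h
  push_cast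
  simp only [coe_a, coe_WW, map_zero, map_add, map_sub, map_mul, map_ofNat, map_one, map_pow]
  linear_combination h

theorem b_root (i : Fin 3) :
    (R.b i) ^ 3 - (1 - 2 * WW L) * (R.b i) ^ 2 - R.b i - (1 - 2 * WW L) = 0 := by
  apply RingOfIntegers.ext
  have h := R.hβ.root i
  simp only [map_mul, map_ofNat, map_neg, map_sub, map_one] at h
  push_cast
  simp only [coe_b, coe_WW, map_zero, map_add, map_sub, map_mul, map_ofNat, map_one, map_pow]
  linear_combination h

theorem a_disc : ((R.a 0 - R.a 1) * (R.a 1 - R.a 2) * (R.a 2 - R.a 0)) ^ 2 =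
    -(4 * (2 + 5 * WW L)) := by
  apply RingOfIntegers.ext
  have h := R.dd_α_sq
  unfold dd at h
  simp only [map_mul, map_ofNat, map_neg, map_sub, map_one, map_add] at h
  simp only [coe_a, coe_WW, map_zero, map_add, map_sub, map_mul, map_ofNat, map_one, map_pow,
    map_neg]
  exact h

theorem b_disc : ((R.b 0 - R.b 1) * (R.b 1 - R.b 2) * (R.b 2 - R.b 0)) ^ 2 = 4 := by
  apply RingOfIntegers.ext
  have h := R.dd_β_sq
  unfold dd at h
  simp only [coe_b, map_sub, map_mul, map_ofNat, map_pow]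
  exact h

theorem a_sym : (R.a 0 + R.a 1 + R.a 2) ^ 2 - 3 * (R.a 0 * R.a 1 + R.a 1 * R.a 2 + R.a 0 * R.a 2) =
    4 * WW L := by
  apply RingOfIntegers.ext
  simp only [coe_a, coe_WW, map_add, map_sub, map_mul, map_ofNat, map_pow]
  rw [R.hα.s₁, R.hα.s₂]
  simp only [← map_pow, ← map_mul, ← map_ofNat (algebraMap K11 L), ← map_sub, ← map_add]
  congr 1
  linear_combination 4 * wK_sq

theorem smul_a (τ : L ≃ₐ[K11] L) (i : Fin 3) : τ • R.a i = R.a (R.permF τ i) :=
  RingOfIntegers.ext (R.permF_spec τ i)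

theorem smul_b (τ : L ≃ₐ[K11] L) (i : Fin 3) : τ • R.b i = R.b (R.permG τ i) :=
  RingOfIntegers.ext (R.permG_spec τ i)

end

end Lab

end Pool.Agent.K4H51.SB
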