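import Pool.Agent.K4H51.SB.Cubic

/-!
# The roots of the two cubics and the Galois action on them
-/

set_option autoImplicit false
set_option linter.unusedSectionVars false

open NumberField Polynomial

namespace Pool.Agent.K4H51.SB

/-- The roots of the two cubics `y³ - 2ωy² - 4y + 2(ω-1)` and `y³ + (2ω-1)y² - y + (2ω-1)`. -/
structure Lab (L : Type) [Field L] [Algebra K11 L] where
  α : Fin 3 → L
  β : Fin 3 → L
  hα : Roots3 (algebraMap K11 L (2 * wK)) (algebraMap K11 L (-4))
    (algebraMap K11 L (-(2 * (wK - 1)))) α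
  hβ : Roots3 (algebraMap K11 L (1 - 2 * wK)) (algebraMap K11 L (-1))
    (algebraMap K11 L (1 - 2 * wK)) β

theorem charZero_ext (L : Type) [Field L] [Algebra K11 L] : CharZero L :=
  charZero_of_injective_algebraMap (algebraMap K11 L).injective

section stab

variable {L : Type} [Field L] [Algebra K11 L]

theorem stab3 {e₁ e₂ e₃ : K11} {r : Fin 3 → L}
    (h : Roots3 (algebraMap K11 L e₁) (algebraMap K11 L e₂) (algebraMap K11 L e₃) r)
    (g : L ≃ₐ[K11] L) (i : Fin 3) : ∃ j, g • r i = r j := by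
  apply h.eq_of_root
  have h1 := congrArg g (h.root i)
  rw [map_sub, map_add, map_sub, map_mul, map_mul, map_pow, map_pow, map_zero, g.commutes,
    g.commutes, g.commutes] at h1
  exact h1

end stab

namespace Lab

section field

variable {L : Type} [Field L] [Algebra K11 L] (R : Lab L)

theorem dd_α_sq : dd R.α ^ 2 = algebraMap K11 L (-(4 * (2 + 5 * wK))) := by
  rw [R.hα.disc]
  simp only [← map_pow, ← map_mul, ← map_ofNat (algebraMap K11 L), ← map_sub, ← map_add]
  congr 1
  linear_combination (64 * wK ^ 2 + 52) * wK_sq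

theorem dd_β_sq : dd R.β ^ 2 = 4 := by
  rw [R.hβ.disc]
  simp only [← map_pow, ← map_mul, ← map_ofNat (algebraMap K11 L), ← map_sub, ← map_add]
  congr 1
  linear_combination (-16 * (1 - 2 * wK) ^ 2) * wK_sq

theorem wK_ne : 2 + 5 * wK ≠ 0 := by
  intro h
  have h1 : ((2 : ℚ) : K11) + ((5 : ℚ) : K11) * wK = 0 := by
    rw [← h]; push_cast; ring
  have := unique_K h1
  norm_num at this

theorem dd_α_ne : dd R.α ≠ 0 := by
  intro h
  have h1 := R.dd_α_sq
  rw [h, zero_pow two_ne_zero, ← map_zero (algebraMap K11 L)] at h1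
  have h2 := (algebraMap K11 L).injective h1
  have h3 : (4 : K11) ≠ 0 := by norm_num
  exact (mul_ne_zero h3 wK_ne) (neg_eq_zero.1 h2.symm)

theorem dd_β : dd R.β = 2 ∨ dd R.β = -2 := by
  apply sq_eq_sq_iff_eq_or_eq_neg.1
  rw [R.dd_β_sq]; norm_num

theorem dd_β_ne : dd R.β ≠ 0 := by
  have := charZero_ext L
  rcases R.dd_β with h | h <;> rw [h] <;> norm_num

/-- The action on the roots of the first cubic. -/
noncomputable def permF : (L ≃ₐ[K11] L) →* Equiv.Perm (Fin 3) :=
  permHom (inj_of_dd R.dd_α_ne) (stab3 R.hα)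

/-- The action on the roots of the second cubic. -/
noncomputable def permG : (L ≃ₐ[K11] L) →* Equiv.Perm (Fin 3) :=
  permHom (inj_of_dd R.dd_β_ne) (stab3 R.hβ)

theorem permF_spec (τ : L ≃ₐ[K11] L) (i : Fin 3) : τ (R.α i) = R.α (R.permF τ i) :=
  permHom_spec (inj_of_dd R.dd_α_ne) (stab3 R.hα) τ i

theorem permG_spec (τ : L ≃ₐ[K11] L) (i : Fin 3) : τ (R.β i) = R.β (R.permG τ i) :=
  permHom_spec (inj_of_dd R.dd_β_ne) (stab3 R.hβ) τ i

theorem dd_map {F F' : Type} [Field F] [Field F'] (f : F →+* F') (r : Fin 3 → F) :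
    f (dd r) = dd (fun i => f (r i)) := by
  unfold dd; simp only [map_mul, map_sub]

theorem map_dd_α (τ : L ≃ₐ[K11] L) :
    τ (dd R.α) = ((Equiv.Perm.sign (R.permF τ) : ℤˣ) : ℤ) * dd R.α := by
  rw [← dd_perm]
  have := dd_map (τ : L →+* L) R.α
  rw [show τ (dd R.α) = (τ : L →+* L) (dd R.α) from rfl, this]
  congr 1
  funext i
  exact R.permF_spec τ i

theorem map_dd_β (τ : L ≃ₐ[K11] L) :
    τ (dd R.β) = ((Equiv.Perm.sign (R.permG τ) : ℤˣ) : ℤ) * dd R.β := by
  rw [← dd_perm]
  have := dd_map (τ : L →+* L) R.β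
  rw [show τ (dd R.β) = (τ : L →+* L) (dd R.β) from rfl, this]
  congr 1
  funext i
  exact R.permG_spec τ i

theorem permG_sign (τ : L ≃ₐ[K11] L) : Equiv.Perm.sign (R.permG τ) = 1 := by
  have := charZero_ext L
  have h1 := R.map_dd_β τ
  have h2 : τ (dd R.β) = dd R.β := by
    rcases R.dd_β with h | h
    · rw [h, map_ofNat]
    · rw [h, map_neg, map_ofNat]
  rcases Int.units_eq_one_or (Equiv.Perm.sign (R.permG τ)) with h | h
  · exact h
  · exfalso
    rw [h2, h] at h1
    apply R.dd_β_ne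
    have h3 : (2 : L) * dd R.β = 0 := by
      push_cast at h1
      linear_combination h1
    rcases mul_eq_zero.1 h3 with h4 | h4
    · exact absurd h4 two_ne_zero
    · exact h4

theorem permF_sign_of_fix (τ : L ≃ₐ[K11] L) (h2 : τ (dd R.α) = dd R.α) :
    Equiv.Perm.sign (R.permF τ) = 1 := by
  have := charZero_ext L
  have h1 := R.map_dd_α τ
  rcases Int.units_eq_one_or (Equiv.Perm.sign (R.permF τ)) with h | h
  · exact h
  · exfalso
    rw [h2, h] at h1
    apply R.dd_α_ne
    have h3 : (2 : L) * dd R.α = 0 := by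
      push_cast at h1
      linear_combination h1
    rcases mul_eq_zero.1 h3 with h4 | h4
    · exact absurd h4 two_ne_zero
    · exact h4

theorem permG_apply (τ : L ≃ₐ[K11] L) (i : Fin 3) : R.permG τ i = i + R.permG τ 0 :=
  perm3_even (R.permG_sign τ) i

theorem permG_mul_zero (σ τ : L ≃ₐ[K11] L) :
    R.permG (σ * τ) 0 = R.permG σ 0 + R.permG τ 0 := by
  rw [map_mul, Equiv.Perm.mul_apply, R.permG_apply σ (R.permG τ 0), add_comm]

/-- Change of labelling. -/
def swapF : Lab L where
  α := fun i => R.α (Equiv.swap 1 2 i)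
  β := R.β
  hα := R.hα.swap
  hβ := R.hβ

/-- Change of labelling. -/
def swapG : Lab L where
  α := R.α
  β := fun i => R.β (Equiv.swap 1 2 i)
  hα := R.hα
  hβ := R.hβ.swap

end field

end Lab

end Pool.Agent.K4H51.SB
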