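import Pool.Agent.K4H51.SB.Hopf
import Pool.Agent.K4H51.SB.Conj

/-!
# Points of a product of two group schemes
-/

set_option autoImplicit false
set_option linter.unusedSectionVars false

open Polynomial TensorProduct

namespace Pool.Agent.K4H51.SB

section prod

variable {R A₁ A₂ B : Type} [CommRing R] [CommRing A₁] [CommRing A₂] [CommRing B]
  [HopfAlgebra R A₁] [HopfAlgebra R A₂] [Algebra R B]

theorem pointMul_left (f g : A₁ ⊗[R] A₂ →ₐ[R] B) (x : A₁) :
    pointMul f g (x ⊗ₜ 1) =
      pointMul (f.comp Algebra.TensorProduct.includeLeft)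
        (g.comp Algebra.TensorProduct.includeLeft) x := by
  unfold pointMul
  rw [AlgHom.comp_apply, AlgHom.comp_apply, Bialgebra.comulAlgHom_apply,
    Bialgebra.comulAlgHom_apply, TensorProduct.comul_tmul, Bialgebra.comul_one]
  generalize Coalgebra.comul (R := R) x = u
  induction u using TensorProduct.induction_on with
  | zero => simp
  | tmul a b => simp [Algebra.TensorProduct.one_def]
  | add a b ha hb => rw [TensorProduct.add_tmul, map_add, map_add, map_add, ha, hb]

theorem pointMul_right (f g : A₁ ⊗[R] A₂ →ₐ[R] B) (x : A₂) :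
    pointMul f g (1 ⊗ₜ x) =
      pointMul (f.comp Algebra.TensorProduct.includeRight)
        (g.comp Algebra.TensorProduct.includeRight) x := by
  unfold pointMul
  rw [AlgHom.comp_apply, AlgHom.comp_apply, Bialgebra.comulAlgHom_apply,
    Bialgebra.comulAlgHom_apply, TensorProduct.comul_tmul, Bialgebra.comul_one]
  generalize Coalgebra.comul (R := R) x = u
  induction u using TensorProduct.induction_on with
  | zero => simp
  | tmul a b => simp [Algebra.TensorProduct.one_def]
  | add a b ha hb => rw [TensorProduct.tmul_add, map_add, map_add, map_add, ha, hb]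

end prod

section pt

variable {R : Type} [CommRing R] {c d t : R} {A : Type} [CommRing A] [Algebra R A] {z : A}

theorem IsPt.pointMul_z (h : IsPt c z) (hcd : c * d = 2) (ht : 3 * t = 1)
    {B : Type} [CommRing B] [Algebra R B] (f g : A →ₐ[R] B) :
    @pointMul R A B _ _ (h.hopfA hcd ht) _ _ f g z =
      gl (algebraMap R B d) (algebraMap R B t) (f z) (g z) := by
  let _ := h.hopfA hcd ht
  show (Algebra.TensorProduct.lift f g (fun _ _ => Commute.all _ _)) (h.comulA hcd ht z) = _
  rw [h.comulA_z hcd ht, algHom_gl]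
  simp

end pt

section adj

variable {R : Type} [CommRing R]

/-- The algebra `R[z]/(z⁴ - c z)`. -/
abbrev HA (c : R) : Type := AdjoinRoot (X ^ 4 - C c * X : R[X])

theorem isPt_root (c : R) : IsPt c (AdjoinRoot.root (X ^ 4 - C c * X : R[X])) where
  four := by
    have h := AdjoinRoot.eval₂_root (X ^ 4 - C c * X : R[X])
    simp only [eval₂_sub, eval₂_pow, eval₂_X, eval₂_mul, eval₂_C] at h
    exact sub_eq_zero.1 h
  lift := by
    intro B _ _ x hx
    refine ⟨AdjoinRoot.liftAlgHom _ (Algebra.ofId R B) x ?_, AdjoinRoot.liftAlgHom_root _ _ _ _⟩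
    simp only [eval₂_sub, eval₂_pow, eval₂_X, eval₂_mul, eval₂_C]
    rw [hx]
    exact sub_self _
  ext := fun B _ _ f g h => AdjoinRoot.algHom_ext h

theorem monic_hp (c : R) : (X ^ 4 - C c * X : R[X]).Monic := by
  monicity!

theorem finite_HA (c : R) : Module.Finite R (HA c) := (monic_hp c).finite_adjoinRoot

theorem free_HA (c : R) : Module.Free R (HA c) := (monic_hp c).free_adjoinRoot

end adj

end Pool.Agent.K4H51.SB
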