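import Pool.Agent.K4H51.SB.Lab
import Pool.Agent.K4H51.SB.Conj

/-!
# The representation
-/

set_option autoImplicit false
set_option linter.unusedSectionVars false

open NumberField Polynomial Matrix

namespace Pool.Agent.K4H51.SB

theorem exists_zb : ∃ z : Fbar 2, z ^ 2 + z + 1 = 0 := by
  obtain ⟨a, ha⟩ := IsAlgClosed.exists_root (X ^ 2 + X + 1 : (Fbar 2)[X]) (by
    have : (X ^ 2 + X + 1 : (Fbar 2)[X]).degree = 2 := by compute_degree!
    rw [this]; norm_num)
  simp only [IsRoot, eval_add, eval_pow, eval_X, eval_one] at ha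
  exact ⟨a, ha⟩

/-- A primitive cube root of unity in `𝔽̄₂`. -/
noncomputable def zb : Fbar 2 := Classical.choose exists_zb

theorem zb_rel : zb ^ 2 + zb + 1 = 0 := Classical.choose_spec exists_zb

theorem zb_cube : zb ^ 3 = 1 := by linear_combination (zb - 1) * zb_rel

theorem two_Fbar : (2 : Fbar 2) = 0 := by
  have := CharP.cast_eq_zero (Fbar 2) 2
  exact_mod_cast this

theorem zb_ne_zero : zb ≠ 0 := by
  intro h; have := zb_rel; rw [h] at this; simp at this

theorem zb_ne_one : zb ≠ 1 := by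
  intro h
  have := zb_rel
  rw [h] at this
  have h1 : (1 : Fbar 2) = 0 := by linear_combination this - two_Fbar
  exact one_ne_zero h1

theorem zb_sq : zb ^ 2 = zb + 1 := by linear_combination zb_rel - (zb + 1) * two_Fbar

theorem zb_sq_ne_one : zb ^ 2 ≠ 1 := by
  intro h
  apply zb_ne_zero
  linear_combination h - zb_sq

theorem zb_sq_ne_zero : zb ^ 2 ≠ 0 := pow_ne_zero 2 zb_ne_zero

theorem pow_add_fin {M : Type} [Monoid M] {z : M} (h3 : z ^ 3 = 1) (x y : Fin 3) :
    z ^ (x + y).val = z ^ x.val * z ^ y.val := by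
  rw [← pow_add, Fin.val_add]
  conv_rhs => rw [← Nat.mod_add_div (x.val + y.val) 3, pow_add, pow_mul, h3, one_pow, mul_one]

/-- The embedding of `𝔽₄`. -/
noncomputable def jF : F4 →+* Fbar 2 :=
  (QuadraticAlgebra.lift (R := ZMod 2) (A := Fbar 2) (a := 1) (b := 1)
    ⟨zb, by rw [one_smul, one_smul]; linear_combination zb_sq⟩).toRingHom

theorem jF_z4 : jF z4 = zb := by
  show QuadraticAlgebra.lift (R := ZMod 2) (A := Fbar 2) (a := 1) (b := 1) ⟨zb, _⟩ z4 = zb
  simp [QuadraticAlgebra.lift, z4]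

/-- The matrices of the two-dimensional representation over `𝔽̄₂`. -/
noncomputable def Mb (p : Equiv.Perm (Fin 3)) : Matrix (Fin 2) (Fin 2) (Fbar 2) :=
  (M2 p).map (algebraMap (ZMod 2) (Fbar 2))

theorem Mb_mul (p q : Equiv.Perm (Fin 3)) : Mb (p * q) = Mb p * Mb q := by
  rw [Mb, M2_mul, Matrix.map_mul]; rfl

theorem Mb_one : Mb 1 = 1 := by
  rw [Mb, M2_one, Matrix.map_one _ (map_zero _) (map_one _)]

theorem Mb_det (p : Equiv.Perm (Fin 3)) : (Mb p).det = 1 := by
  have := RingHom.map_det (algebraMap (ZMod 2) (Fbar 2)) (M2 p)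
  rw [M2_det, map_one] at this
  rw [this]; rfl

theorem Mb_trace (p : Equiv.Perm (Fin 3)) (hp : ∀ i, p i ≠ i) : (Mb p).trace = 1 := by
  have h := congrArg (algebraMap (ZMod 2) (Fbar 2)) (M2_trace p hp)
  rw [map_one] at h
  rw [← h, Matrix.trace_fin_two, Matrix.trace_fin_two, map_add]
  rfl

theorem M2_rel (q : Equiv.Perm (Fin 3)) (hq : ∀ i, q i ≠ i) : M2 q * M2 q + M2 q + 1 = 0 := by
  revert q; decide +kernel

theorem Mb_rel (q : Equiv.Perm (Fin 3)) (hq : ∀ i, q i ≠ i) : Mb q * Mb q + Mb q + 1 = 0 := by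
  have h := congrArg (fun M => (algebraMap (ZMod 2) (Fbar 2)).mapMatrix M) (M2_rel q hq)
  simp only [map_add, map_mul, map_one, map_zero] at h
  exact h

theorem perm3_odd (p : Equiv.Perm (Fin 3)) (hp : Equiv.Perm.sign p = -1) : p * p = 1 := by
  revert p; decide

theorem perm3_comm (p q : Equiv.Perm (Fin 3)) (hp : Equiv.Perm.sign p = -1)
    (hq : ∀ i, q i ≠ i) : p * q = q * q * p := by
  revert p q; decide

theorem no_eigen (p q : Equiv.Perm (Fin 3)) (hp : Equiv.Perm.sign p = -1) (hq : ∀ i, q i ≠ i)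
    {v : Fin 2 → Fbar 2} (hv : v ≠ 0) {c d : Fbar 2} (h1 : Mb p *ᵥ v = c • v)
    (h2 : Mb q *ᵥ v = d • v) : False := by
  obtain ⟨i, hi⟩ := Function.ne_iff.1 hv
  rw [Pi.zero_apply] at hi
  have e1 : Mb p *ᵥ (Mb q *ᵥ v) = Mb q *ᵥ (Mb q *ᵥ (Mb p *ᵥ v)) := by
    rw [mulVec_mulVec, mulVec_mulVec, mulVec_mulVec, ← Mb_mul, ← Mb_mul, ← Mb_mul,
      perm3_comm p q hp hq]
  have e2 : Mb p *ᵥ (Mb p *ᵥ v) = v := by
    rw [mulVec_mulVec, ← Mb_mul, perm3_odd p hp, Mb_one, one_mulVec]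
  have e3 : (Mb q * Mb q + Mb q + 1) *ᵥ v = 0 := by rw [Mb_rel q hq, zero_mulVec]
  simp only [h1, h2, mulVec_smul] at e1
  rw [h1, mulVec_smul, h1] at e2
  rw [add_mulVec, add_mulVec, one_mulVec, ← mulVec_mulVec, h2, mulVec_smul, h2] at e3
  have f1 := congrFun e1 i
  have f2 := congrFun e2 i
  have f3 := congrFun e3 i
  simp only [Pi.smul_apply, Pi.add_apply, smul_eq_mul, Pi.zero_apply] at f1 f2 f3
  have g1 : d * c = c * (d * d) := by
    apply mul_right_cancel₀ hi; linear_combination f1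
  have g2 : c * c = 1 := by apply mul_right_cancel₀ hi; linear_combination f2
  have g3 : d * d + d + 1 = 0 := by
    rcases mul_eq_zero.1 (show (d * d + d + 1) * v i = 0 by linear_combination f3) with h | h
    · exact h
    · exact absurd h hi
  have hc : c ≠ 0 := by
    intro h; rw [h, mul_zero] at g2; exact zero_ne_one g2
  have hd : d ≠ 0 := by
    intro h; rw [h] at g3; simp at g3
  have g4 : d = 1 := by
    apply mul_left_cancel₀ (mul_ne_zero hc hd); linear_combination -g1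
  rw [g4] at g3
  have g5 : (1 : Fbar 2) = 0 := by linear_combination g3 - two_Fbar
  exact one_ne_zero g5

namespace Lab

section

variable {L : Type} [Field L] [Algebra K11 L] (R : Lab L)

/-- The representation, as matrices. -/
noncomputable def repM : (L ≃ₐ[K11] L) →* Matrix (Fin 2) (Fin 2) (Fbar 2) where
  toFun τ := zb ^ (R.permG τ 0).val • Mb (R.permF τ)
  map_one' := by rw [map_one, map_one, Mb_one]; simp
  map_mul' σ τ := by
    rw [R.permG_mul_zero, pow_add_fin zb_cube, map_mul, Mb_mul, smul_mul_smul_comm]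

/-- The representation of the Galois group of the splitting field. -/
noncomputable def repL : (L ≃ₐ[K11] L) →* GL (Fin 2) (Fbar 2) := R.repM.toHomUnits

theorem repL_coe (τ : L ≃ₐ[K11] L) : (R.repL τ : Matrix (Fin 2) (Fin 2) (Fbar 2)) =
    zb ^ (R.permG τ 0).val • Mb (R.permF τ) := rfl

theorem repL_trace (τ : L ≃ₐ[K11] L) (h : ∀ i, R.permF τ i ≠ i) :
    (R.repL τ : Matrix (Fin 2) (Fin 2) (Fbar 2)).trace = zb ^ (R.permG τ 0).val := by
  rw [repL_coe, Matrix.trace_smul, Mb_trace _ h, smul_eq_mul, mul_one]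

theorem repL_det (τ : L ≃ₐ[K11] L) (h : R.permG τ 0 = 0) :
    (R.repL τ : Matrix (Fin 2) (Fin 2) (Fbar 2)).det = 1 := by
  rw [repL_coe, h]
  simp [Mb_det]

theorem repL_eq (τ : L ≃ₐ[K11] L) (h : R.permG τ = 1) :
    (R.repL τ : Matrix (Fin 2) (Fin 2) (Fbar 2)) = Mb (R.permF τ) := by
  rw [repL_coe, h]
  simp

end

end Lab

end Pool.Agent.K4H51.SB
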