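import Pool.Agent.K4H51.SB.Rep

/-!
# The splitting field
-/

set_option autoImplicit false
set_option linter.unusedSectionVars false

open NumberField Polynomial Matrix

namespace Pool.Agent.K4H51.SB

/-- The first cubic. -/
noncomputable def pf : K11[X] :=
  X ^ 3 - C (2 * wK) * X ^ 2 + C (-4) * X - C (-(2 * (wK - 1)))

/-- The second cubic. -/
noncomputable def pg : K11[X] :=
  X ^ 3 - C (1 - 2 * wK) * X ^ 2 + C (-1) * X - C (1 - 2 * wK)

theorem pf_monic : pf.Monic := by unfold pf; monicity!

theorem pg_monic : pg.Monic := by unfold pg; monicity!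

theorem pfg_ne : pf * pg ≠ 0 := (pf_monic.mul pg_monic).ne_zero

/-- The splitting field of the product of the two cubics. -/
noncomputable def LL : IntermediateField K11 (AlgebraicClosure K11) :=
  IntermediateField.adjoin K11 ((pf * pg).rootSet (AlgebraicClosure K11))

instance instSplit : (pf * pg).IsSplittingField K11 LL :=
  IntermediateField.adjoin_rootSet_isSplittingField (IsAlgClosed.splits _)

instance instFD : FiniteDimensional K11 LL :=
  Polynomial.IsSplittingField.finiteDimensional LL (pf * pg)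

instance instNormal : Normal K11 LL := Normal.of_isSplittingField (pf * pg)

instance instGalois : IsGalois K11 LL := { }

instance instNF : NumberField LL := NumberField.of_module_finite K11 LL

theorem exists_lab : Nonempty (Lab LL) := by
  have key : ∀ e₁ e₂ e₃ : K11, (X ^ 3 - C e₁ * X ^ 2 + C e₂ * X - C e₃ : K11[X]) ∣ pf * pg →
      ∃ r : Fin 3 → LL, Roots3 (algebraMap K11 LL e₁) (algebraMap K11 LL e₂)
        (algebraMap K11 LL e₃) r := by
    intro e₁ e₂ e₃ hd
    obtain ⟨r, hr⟩ := exists_roots3 (algebraMap K11 (AlgebraicClosure K11) e₁)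
      (algebraMap K11 (AlgebraicClosure K11) e₂) (algebraMap K11 (AlgebraicClosure K11) e₃)
    have hmem : ∀ i, r i ∈ LL := by
      intro i
      apply IntermediateField.subset_adjoin
      rw [mem_rootSet]
      refine ⟨pfg_ne, ?_⟩
      apply aeval_eq_zero_of_dvd_aeval_eq_zero hd
      have := hr.root i
      simpa using this
    refine ⟨fun i => ⟨r i, hmem i⟩, ?_, ?_, ?_⟩
    · apply Subtype.ext; exact hr.s₁
    · apply Subtype.ext; exact hr.s₂
    · apply Subtype.ext; exact hr.s₃
  obtain ⟨α, hα⟩ := key (2 * wK) (-4) (-(2 * (wK - 1))) (Dvd.intro _ rfl)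
  obtain ⟨β, hβ⟩ := key (1 - 2 * wK) (-1) (1 - 2 * wK) (Dvd.intro_left _ rfl)
  exact ⟨⟨α, β, hα, hβ⟩⟩

theorem lab_ext (R : Lab LL) (τ : LL ≃ₐ[K11] LL) (hF : R.permF τ = 1) (hG : R.permG τ = 1) :
    τ = 1 := by
  have h1 := instSplit.adjoin_rootSet'
  have h2 : τ.toAlgHom = AlgHom.id K11 LL := by
    apply AlgHom.ext_of_adjoin_eq_top h1
    intro x hx
    rw [mem_rootSet] at hx
    have h3 := hx.2
    rw [map_mul] at h3
    rcases mul_eq_zero.1 h3 with h4 | h4
    · obtain ⟨i, rfl⟩ := R.hα.eq_of_root (x := x) (by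
        simpa [pf] using h4)
      have := R.permF_spec τ i
      rw [hF, Equiv.Perm.one_apply] at this
      exact this
    · obtain ⟨i, rfl⟩ := R.hβ.eq_of_root (x := x) (by
        simpa [pg] using h4)
      have := R.permG_spec τ i
      rw [hG, Equiv.Perm.one_apply] at this
      exact this
  ext x
  have := congrArg (fun f => f x) h2
  exact congrArg Subtype.val this

/-- The representation of the absolute Galois group. -/
noncomputable def Lab.rho (R : Lab LL) : GalAbs K11 →* GL (Fin 2) (Fbar 2) :=
  R.repL.comp (AlgEquiv.restrictNormalHom LL)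

theorem Lab.rho_apply (R : Lab LL) (σ : GalAbs K11) :
    R.rho σ = R.repL (AlgEquiv.restrictNormalHom LL σ) := rfl

theorem fix_le (R : Lab LL) : LL.fixingSubgroup ≤ R.rho.ker := by
  intro σ hσ
  have h1 : AlgEquiv.restrictNormalHom LL σ = 1 := by
    rw [← MonoidHom.mem_ker, IntermediateField.restrictNormalHom_ker]
    exact hσ
  rw [MonoidHom.mem_ker, Lab.rho_apply, h1, map_one]

theorem rho_cont (R : Lab LL) : IsContinuousRep R.rho := by
  let _ : TopologicalSpace (GL (Fin 2) (Fbar 2)) := ⊥
  show Continuous (fun σ => R.repL (AlgEquiv.restrictNormalHom LL σ))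
  exact continuous_of_discreteTopology.comp (InfiniteGalois.restrictNormalHom_continuous LL)

theorem exists_res (τ : LL ≃ₐ[K11] LL) :
    ∃ σ : GalAbs K11, AlgEquiv.restrictNormalHom LL σ = τ :=
  AlgEquiv.restrictNormalHom_surjective (AlgebraicClosure K11) τ

end Pool.Agent.K4H51.SB
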