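import Pool.Agent.K4H51.SB.Hecke

/-!
# Serre's modularity conjecture over imaginary quadratic fields of class number one

Throughout `Ω` is an algebraic closure of the number field `K`, so that `Ω ≃ₐ[K] Ω` is the absolute
Galois group of `K`, and `F` is an algebraic closure of `𝔽_p`.
-/

set_option autoImplicit false
set_option linter.unusedSectionVars false

open NumberField IsDedekindDomain Matrix
open scoped TensorProduct

namespace Pool.Agent.K4H51.SB

/-! ### Mod `p` eigenforms -/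

section hecke

variable {K : Type} [Field K] [NumberField K]

/-- `H¹(Y₀(𝔑), F)`, `Y₀(𝔑) = Γ₀(𝔑)\H₃`.  As `H₃` is simply connected and `Γ₀(𝔑)` acts properly
discontinuously, the fundamental group of the quotient space `Y₀(𝔑)` is the quotient of `Γ₀(𝔑)` by
the (normal) subgroup generated by the elements having a fixed point in `H₃` (Armstrong), so that
`H¹(Y₀(𝔑), F)` is the space of homomorphisms `Γ₀(𝔑) → F` that vanish on these elements (this set
of functions is a linear subspace, hence equal to its span). -/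
def H1Y (φ : K →+* ℂ) (𝔑 : Ideal (𝓞 K)) (F : Type) [Field F] : Submodule F (Gamma0 𝔑 → F) :=
  Submodule.span F {f | (∀ a b, f (a * b) = f a + f b) ∧
    ∀ γ : Gamma0 𝔑, FixesPoint φ γ.1 → f γ = 0}

/-- The Hecke operator `T_π`, `π` a prime of `𝓞 K` not dividing `𝔑`: `(T_π f)(γ) = ∑_j f(γ_j)`,
where `Γ₀(𝔑) diag(1, π) Γ₀(𝔑)` is the disjoint union of the cosets `Γ₀(𝔑) δ_j` and
`δ_j γ = γ_j δ_{j'}` with `γ_j ∈ Γ₀(𝔑)`. -/
noncomputable def heckeFun {F : Type} [Field F] {𝔑 : Ideal (𝓞 K)} {π : 𝓞 K} (hπ : Prime π)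
    (hN : IsCoprime (Ideal.span {π}) 𝔑) (f : Gamma0 𝔑 → F) (γ : Gamma0 𝔑) : F :=
  ∑ᶠ j, f (heckeStep hπ hN γ j).1

theorem mem_H1Y {φ : K →+* ℂ} {𝔑 : Ideal (𝓞 K)} {F : Type} [Field F] {f : Gamma0 𝔑 → F} :
    f ∈ H1Y φ 𝔑 F ↔ f ∈ H1 φ 𝔑 F := by
  have h : H1Y φ 𝔑 F = H1 φ 𝔑 F := Submodule.span_eq (H1 φ 𝔑 F)
  rw [h]

/-- `H¹(Y₀(𝔑), F)` is stable under the Hecke operators. -/
theorem heckeFun_mem {φ : K →+* ℂ} {𝔑 : Ideal (𝓞 K)} {F : Type} [Field F] {π : 𝓞 K}
    (hπ : Prime π) (hN : IsCoprime (Ideal.span {π}) 𝔑) {f : Gamma0 𝔑 → F} (hf : f ∈ H1Y φ 𝔑 F) :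
    heckeFun hπ hN f ∈ H1Y φ 𝔑 F := by
  rw [mem_H1Y] at *
  exact (heckeT φ 𝔑 F hπ hN ⟨f, hf⟩).2

/-- The index set of the Hecke operators: the primes `π` of `𝓞 K` with `(π)` not dividing `p𝔑`. -/
abbrev GoodPrime (𝔑 : Ideal (𝓞 K)) (p : ℕ) : Type :=
  {π : 𝓞 K // Prime π ∧ IsCoprime (Ideal.span {π}) 𝔑 ∧ ¬ π ∣ (p : 𝓞 K)}

end hecke

/-- Let `V` be a subspace of `W` stable under the operators `T i`.  The family `a` is given by
`a i = Φ(T i)`, for a ring homomorphism `Φ : 𝕋 → F`, `𝕋` being the ring generated by the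
restrictions of the `T i` to `V`. -/
def IsEigenSystem {I F W : Type} [Field F] [AddCommGroup W] [Module F W] (V : Submodule F W)
    (T : I → W → W) (a : I → F) : Prop :=
  ∃ Φ : Subring.closure {t : Module.End F V | ∃ i, ∀ v : V, (t v : W) = T i v} →+* F,
    ∀ t i, (∀ v : V, (t.1 v : W) = T i v) → Φ t = a i

/-! ### Mod `p` representations -/

section rep

variable {K Ω L F : Type} [Field K] [Field Ω] [Algebra K Ω] [Field L] [Algebra K L] [Field F]

/-- `ρ : G_K → GL₂(F)` is continuous (for the Krull topology and the discrete topology). -/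
def IsContinuousRho (ρ : (Ω ≃ₐ[K] Ω) →* GL (Fin 2) F) : Prop :=
  @Continuous _ _ (krullTopology K Ω) ⊥ ρ

/-- `ρ` is irreducible: no line of `F²` is stable. -/
def IsIrreducibleRho (ρ : (Ω ≃ₐ[K] Ω) →* GL (Fin 2) F) : Prop :=
  ∀ v : Fin 2 → F, v ≠ 0 → ∃ σ : Ω ≃ₐ[K] Ω, ∀ c : F, (ρ σ).1 *ᵥ v ≠ c • v

/-- `σ ∈ G_K` restricts to `τ ∈ Gal(L/K)` on the subfield `e(L)` of `Ω`. -/
def Restricts (e : L →ₐ[K] Ω) (σ : Ω ≃ₐ[K] Ω) (τ : L ≃ₐ[K] L) : Prop :=
  ∀ x : L, e (τ x) = σ (e x)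

/-- `ρ` factors through the Galois group of `L/K`, `L` being embedded in `Ω` by `e`. -/
def FactorsThrough (ρ : (Ω ≃ₐ[K] Ω) →* GL (Fin 2) F) (e : L →ₐ[K] Ω) : Prop :=
  ∀ σ : Ω ≃ₐ[K] Ω, Restricts e σ 1 → ρ σ = 1

variable (K) in
/-- The `i`-th ramification group (lower numbering) of `L/K` at a prime `P` of `𝓞 L`: the
`τ ∈ Gal(L/K)` with `τ x ≡ x mod P^(i+1)` for all `x ∈ 𝓞 L`. -/
def ramSet (P : Ideal (𝓞 L)) (i : ℕ) : Set (L ≃ₐ[K] L) :=
  {τ | ∀ x y : 𝓞 L, (y : L) = τ (x : L) → y - x ∈ P ^ (i + 1)}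

/-- The dimension of the space of vectors of `F²` fixed by the `ρ(σ)`, where `σ ∈ G_K` restricts to
an element of `H ⊆ Gal(L/K)` (this set of vectors is a subspace, hence equal to its span). -/
noncomputable def fixedDim (ρ : (Ω ≃ₐ[K] Ω) →* GL (Fin 2) F) (e : L →ₐ[K] Ω)
    (H : Set (L ≃ₐ[K] L)) : ℕ :=
  Module.finrank F (Submodule.span F
    {v : Fin 2 → F | ∀ σ τ, Restricts e σ τ → τ ∈ H → (ρ σ).1 *ᵥ v = v})

/-- `∑_i |G_i| codim V^{G_i}`, `G_i` the ramification groups of `L/K` at `P`: this is `|G_0|` times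
the exponent at `P ∩ 𝓞 K` of the Artin conductor of `ρ`. -/
noncomputable def artinTotal (ρ : (Ω ≃ₐ[K] Ω) →* GL (Fin 2) F) (e : L →ₐ[K] Ω)
    (P : Ideal (𝓞 L)) : ℕ :=
  ∑ᶠ i : ℕ, Nat.card (ramSet K P i) * (2 - fixedDim ρ e (ramSet K P i))

/-- `𝔑` is the prime-to-`p` part of the Artin conductor of `ρ`, computed in the extension `L/K`:
the exponent of `𝔑` at a prime `v` of `K` is `0` if `v ∣ p` and `∑_i (|G_i| / |G_0|) codim V^{G_i}`
if `v ∤ p`, `G_i` being the ramification groups at a prime `P` of `L` above `v`. -/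
def IsConductor (p : ℕ) (ρ : (Ω ≃ₐ[K] Ω) →* GL (Fin 2) F) (e : L →ₐ[K] Ω) (𝔑 : Ideal (𝓞 K)) :
    Prop :=
  ∀ v : HeightOneSpectrum (𝓞 K),
    ((p : 𝓞 K) ∈ v.asIdeal → multiplicity v.asIdeal 𝔑 = 0) ∧
    ((p : 𝓞 K) ∉ v.asIdeal → ∀ P : Ideal (𝓞 L), P.IsPrime →
      P.comap (algebraMap (𝓞 K) (𝓞 L)) = v.asIdeal →
      multiplicity v.asIdeal 𝔑 * Nat.card (ramSet K P 0) = artinTotal ρ e P)

/-- `det ρ` is unramified outside `p`, in the extension `L/K`. -/
def DetUnramified (p : ℕ) (ρ : (Ω ≃ₐ[K] Ω) →* GL (Fin 2) F) (e : L →ₐ[K] Ω) : Prop :=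
  ∀ P : Ideal (𝓞 L), P.IsPrime → (p : 𝓞 L) ∉ P → ∀ σ τ, Restricts e σ τ → τ ∈ ramSet K P 0 →
    (ρ σ).1.det = 1

/-- `L/K` is a finite Galois extension through which `ρ` factors, `𝔑` is the prime-to-`p` part of
the Artin conductor of `ρ` and `det ρ` is unramified outside `p`. -/
def LevelIn (p : ℕ) (ρ : (Ω ≃ₐ[K] Ω) →* GL (Fin 2) F) (e : L →ₐ[K] Ω) (𝔑 : Ideal (𝓞 K)) : Prop :=
  FiniteDimensional K L ∧ IsGalois K L ∧ FactorsThrough ρ e ∧ IsConductor p ρ e 𝔑 ∧
    DetUnramified p ρ e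

/-- `𝔑` is the Serre conductor of `ρ` and the character of `ρ`, the prime-to-`p` part of `det ρ`,
is trivial, i.e. (as `K` has class number one) `det ρ` is unramified at all primes not above `p`.
Both are computed in some finite Galois extension `L/K` through which `ρ` factors. -/
def HasLevel (p : ℕ) (ρ : (Ω ≃ₐ[K] Ω) →* GL (Fin 2) F) (𝔑 : Ideal (𝓞 K)) : Prop :=
  𝔑 ≠ ⊥ ∧ ∃ (L : Type) (_ : Field L) (_ : Algebra K L) (e : L →ₐ[K] Ω), LevelIn p ρ e 𝔑

/-- `σ ∈ G_K` acts on `L` as an arithmetic Frobenius element of a prime `P` of `L` above `(π)`: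
`σ x ≡ x ^ N(π) mod P` for all `x ∈ 𝓞 L`. -/
def IsFrob (e : L →ₐ[K] Ω) (π : 𝓞 K) (σ : Ω ≃ₐ[K] Ω) : Prop :=
  ∃ (P : Ideal (𝓞 L)) (τ : L ≃ₐ[K] L), P.IsPrime ∧
    P.comap (algebraMap (𝓞 K) (𝓞 L)) = Ideal.span {π} ∧ Restricts e σ τ ∧
    ∀ x y : 𝓞 L, (y : L) = τ (x : L) → y - x ^ Nat.card (𝓞 K ⧸ Ideal.span {π}) ∈ P

/-- There is a mod `p` eigenform `Φ` of level `𝔑` (a ring homomorphism from the Hecke algebra of
`H¹(Y₀(𝔑), F)`, generated by the `T_π`, to `F`) with `Tr ρ(Frob_(π)) = Φ(T_π)` for all primes `(π)`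
not dividing `p𝔑`: every `σ ∈ G_K` that acts as a Frobenius element at `(π)` on a finite Galois
extension `L/K` through which `ρ` factors has `Tr ρ(σ) = Φ(T_π)`. -/
def IsModular [NumberField K] (φ : K →+* ℂ) (p : ℕ) (ρ : (Ω ≃ₐ[K] Ω) →* GL (Fin 2) F)
    (𝔑 : Ideal (𝓞 K)) : Prop :=
  ∃ a : GoodPrime 𝔑 p → F,
    IsEigenSystem (H1Y φ 𝔑 F) (fun π => heckeFun π.2.1 π.2.2.1) a ∧
    ∀ (π : GoodPrime 𝔑 p) (L : Type) [Field L] [Algebra K L] [FiniteDimensional K L]
      [IsGalois K L] (e : L →ₐ[K] Ω), FactorsThrough ρ e →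
      ∀ σ, IsFrob e π.1 σ → (ρ σ).1.trace = a π

end rep

/-! ### Finite flat representations -/

section flat

/-- The product of two points `f, g : A → B` of the affine group scheme with Hopf algebra `A`. -/
noncomputable def ptMul {R A B : Type} [CommRing R] [CommRing A] [HopfAlgebra R A] [CommRing B]
    [Algebra R B] (f g : A →ₐ[R] B) : A →ₐ[R] B :=
  (Algebra.TensorProduct.lift f g (fun _ _ => Commute.all _ _)).comp (Bialgebra.comulAlgHom R A)

/-- `Spec A` is a finite flat commutative group scheme over `R` and its group of points in `E` is,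
as a module for the Galois group of `E/k`, the module `κ²` with the action `r`. -/
def IsFlatModel (R A : Type) {k E κ : Type} [CommRing R] [CommRing A] [HopfAlgebra R A] [Field k]
    [Algebra R k] [Field E] [Algebra k E] [Algebra R E] [IsScalarTower R k E] [Field κ]
    (r : (E ≃ₐ[k] E) →* GL (Fin 2) κ) : Prop :=
  Module.Finite R A ∧ Module.Flat R A ∧ Coalgebra.IsCocomm R A ∧
    ∃ s : (A →ₐ[R] E) ≃ (Fin 2 → κ), (∀ f g, s (ptMul f g) = s f + s g) ∧
      ∀ (σ : E ≃ₐ[k] E) f, s ((σ.toAlgHom.restrictScalars R).comp f) = (r σ).1 *ᵥ (s f)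

/-- The restriction of `ρ` to the Galois group of `E/k` along an embedding `ι : Ω → E` is, after a
change of basis `M`, the base change along `j : κ → F` of `r : Gal(E/k) → GL₂(κ)`, and `r` arises
from a finite flat commutative group scheme over `R`. -/
def IsFlatWith (R : Type) {k K Ω F E κ : Type} [Field K] [Field Ω] [Algebra K Ω] [Field F]
    [CommRing R] [Field k] [Algebra R k] [Field E] [Algebra k E] [Algebra R E]
    [IsScalarTower R k E] [Field κ] (ρ : (Ω ≃ₐ[K] Ω) →* GL (Fin 2) F) (ι : Ω →+* E) (j : κ →+* F)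
    (r : (E ≃ₐ[k] E) →* GL (Fin 2) κ) (M : GL (Fin 2) F) : Prop :=
  (∀ (σ : E ≃ₐ[k] E) (τ : Ω ≃ₐ[K] Ω), (∀ x, ι (τ x) = σ (ι x)) →
      M * ρ τ * M⁻¹ = Matrix.GeneralLinearGroup.map j (r σ)) ∧
  ∃ (A : Type) (_ : CommRing A) (_ : HopfAlgebra R A), IsFlatModel R A r

/-- The restriction of `ρ` to the Galois group of `E/k` along an embedding `ι : Ω → E` is defined
over a finite field `κ` and arises from a finite flat commutative group scheme over `R`. -/
def IsFlatAlong (R k : Type) {K Ω F E : Type} [Field K] [Field Ω] [Algebra K Ω] [Field F]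
    [CommRing R] [Field k] [Algebra R k] [Field E] [Algebra k E] [Algebra R E]
    [IsScalarTower R k E] (ρ : (Ω ≃ₐ[K] Ω) →* GL (Fin 2) F) (ι : Ω →+* E) : Prop :=
  ∃ (κ : Type) (_ : Field κ) (j : κ →+* F) (r : (E ≃ₐ[k] E) →* GL (Fin 2) κ)
    (M : GL (Fin 2) F), Finite κ ∧ IsFlatWith R ρ ι j r M

/-- `ρ` is finite flat at the prime `v` (above `p`): its restriction to the decomposition group
`G_{K_v}` (through some embedding `ι` of algebraic closures over `K`) arises from a finite flat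
group scheme over the ring of integers of `K_v`. -/
def IsFlatAt {K Ω F : Type} [Field K] [NumberField K] [Field Ω] [Algebra K Ω] [Field F]
    (ρ : (Ω ≃ₐ[K] Ω) →* GL (Fin 2) F) (v : HeightOneSpectrum (𝓞 K)) : Prop :=
  ∃ ι : Ω →+* AlgebraicClosure (v.adicCompletion K),
    (∀ x : K, ι (algebraMap K Ω x) =
      algebraMap (v.adicCompletion K) _ (algebraMap K (v.adicCompletion K) x)) ∧
    IsFlatAlong (v.adicCompletionIntegers K) (v.adicCompletion K) ρ ι

end flat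

/-! ### The conjecture -/

/-- `p` is unramified in `K`. -/
def IsUnram (K : Type) [Field K] (p : ℕ) : Prop :=
  ∀ P : Ideal (𝓞 K), P.IsPrime → (p : 𝓞 K) ∉ P ^ 2

/-- The statement of Q1 for the field `K` and the prime `p` (`Ω` an algebraic closure of `K`, `F` an
algebraic closure of `𝔽_p`): if `K` is imaginary quadratic of class number one and `p` is
unramified in `K`, then for each ideal `𝔑` prime to `p` and each continuous irreducible
`ρ : G_K → GL₂(F)` with Serre conductor `𝔑`, trivial character and finite flat at the primes above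
`p` there is a mod `p` eigenform of level `𝔑` satisfying the trace identity. -/
def SerreFor (K Ω F : Type) [Field K] [NumberField K] [Field Ω] [Algebra K Ω] [Field F]
    (p : ℕ) : Prop :=
  Module.finrank ℚ K = 2 → IsTotallyComplex K → classNumber K = 1 → IsUnram K p →
    ∀ (𝔑 : Ideal (𝓞 K)) (ρ : (Ω ≃ₐ[K] Ω) →* GL (Fin 2) F),
      IsCoprime (Ideal.span {(p : 𝓞 K)}) 𝔑 → IsContinuousRho ρ → IsIrreducibleRho ρ →
      HasLevel p ρ 𝔑 → (∀ v : HeightOneSpectrum (𝓞 K), (p : 𝓞 K) ∈ v.asIdeal → IsFlatAt ρ v) →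
      ∃ φ : K →+* ℂ, IsModular φ p ρ 𝔑

end Pool.Agent.K4H51.SB
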